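import Pool.Agent.Lib.MP_e426f4_ag.CI.AlgDep

/-!
# AlgDepR: integer points in the image of a rational map from a lower dimensional space are few (adapt `CI/AlgDep.lean`)

The elements `psi_i / D_i` of the fraction field of `MvPolynomial K ℤ` are algebraically dependent over `ℤ` (transcendence
degree `|K| < |I|`; the fraction field is algebraic over `MvPolynomial K ℤ`, `MvPolynomial.trdeg_of_isDomain`).  Let `P ≠ 0` be a
relation and `N = totalDegree P`.  `Q = ∑_m coeff_m(P) ∏ psi_i^(m_i) D_i^(N - m_i)` satisfies `Q = ∏ D_i^N · P(psi/D) = 0` in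
the fraction field, so `Q = 0`.  For `z` with `D_i(z) ≠ 0`, `psi_i(z) = A_i D_i(z)`: `0 = Q(z) = ∏ D_i(z)^N P(A)`, so
`P(A) = 0`; then as in `CI/AlgDep.lean` (the private lemma `ad_zeros`; copy it).
-/

set_option autoImplicit false

namespace Pool.Agent.Lib.MP_e426f4_ag.DP

open Finset Filter Topology

private theorem ad_zeros {I : Type} [Fintype I] [DecidableEq I] (P : MvPolynomial I ℤ)
    (hP : P ≠ 0) (H : ℕ) :
    (Set.ncard {A : I → ℤ | (∀ i, |A i| ≤ H) ∧ MvPolynomial.eval A P = 0} : ℝ) ≤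
      (P.totalDegree / (2 * H + 1)) * (2 * (H : ℝ) + 1) ^ Fintype.card I := by
  classical
  obtain ⟨e⟩ : Nonempty (I ≃ Fin (Fintype.card I)) := ⟨Fintype.equivFin I⟩
  obtain ⟨S, hS⟩ : ∃ S : Finset ℤ, S = Finset.Icc (-(H : ℤ)) H := ⟨_, rfl⟩
  have hScard : S.card = 2 * H + 1 := by
    rw [hS, Int.card_Icc]
    omega
  obtain ⟨Q, hQ⟩ : ∃ Q : MvPolynomial (Fin (Fintype.card I)) ℤ, Q = MvPolynomial.rename e P :=
    ⟨_, rfl⟩
  have hQ0 : Q ≠ 0 := by
    rw [hQ]
    intro h
    exact hP (MvPolynomial.rename_injective e e.injective (by rw [h, map_zero]))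
  have hdeg : Q.totalDegree ≤ P.totalDegree := by
    rw [hQ]
    exact MvPolynomial.totalDegree_rename_le _ _
  have h1 := MvPolynomial.schwartz_zippel_totalDegree hQ0 S
  obtain ⟨N, hN⟩ : ∃ N : ℕ, N = #{f ∈ Fintype.piFinset fun _ => S | MvPolynomial.eval f Q = 0} :=
    ⟨_, rfl⟩
  rw [← hN, hScard] at h1
  have h2 : (N : ℝ) / ((2 * H + 1 : ℕ) : ℝ) ^ Fintype.card I ≤
      (Q.totalDegree : ℝ) / ((2 * H + 1 : ℕ) : ℝ) := by
    have h2 := (NNRat.cast_le (K := ℝ)).2 h1
    push_cast at h2 ⊢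
    exact h2
  have hpos : (0 : ℝ) < ((2 * H + 1 : ℕ) : ℝ) := by positivity
  have h3 : Set.ncard {A : I → ℤ | (∀ i, |A i| ≤ H) ∧ MvPolynomial.eval A P = 0} ≤ N := by
    rw [hN, ← Set.ncard_coe_finset]
    refine Set.ncard_le_ncard_of_injOn (fun A => fun j => A (e.symm j)) ?_ ?_
      (Finset.finite_toSet _)
    · rintro A ⟨hA1, hA2⟩
      rw [Finset.mem_coe, Finset.mem_filter, Fintype.mem_piFinset]
      refine ⟨fun j => ?_, ?_⟩
      · rw [hS, Finset.mem_Icc]
        exact abs_le.1 (hA1 _)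
      · rw [hQ, MvPolynomial.eval_rename]
        have : (fun j => A (e.symm j)) ∘ e = A := by
          funext i
          simp
        rw [this]
        exact hA2
    · intro A _ A' _ h
      funext i
      have := congrFun h (e i)
      simpa using this
  calc (Set.ncard {A : I → ℤ | (∀ i, |A i| ≤ H) ∧ MvPolynomial.eval A P = 0} : ℝ) ≤ N := by
        exact_mod_cast h3
    _ ≤ ((Q.totalDegree : ℝ) / ((2 * H + 1 : ℕ) : ℝ)) *
        ((2 * H + 1 : ℕ) : ℝ) ^ Fintype.card I := by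
        rwa [div_le_iff₀ (by positivity)] at h2
    _ ≤ (P.totalDegree / (2 * H + 1)) * (2 * (H : ℝ) + 1) ^ Fintype.card I := by
        push_cast
        gcongr

/-- the quotients `psi i / D i` are algebraically dependent and so are their values -/
private theorem ad_relation {I K : Type} [Fintype I] [DecidableEq I] [Fintype K] [DecidableEq K]
    (hc : Fintype.card K < Fintype.card I) (psi D : I → MvPolynomial K ℤ) (hD : ∀ i, D i ≠ 0) :
    ∃ P : MvPolynomial I ℤ, P ≠ 0 ∧ ∀ (A : I → ℤ) (z : K → ℂ), (∀ i,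
        MvPolynomial.aeval z (D i) ≠ 0 ∧
        MvPolynomial.aeval z (psi i) = (A i : ℂ) * MvPolynomial.aeval z (D i)) →
        MvPolynomial.aeval (fun i => (A i : ℂ)) P = 0 := by
  classical
  obtain ⟨E, hE⟩ : ∃ E : MvPolynomial K ℤ, E = ∏ i, D i := ⟨_, rfl⟩
  have hE0 : E ≠ 0 := by
    rw [hE]
    exact Finset.prod_ne_zero_iff.2 fun i _ => hD i
  have hle : Submonoid.powers E ≤ nonZeroDivisors (MvPolynomial K ℤ) :=
    powers_le_nonZeroDivisors_of_noZeroDivisors hE0
  obtain ⟨S, iS, iA, iL⟩ : ∃ (S : Type) (_ : CommRing S) (_ : Algebra (MvPolynomial K ℤ) S),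
      IsLocalization.Away E S := ⟨Localization.Away E, inferInstance, inferInstance, inferInstance⟩
  obtain ⟨x, hx⟩ : ∃ x : I → S, x = fun i =>
      algebraMap (MvPolynomial K ℤ) S
        (psi i * ∏ j ∈ Finset.univ.erase i, D j) * IsLocalization.Away.invSelf E := ⟨_, rfl⟩
  have hdom : IsDomain S := IsLocalization.isDomain_of_le_nonZeroDivisors _ hle
  have hfaith : FaithfulSMul (MvPolynomial K ℤ) S :=
    (faithfulSMul_iff_algebraMap_injective _ _).2 (IsLocalization.injective _ hle)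
  have halg : Algebra.IsAlgebraic (MvPolynomial K ℤ) S :=
    IsLocalization.isAlgebraic _ (Submonoid.powers E)
  have htr : Algebra.trdeg ℤ S = Fintype.card K := by
    have h1 := trdeg_add_eq ℤ (MvPolynomial K ℤ) (A := S)
    rw [trdeg_eq_zero (R := MvPolynomial K ℤ) (A := S), add_zero, MvPolynomial.trdeg_of_isDomain, Cardinal.lift_id] at h1
    rw [← h1]
    simp
  have hdep : ¬ AlgebraicIndependent ℤ x := by
    intro h
    have h1 := h.cardinalMk_le_trdeg
    rw [htr] at h1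
    have h2 : Fintype.card I ≤ Fintype.card K := by simpa using h1
    omega
  rw [algebraicIndependent_iff] at hdep
  push Not at hdep
  obtain ⟨P, hP, hP0⟩ := hdep
  refine ⟨P, hP0, fun A z hz => ?_⟩
  have hu : IsUnit ((MvPolynomial.aeval z : MvPolynomial K ℤ →ₐ[ℤ] ℂ).toRingHom E) := by
    rw [isUnit_iff_ne_zero, hE]
    simp only [AlgHom.toRingHom_eq_coe, RingHom.coe_coe, map_prod]
    exact Finset.prod_ne_zero_iff.2 fun i _ => (hz i).1
  obtain ⟨φ, hφ⟩ : ∃ φ : S →+* ℂ, φ = IsLocalization.Away.lift E hu := ⟨_, rfl⟩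
  have hφa : ∀ f : MvPolynomial K ℤ,
      φ (algebraMap (MvPolynomial K ℤ) S f) = MvPolynomial.aeval z f := by
    intro f
    rw [hφ, IsLocalization.Away.lift_eq]
    rfl
  have hφi : MvPolynomial.aeval z E * φ (IsLocalization.Away.invSelf E) = 1 := by
    rw [← hφa, ← map_mul, IsLocalization.Away.mul_invSelf, map_one]
  have hφx : ∀ i, φ (x i) = (A i : ℂ) := by
    intro i
    have h1 : φ (x i) = MvPolynomial.aeval z (psi i * ∏ j ∈ Finset.univ.erase i, D j) *
        φ (IsLocalization.Away.invSelf E) := by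
      rw [hx]
      simp only [map_mul, hφa]
    have h2 : MvPolynomial.aeval z (psi i * ∏ j ∈ Finset.univ.erase i, D j) =
        (A i : ℂ) * MvPolynomial.aeval z E := by
      rw [map_mul, (hz i).2, mul_assoc, ← map_mul, hE, Finset.mul_prod_erase _ _ (Finset.mem_univ i)]
    rw [h1, h2, mul_assoc, hφi, mul_one]
  have h3 : (MvPolynomial.aeval (fun i => (A i : ℂ)) : MvPolynomial I ℤ →ₐ[ℤ] ℂ) =
      (RingHom.toIntAlgHom φ).comp (MvPolynomial.aeval x) := by
    refine MvPolynomial.algHom_ext fun i => ?_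
    rw [AlgHom.comp_apply, MvPolynomial.aeval_X, MvPolynomial.aeval_X]
    exact (hφx i).symm
  rw [h3, AlgHom.comp_apply, hP, map_zero]

theorem few_in_imageR {I K : Type} [Fintype I] [DecidableEq I] [Fintype K] [DecidableEq K]
    (hc : Fintype.card K < Fintype.card I) (psi D : I → MvPolynomial K ℤ) (hD : ∀ i, D i ≠ 0)
    (eps : ℝ) (he : 0 < eps) :
    ∀ᶠ H : ℕ in atTop,
      (Set.ncard {A : I → ℤ | (∀ i, |A i| ≤ H) ∧ ∃ z : K → ℂ, ∀ i,
        MvPolynomial.aeval z (D i) ≠ 0 ∧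
        MvPolynomial.aeval z (psi i) = (A i : ℂ) * MvPolynomial.aeval z (D i)} : ℝ) ≤
      eps * (2 * H + 1) ^ Fintype.card I := by
  classical
  obtain ⟨P, hP0, hP⟩ := ad_relation hc psi D hD
  filter_upwards [eventually_ge_atTop ⌈(P.totalDegree : ℝ) / eps⌉₊] with H hH
  have hsub : {A : I → ℤ | (∀ i, |A i| ≤ H) ∧ ∃ z : K → ℂ, ∀ i,
      MvPolynomial.aeval z (D i) ≠ 0 ∧
      MvPolynomial.aeval z (psi i) = (A i : ℂ) * MvPolynomial.aeval z (D i)} ⊆
      {A : I → ℤ | (∀ i, |A i| ≤ H) ∧ MvPolynomial.eval A P = 0} := by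
    rintro A ⟨hA1, z, hz⟩
    refine ⟨hA1, ?_⟩
    have h1 : MvPolynomial.aeval (fun i => (A i : ℂ)) P = 0 := hP A z hz
    have h3 : ((MvPolynomial.eval A P : ℤ) : ℂ) = 0 := by
      rw [← h1]
      have h4 := MvPolynomial.aeval_algebraMap_apply (R := ℤ) (A := ℤ) ℂ A P
      have h5 : MvPolynomial.aeval A P = MvPolynomial.eval A P := by
        rw [← MvPolynomial.coe_aeval_eq_eval]
        rfl
      rw [h5] at h4
      exact h4.symm
    exact_mod_cast h3
  have hfin : {A : I → ℤ | (∀ i, |A i| ≤ H) ∧ MvPolynomial.eval A P = 0}.Finite := by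
    refine (Set.Finite.pi' (fun _ : I => Set.finite_Icc (-(H : ℤ)) H)).subset ?_
    rintro A ⟨hA1, _⟩ i
    exact abs_le.1 (hA1 i)
  have h1 := Set.ncard_le_ncard hsub hfin
  have h2 := ad_zeros P hP0 H
  have h3 : (P.totalDegree : ℝ) / (2 * H + 1) ≤ eps := by
    rw [div_le_iff₀ (by positivity)]
    have h4 : (P.totalDegree : ℝ) / eps ≤ H := (Nat.le_ceil _).trans (by exact_mod_cast hH)
    rw [div_le_iff₀ he] at h4
    nlinarith [Nat.cast_nonneg (α := ℝ) H]
  calc (Set.ncard {A : I → ℤ | (∀ i, |A i| ≤ H) ∧ ∃ z : K → ℂ, ∀ i,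
        MvPolynomial.aeval z (D i) ≠ 0 ∧
        MvPolynomial.aeval z (psi i) = (A i : ℂ) * MvPolynomial.aeval z (D i)} : ℝ)
      ≤ (Set.ncard {A : I → ℤ | (∀ i, |A i| ≤ H) ∧ MvPolynomial.eval A P = 0} : ℝ) := by
        exact_mod_cast h1
    _ ≤ (P.totalDegree / (2 * H + 1)) * (2 * (H : ℝ) + 1) ^ Fintype.card I := h2
    _ ≤ eps * (2 * H + 1) ^ Fintype.card I := by
        gcongr

end Pool.Agent.Lib.MP_e426f4_ag.DP
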