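import Pool.Agent.Lib.MP_e426f4_ag.DP.Defs
import Pool.Agent.Lib.MP_e426f4_ag.DG.Ker1
import Pool.Agent.Lib.MP_e426f4_ag.DG.Ker2
import Pool.Agent.Lib.MP_e426f4_ag.DG.FFb

/-!
# BadG: the second moment bound with an additional function `g`

`N_g - M_g = P⁻¹ ∑_b ψ(b) ∑_x e(b (∑ a_i x_i^d + g(x)))`.  For a weight `φ ≥ 0`:
`∑_a ∏ w(a_i) |P⁻¹ ∑_b φ(b) ∑_x e(..)|² = P⁻² ∑_{b,b'} φ(b) φ(b') ∑_{x,x'} e(b g(x) - b' g(x')) ∏ wh(b x_i^d - b' x'_i^d)
≤ rhsG P n d X φ`, as `wh ≥ 0`.  The rest is as in `DH/BadG.lean`.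
-/

set_option autoImplicit false

namespace Pool.Agent.Lib.MP_e426f4_ag.DP

open Finset
open Pool.Agent.Lib.MP_e426f4_ag.DG
open Pool.Agent.Lib.MP_e426f4_ag.DH (rhsG)

section

variable {P : ℕ} [NeZero P]

private theorem bg_ee_sum {ι : Type*} (t : Finset ι) (f : ι → ZMod P) :
    ee P (∑ i ∈ t, f i) = ∏ i ∈ t, ee P (f i) := by
  classical
  unfold ee
  induction t using Finset.induction_on with
  | empty => rw [Finset.sum_empty, Finset.prod_empty, AddChar.map_zero_eq_one]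
  | insert a t ha ih =>
    rw [Finset.sum_insert ha, Finset.prod_insert ha, AddChar.map_add_eq_mul, ih]

private theorem bg_ee_add (a b : ZMod P) : ee P (a + b) = ee P a * ee P b := by
  unfold ee
  exact AddChar.map_add_eq_mul _ _ _

private theorem bg_conj_ee (c : ZMod P) : (starRingEnd ℂ) (ee P c) = ee P (-c) := by
  unfold ee
  exact (AddChar.map_neg_eq_conj _ _).symm

private theorem bg_norm_ee (c : ZMod P) : ‖ee P c‖ = 1 := by
  unfold ee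
  exact AddChar.norm_apply _ _

private theorem bg_NN {s : ℕ} (d : ℕ) (X : Fin s → Finset ℕ) (g : (Fin s → ℕ) → ZMod P)
    (a : Fin s → ZMod P) (v : ZMod P) : (NNg P d X g a v : ℂ) =
      (1 / (P : ℂ)) * ∑ b : ZMod P, ee P (-(b * v)) *
        ∑ x ∈ Fintype.piFinset X, ee P (b * (∑ i, a i * (x i : ZMod P) ^ d + g x)) := by
  have hP : (P : ℂ) ≠ 0 := by exact_mod_cast NeZero.ne P
  have h1 : ∀ b : ZMod P, ee P (-(b * v)) *
      ∑ x ∈ Fintype.piFinset X, ee P (b * (∑ i, a i * (x i : ZMod P) ^ d + g x)) =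
      ∑ x ∈ Fintype.piFinset X, ee P (b * (∑ i, a i * (x i : ZMod P) ^ d + g x - v)) := by
    intro b
    rw [Finset.mul_sum]
    refine Finset.sum_congr rfl fun x _ => ?_
    rw [← bg_ee_add]
    congr 1
    ring
  simp only [h1]
  rw [Finset.sum_comm]
  simp only [sum_ee]
  unfold NNg
  rw [← Finset.sum_filter, Finset.sum_const, nsmul_eq_mul]
  have h3 : ((Fintype.piFinset X).filter fun x : Fin s → ℕ =>
      ∑ i, a i * (x i : ZMod P) ^ d + g x - v = 0) = ((Fintype.piFinset X).filter fun x : Fin s → ℕ =>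
      ∑ i, a i * (x i : ZMod P) ^ d + g x = v) := by
    refine Finset.filter_congr fun x _ => ?_
    exact sub_eq_zero
  rw [h3]
  push_cast
  field_simp

private theorem bg_psi (W J : ℕ) (b : ZMod P) : (psi P W J b : ℂ) =
    1 - (∑ j ∈ Icc (-(J : ℤ)) J, ee P (-(b * (((W : ℤ) * j : ℤ) : ZMod P)))) / (2 * (J : ℂ) + 1) := by
  have hexp : ∀ j : ℤ, ee P (-(b * (((W : ℤ) * j : ℤ) : ZMod P))) =
      Complex.exp (-(((2 * Real.pi * ((W : ℝ) * (j : ℝ) * ((b.val : ℝ) / P)) : ℝ) : ℂ) *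
        Complex.I)) := by
    intro j
    have h1 : (-(b * (((W : ℤ) * j : ℤ) : ZMod P)) : ZMod P) =
        ((-((b.val : ℤ) * (W * j)) : ℤ) : ZMod P) := by
      push_cast
      rw [ZMod.natCast_zmod_val]
    unfold ee
    rw [h1, ZMod.stdAddChar_coe]
    congr 1
    push_cast
    ring
  have hsymm : ∑ j ∈ Icc (-(J : ℤ)) J, ee P (-(b * (((W : ℤ) * j : ℤ) : ZMod P))) =
      ∑ j ∈ Icc (-(J : ℤ)) J,
        Complex.exp (((2 * Real.pi * ((W : ℝ) * (j : ℝ) * ((b.val : ℝ) / P)) : ℝ) : ℂ) *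
        Complex.I) := by
    refine Finset.sum_nbij' (fun j => -j) (fun j => -j) ?_ ?_ ?_ ?_ ?_
    · intro j hj
      rw [Finset.mem_Icc] at hj ⊢
      omega
    · intro j hj
      rw [Finset.mem_Icc] at hj ⊢
      omega
    · intro j _; exact neg_neg j
    · intro j _; exact neg_neg j
    · intro j _
      rw [hexp]
      congr 1
      push_cast
      ring
  have hcos : ∑ j ∈ Icc (-(J : ℤ)) J, ee P (-(b * (((W : ℤ) * j : ℤ) : ZMod P))) =
      ((∑ j ∈ Icc (-(J : ℤ)) J,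
        Real.cos (2 * Real.pi * ((W : ℝ) * (j : ℝ) * ((b.val : ℝ) / P))) : ℝ) : ℂ) := by
    have h2 : 2 * ∑ j ∈ Icc (-(J : ℤ)) J, ee P (-(b * (((W : ℤ) * j : ℤ) : ZMod P))) =
        2 * ((∑ j ∈ Icc (-(J : ℤ)) J,
        Real.cos (2 * Real.pi * ((W : ℝ) * (j : ℝ) * ((b.val : ℝ) / P))) : ℝ) : ℂ) := by
      have h3 : 2 * ∑ j ∈ Icc (-(J : ℤ)) J, ee P (-(b * (((W : ℤ) * j : ℤ) : ZMod P))) =
          ∑ j ∈ Icc (-(J : ℤ)) J, ee P (-(b * (((W : ℤ) * j : ℤ) : ZMod P))) +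
          ∑ j ∈ Icc (-(J : ℤ)) J,
            Complex.exp (((2 * Real.pi * ((W : ℝ) * (j : ℝ) * ((b.val : ℝ) / P)) : ℝ) : ℂ) *
            Complex.I) := by
        rw [← hsymm]; ring
      rw [h3, ← Finset.sum_add_distrib, Complex.ofReal_sum, Finset.mul_sum]
      refine Finset.sum_congr rfl fun j _ => ?_
      rw [hexp, Complex.ofReal_cos, Complex.cos]
      ring_nf
    exact mul_left_cancel₀ two_ne_zero h2
  rw [hcos]
  unfold psi
  push_cast
  ring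

private theorem bg_diff {s : ℕ} (d W J : ℕ) (X : Fin s → Finset ℕ) (g : (Fin s → ℕ) → ZMod P)
    (a : Fin s → ZMod P) :
    ((NNg P d X g a 0 - Mavgg P d W J X g a : ℝ) : ℂ) =
      (1 / (P : ℂ)) * ∑ b : ZMod P, (psi P W J b : ℂ) *
        ∑ x ∈ Fintype.piFinset X, ee P (b * (∑ i, a i * (x i : ZMod P) ^ d + g x)) := by
  have hJ : (2 * (J : ℂ) + 1) ≠ 0 := by
    have : ((2 * J + 1 : ℕ) : ℂ) ≠ 0 := by
      rw [Nat.cast_ne_zero]; omega
    push_cast at this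
    exact this
  have h0 : ee P 0 = 1 := by
    unfold ee
    exact AddChar.map_zero_eq_one _
  have hM : ((Mavgg P d W J X g a : ℝ) : ℂ) = (∑ j ∈ Icc (-(J : ℤ)) J, (1 / (P : ℂ)) *
      ∑ b : ZMod P, ee P (-(b * (((W : ℤ) * j : ℤ) : ZMod P))) *
        ∑ x ∈ Fintype.piFinset X, ee P (b * (∑ i, a i * (x i : ZMod P) ^ d + g x))) /
        (2 * (J : ℂ) + 1) := by
    unfold Mavgg
    rw [Complex.ofReal_div, Complex.ofReal_sum]
    congr 1
    · refine Finset.sum_congr rfl fun j _ => ?_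
      exact bg_NN d X g a _
    · push_cast
      ring
  rw [Complex.ofReal_sub, hM, bg_NN d X g a 0]
  obtain ⟨G, hG⟩ : ∃ G : ZMod P → ℂ, ∀ b, ∑ x ∈ Fintype.piFinset X,
      ee P (b * (∑ i, a i * (x i : ZMod P) ^ d + g x)) = G b := ⟨_, fun _ => rfl⟩
  simp only [hG, mul_zero, neg_zero, h0, one_mul]
  rw [← Finset.mul_sum, Finset.sum_comm]
  simp only [← Finset.sum_mul]
  rw [mul_div_assoc, ← mul_sub, Finset.sum_div, ← Finset.sum_sub_distrib]
  congr 1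
  refine Finset.sum_congr rfl fun b _ => ?_
  rw [bg_psi]
  push_cast
  ring

/-- the part of `N_g - M_g` which belongs to the weight `φ` -/
private noncomputable def bgD {s : ℕ} (P : ℕ) [NeZero P] (d : ℕ) (X : Fin s → Finset ℕ)
    (g : (Fin s → ℕ) → ZMod P) (φ : ZMod P → ℝ) (a : Fin s → ZMod P) : ℂ :=
  (1 / (P : ℂ)) * ∑ b : ZMod P, (φ b : ℂ) *
    ∑ x ∈ Fintype.piFinset X, ee P (b * (∑ i, a i * (x i : ZMod P) ^ d + g x))

private theorem bg_mul {s : ℕ} (d : ℕ) (g : (Fin s → ℕ) → ZMod P) (a : Fin s → ZMod P)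
    (b b' : ZMod P) (x x' : Fin s → ℕ) :
    ee P (b * (∑ i, a i * (x i : ZMod P) ^ d + g x)) *
      (starRingEnd ℂ) (ee P (b' * (∑ i, a i * (x' i : ZMod P) ^ d + g x'))) =
    ee P (b * g x - b' * g x') *
      ∏ i, ee P (a i * (b * (x i : ZMod P) ^ d - b' * (x' i : ZMod P) ^ d)) := by
  rw [bg_conj_ee, ← bg_ee_add, ← bg_ee_sum, ← bg_ee_add]
  congr 1
  have h1 : ∑ i, a i * (b * (x i : ZMod P) ^ d - b' * (x' i : ZMod P) ^ d) =
      b * ∑ i, a i * (x i : ZMod P) ^ d - b' * ∑ i, a i * (x' i : ZMod P) ^ d := by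
    rw [Finset.mul_sum, Finset.mul_sum, ← Finset.sum_sub_distrib]
    refine Finset.sum_congr rfl fun i _ => ?_
    ring
  rw [h1]
  ring

private theorem bg_suma {s : ℕ} (n d : ℕ) (hn : 0 < n) (g : (Fin s → ℕ) → ZMod P)
    (b b' : ZMod P) (x x' : Fin s → ℕ) :
    ∑ a : Fin s → ZMod P, (∏ i, (wt P n (a i) : ℂ)) *
      (ee P (b * (∑ i, a i * (x i : ZMod P) ^ d + g x)) *
      (starRingEnd ℂ) (ee P (b' * (∑ i, a i * (x' i : ZMod P) ^ d + g x')))) =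
    ee P (b * g x - b' * g x') *
      ∏ i, (wh P n (b * (x i : ZMod P) ^ d - b' * (x' i : ZMod P) ^ d) : ℂ) := by
  have h1 : ∀ a : Fin s → ZMod P, (∏ i, (wt P n (a i) : ℂ)) *
      (ee P (b * (∑ i, a i * (x i : ZMod P) ^ d + g x)) *
      (starRingEnd ℂ) (ee P (b' * (∑ i, a i * (x' i : ZMod P) ^ d + g x')))) =
      ee P (b * g x - b' * g x') * ∏ i, ((wt P n (a i) : ℂ) *
        ee P (a i * (b * (x i : ZMod P) ^ d - b' * (x' i : ZMod P) ^ d))) := by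
    intro a
    rw [bg_mul, Finset.prod_mul_distrib]
    ring
  simp only [h1]
  rw [← Finset.mul_sum]
  congr 1
  have h5 := Finset.prod_univ_sum (fun _ : Fin s => (Finset.univ : Finset (ZMod P)))
    (fun i c => (wt P n c : ℂ) * ee P (c * (b * (x i : ZMod P) ^ d - b' * (x' i : ZMod P) ^ d)))
  rw [Fintype.piFinset_univ] at h5
  rw [← h5]
  refine Finset.prod_congr rfl fun i _ => ?_
  exact sum_wt_ee n hn _

private theorem bg_rhs {s : ℕ} (n d : ℕ) (X : Fin s → Finset ℕ) (φ : ZMod P → ℝ) :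
    rhsG P n d X φ = ∑ q ∈ (univ : Finset (ZMod P)) ×ˢ Fintype.piFinset X,
      ∑ q' ∈ (univ : Finset (ZMod P)) ×ˢ Fintype.piFinset X,
        (1 / (P : ℝ) ^ 2) * (φ q.1 * φ q'.1) *
          ∏ i, wh P n (q.1 * (q.2 i : ZMod P) ^ d - q'.1 * (q'.2 i : ZMod P) ^ d) := by
  have h1 : ∀ b b' : ZMod P, ∏ i, FF P n d (X i) b b' =
      ∑ x ∈ Fintype.piFinset X, ∑ x' ∈ Fintype.piFinset X,
        ∏ i, wh P n (b * (x i : ZMod P) ^ d - b' * (x' i : ZMod P) ^ d) := by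
    intro b b'
    have h2 : ∀ i, FF P n d (X i) b b' = ∑ x ∈ X i, ∑ x' ∈ X i,
        wh P n (b * (x : ZMod P) ^ d - b' * (x' : ZMod P) ^ d) := by
      intro i
      unfold FF FZ
      rw [Finset.sum_product]
    simp only [h2]
    rw [Finset.prod_univ_sum]
    refine Finset.sum_congr rfl fun x _ => ?_
    rw [Finset.prod_univ_sum]
  unfold rhsG
  rw [Finset.sum_product, Finset.mul_sum]
  refine Finset.sum_congr rfl fun b _ => ?_
  simp only [Finset.sum_product]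
  rw [Finset.sum_comm, Finset.mul_sum]
  refine Finset.sum_congr rfl fun b' _ => ?_
  rw [h1, Finset.mul_sum, Finset.mul_sum]
  refine Finset.sum_congr rfl fun x _ => ?_
  rw [Finset.mul_sum, Finset.mul_sum]
  refine Finset.sum_congr rfl fun x' _ => ?_
  ring

private theorem bg_ident {s : ℕ} (n d : ℕ) (hn : 0 < n) (X : Fin s → Finset ℕ)
    (g : (Fin s → ℕ) → ZMod P) (φ : ZMod P → ℝ) (hφ : ∀ b, 0 ≤ φ b) :
    ∑ a : Fin s → ZMod P, (∏ i, wt P n (a i)) * ‖bgD P d X g φ a‖ ^ 2 ≤ rhsG P n d X φ := by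
  have key : ((∑ a : Fin s → ZMod P, (∏ i, wt P n (a i)) * ‖bgD P d X g φ a‖ ^ 2 : ℝ) : ℂ) =
      ∑ q ∈ (univ : Finset (ZMod P)) ×ˢ Fintype.piFinset X,
      ∑ q' ∈ (univ : Finset (ZMod P)) ×ˢ Fintype.piFinset X,
        ((1 / (P : ℂ) ^ 2) * ((φ q.1 : ℂ) * (φ q'.1 : ℂ))) *
          (ee P (q.1 * g q.2 - q'.1 * g q'.2) *
          ∏ i, (wh P n (q.1 * (q.2 i : ZMod P) ^ d - q'.1 * (q'.2 i : ZMod P) ^ d) : ℂ)) := by
    have hD : ∀ a : Fin s → ZMod P, bgD P d X g φ a =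
        ∑ q ∈ (univ : Finset (ZMod P)) ×ˢ Fintype.piFinset X,
          (1 / (P : ℂ)) * (φ q.1 : ℂ) *
            ee P (q.1 * (∑ i, a i * (q.2 i : ZMod P) ^ d + g q.2)) := by
      intro a
      unfold bgD
      rw [Finset.sum_product, Finset.mul_sum]
      refine Finset.sum_congr rfl fun b _ => ?_
      rw [← mul_assoc, Finset.mul_sum]
    have hsq : ∀ a : Fin s → ZMod P, (‖bgD P d X g φ a‖ : ℂ) ^ 2 =
        ∑ q ∈ (univ : Finset (ZMod P)) ×ˢ Fintype.piFinset X,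
        ∑ q' ∈ (univ : Finset (ZMod P)) ×ˢ Fintype.piFinset X,
          ((1 / (P : ℂ) ^ 2) * ((φ q.1 : ℂ) * (φ q'.1 : ℂ))) *
          (ee P (q.1 * (∑ i, a i * (q.2 i : ZMod P) ^ d + g q.2)) *
          (starRingEnd ℂ) (ee P (q'.1 * (∑ i, a i * (q'.2 i : ZMod P) ^ d + g q'.2)))) := by
      intro a
      rw [← Complex.mul_conj', hD, map_sum, Finset.sum_mul_sum]
      refine Finset.sum_congr rfl fun q _ => Finset.sum_congr rfl fun q' _ => ?_
      rw [map_mul, map_mul, map_div₀, map_one, Complex.conj_natCast, Complex.conj_ofReal]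
      rw [one_div, one_div, ← inv_pow]
      ring
    push_cast
    simp only [hsq]
    simp only [Finset.mul_sum]
    rw [Finset.sum_comm]
    refine Finset.sum_congr rfl fun q _ => ?_
    rw [Finset.sum_comm]
    refine Finset.sum_congr rfl fun q' _ => ?_
    rw [← bg_suma n d hn g q.1 q'.1 q.2 q'.2, Finset.mul_sum]
    refine Finset.sum_congr rfl fun a _ => ?_
    ring
  have h1 : ∑ a : Fin s → ZMod P, (∏ i, wt P n (a i)) * ‖bgD P d X g φ a‖ ^ 2 =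
      ‖((∑ a : Fin s → ZMod P, (∏ i, wt P n (a i)) * ‖bgD P d X g φ a‖ ^ 2 : ℝ) : ℂ)‖ := by
    rw [Complex.norm_real, Real.norm_of_nonneg]
    exact Finset.sum_nonneg fun a _ => mul_nonneg
      (Finset.prod_nonneg fun i _ => wt_nonneg n (a i)) (sq_nonneg _)
  rw [h1, key, bg_rhs]
  refine (norm_sum_le _ _).trans (Finset.sum_le_sum fun q _ => ?_)
  refine (norm_sum_le _ _).trans (Finset.sum_le_sum fun q' _ => le_of_eq ?_)
  rw [norm_mul, norm_mul, norm_mul, norm_mul, bg_norm_ee, norm_prod, one_mul]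
  have e1 : ‖(1 / (P : ℂ) ^ 2)‖ = 1 / (P : ℝ) ^ 2 := by
    rw [norm_div, norm_one, norm_pow, Complex.norm_natCast]
  have e2 : ∀ b : ZMod P, ‖(φ b : ℂ)‖ = φ b := fun b => by
    rw [Complex.norm_real, Real.norm_of_nonneg (hφ b)]
  have e3 : ∀ c : ZMod P, ‖(wh P n c : ℂ)‖ = wh P n c := fun c => by
    rw [Complex.norm_real, Real.norm_of_nonneg (wh_nonneg n c)]
  rw [e1, e2, e2]
  simp only [e3]

private theorem bg_split {s : ℕ} (d W J : ℕ) (X : Fin s → Finset ℕ)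
    (g : (Fin s → ℕ) → ZMod P) (φ1 φ2 φ3 : ZMod P → ℝ)
    (hφ : ∀ b, psi P W J b = φ1 b + φ2 b + φ3 b) (a : Fin s → ZMod P) :
    (NNg P d X g a 0 - Mavgg P d W J X g a) ^ 2 ≤
      3 * (‖bgD P d X g φ1 a‖ ^ 2 + ‖bgD P d X g φ2 a‖ ^ 2 + ‖bgD P d X g φ3 a‖ ^ 2) := by
  have h1 : ((NNg P d X g a 0 - Mavgg P d W J X g a : ℝ) : ℂ) =
      bgD P d X g φ1 a + bgD P d X g φ2 a + bgD P d X g φ3 a := by
    rw [bg_diff]
    unfold bgD
    rw [← mul_add, ← mul_add, ← Finset.sum_add_distrib, ← Finset.sum_add_distrib]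
    congr 1
    refine Finset.sum_congr rfl fun b _ => ?_
    rw [hφ b]
    push_cast
    ring
  have h2 : |NNg P d X g a 0 - Mavgg P d W J X g a| ≤
      ‖bgD P d X g φ1 a‖ + ‖bgD P d X g φ2 a‖ + ‖bgD P d X g φ3 a‖ := by
    have h3 : |NNg P d X g a 0 - Mavgg P d W J X g a| =
        ‖((NNg P d X g a 0 - Mavgg P d W J X g a : ℝ) : ℂ)‖ := by
      rw [Complex.norm_real, Real.norm_eq_abs]
    rw [h3, h1]
    exact norm_add₃_le
  rw [← sq_abs]
  refine (pow_le_pow_left₀ (abs_nonneg _) h2 2).trans ?_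
  nlinarith [sq_nonneg (‖bgD P d X g φ1 a‖ - ‖bgD P d X g φ2 a‖),
    sq_nonneg (‖bgD P d X g φ1 a‖ - ‖bgD P d X g φ3 a‖),
    sq_nonneg (‖bgD P d X g φ2 a‖ - ‖bgD P d X g φ3 a‖)]

private theorem bg_cast_inj {P H : ℕ} (h2 : 2 * H < P) (x y : ℤ) (hx : |x| ≤ H) (hy : |y| ≤ H)
    (h : (x : ZMod P) = (y : ZMod P)) : x = y := by
  rw [ZMod.intCast_eq_intCast_iff_dvd_sub] at h
  have h3 : |y - x| < (P : ℤ) := by
    have h4 : |y - x| ≤ |y| + |x| := abs_sub _ _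
    have h5 : (2 * H : ℤ) < P := by exact_mod_cast h2
    linarith
  have h6 := Int.eq_zero_of_abs_lt_dvd h h3
  linarith

end

theorem bad_countG {s : ℕ} (P : ℕ) [NeZero P] (n d W J H : ℕ) (hn : 0 < n) (hnH : 4 * n * H ≤ P)
    (h2 : 2 * H < P)
    (X : Fin s → Finset ℕ) (g : (Fin s → ℕ) → ZMod P) (A : Finset (Fin s → ℤ))
    (hA : ∀ a ∈ A, ∀ i, |a i| ≤ H)
    (m0 : ℝ) (hm0 : 0 ≤ m0)
    (hN : ∀ a ∈ A, NNg P d X g (fun i => ((a i : ℤ) : ZMod P)) 0 = 0)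
    (hM : ∀ a ∈ A, m0 ≤ Mavgg P d W J X g (fun i => ((a i : ℤ) : ZMod P)))
    (φ1 φ2 φ3 : ZMod P → ℝ) (hφ : ∀ b, psi P W J b = φ1 b + φ2 b + φ3 b)
    (h1 : ∀ b, 0 ≤ φ1 b) (h2' : ∀ b, 0 ≤ φ2 b) (h3 : ∀ b, 0 ≤ φ3 b) :
    (A.card : ℝ) * m0 ^ 2 ≤
      2 ^ s * (3 * (rhsG P n d X φ1 + rhsG P n d X φ2 + rhsG P n d X φ3)) := by
  classical
  obtain ⟨T, hT⟩ : ∃ T, T = 3 * (rhsG P n d X φ1 + rhsG P n d X φ2 + rhsG P n d X φ3) := ⟨_, rfl⟩
  rw [← hT]
  set φ : (Fin s → ℤ) → (Fin s → ZMod P) := fun a i => ((a i : ℤ) : ZMod P) with hφd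
  have hinj : Set.InjOn φ (A : Set (Fin s → ℤ)) := by
    intro a ha a' ha' haa
    funext i
    exact bg_cast_inj h2 _ _ (hA a ha i) (hA a' ha' i) (congrFun haa i)
  set f : (Fin s → ZMod P) → ℝ := fun a =>
    (∏ i, wt P n (a i)) * (NNg P d X g a 0 - Mavgg P d W J X g a) ^ 2 with hf
  have hw0 : ∀ a : Fin s → ZMod P, 0 ≤ ∏ i, wt P n (a i) :=
    fun a => Finset.prod_nonneg fun i _ => wt_nonneg n (a i)
  have hf0 : ∀ a, 0 ≤ f a := fun a => mul_nonneg (hw0 a) (sq_nonneg _)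
  have h3 : ∑ a ∈ A, f (φ a) ≤ T := by
    have h31 : ∑ a : Fin s → ZMod P, f a ≤ T := by
      have g1 := bg_ident n d hn X g φ1 h1
      have g2 := bg_ident n d hn X g φ2 h2'
      have g3 := bg_ident n d hn X g φ3 h3
      have h33 : ∑ a : Fin s → ZMod P, f a ≤
          3 * (∑ a : Fin s → ZMod P, (∏ i, wt P n (a i)) * ‖bgD P d X g φ1 a‖ ^ 2 +
            ∑ a : Fin s → ZMod P, (∏ i, wt P n (a i)) * ‖bgD P d X g φ2 a‖ ^ 2 +
            ∑ a : Fin s → ZMod P, (∏ i, wt P n (a i)) * ‖bgD P d X g φ3 a‖ ^ 2) := by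
        rw [← Finset.sum_add_distrib, ← Finset.sum_add_distrib, Finset.mul_sum]
        refine Finset.sum_le_sum fun a _ => ?_
        have h32 := mul_le_mul_of_nonneg_left (bg_split d W J X g φ1 φ2 φ3 hφ a) (hw0 a)
        refine h32.trans (le_of_eq ?_)
        ring
      rw [hT]
      linarith
    refine le_trans ?_ h31
    rw [← Finset.sum_image hinj]
    exact Finset.sum_le_sum_of_subset_of_nonneg (Finset.subset_univ _) fun a _ _ => hf0 a
  have h4 : ∀ a ∈ A, (1 / 2 : ℝ) ^ s * m0 ^ 2 ≤ f (φ a) := by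
    intro a ha
    have h5 : (1 / 2 : ℝ) ^ s ≤ ∏ i, wt P n (φ a i) := by
      have h6 : ∏ i : Fin s, (1 / 2 : ℝ) ≤ ∏ i, wt P n (φ a i) := by
        apply Finset.prod_le_prod
        · intro i _
          norm_num
        · intro i _
          apply wt_ge n hn (a i)
          have h7 := hA a ha i
          calc (4 * n * |a i| : ℤ) ≤ 4 * n * H := by gcongr
            _ ≤ P := by exact_mod_cast hnH
      simpa using h6
    have h8 : m0 ^ 2 ≤ (NNg P d X g (φ a) 0 - Mavgg P d W J X g (φ a)) ^ 2 := by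
      rw [hN a ha, zero_sub, neg_sq]
      exact pow_le_pow_left₀ hm0 (hM a ha) 2
    exact mul_le_mul h5 h8 (sq_nonneg _) (Finset.prod_nonneg fun i _ => wt_nonneg n _)
  have h9 : (A.card : ℝ) * ((1 / 2 : ℝ) ^ s * m0 ^ 2) ≤ T := by
    refine le_trans ?_ h3
    rw [← nsmul_eq_mul]
    exact Finset.card_nsmul_le_sum _ _ _ h4
  have h10 : (2 : ℝ) ^ s * (1 / 2 : ℝ) ^ s = 1 := by
    rw [← mul_pow]
    norm_num
  calc (A.card : ℝ) * m0 ^ 2 = (2 : ℝ) ^ s * (1 / 2 : ℝ) ^ s * ((A.card : ℝ) * m0 ^ 2) := by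
        rw [h10, one_mul]
    _ = 2 ^ s * ((A.card : ℝ) * ((1 / 2 : ℝ) ^ s * m0 ^ 2)) := by ring
    _ ≤ 2 ^ s * T := mul_le_mul_of_nonneg_left h9 (by positivity)

end Pool.Agent.Lib.MP_e426f4_ag.DP
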