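import Pool.Agent.Lib.MP_e426f4_ag.DP.Defs

/-!
# Basic: values, coefficients, congruences, sign changes
-/

set_option autoImplicit false

namespace Pool.Agent.Lib.MP_e426f4_ag.DP

open Finset MvPolynomial
open Pool.Agent.Lib.MP_e426f4_ag.DG (box)

variable {s : ℕ}

theorem aeval_fm {K : Type} [CommRing K] (d : ℕ) (G : Pol s) (a : Fin s → ℤ) (x : Fin s → K) :
    aeval x (fm d G a) = aeval x G + ∑ i, (a i : K) * x i ^ d := by
  unfold fm
  rw [map_add, map_sum]
  congr 1
  refine Finset.sum_congr rfl fun i _ => ?_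
  rw [map_mul, map_pow, aeval_X, aeval_C]
  simp

theorem evZ_fm (d : ℕ) (G : Pol s) (a x : Fin s → ℤ) :
    evZ (fm d G a) x = evZ G x + ∑ i, a i * x i ^ d := by
  unfold evZ fm
  simp

theorem evN_fm (d : ℕ) (G : Pol s) (a : Fin s → ℤ) (x : Fin s → ℕ) :
    evN (fm d G a) x = evN G x + ∑ i, a i * (x i : ℤ) ^ d := evZ_fm d G a _

theorem evR_fm (d : ℕ) (G : Pol s) (a : Fin s → ℤ) (x : Fin s → ℝ) :
    evR (fm d G a) x = evR G x + ∑ i, (a i : ℝ) * x i ^ d := aeval_fm d G a x

private theorem pderiv_sum_pow (d : ℕ) (a : Fin s → ℤ) (i : Fin s) :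
    pderiv i (∑ j, C (a j) * X j ^ d : Pol s) = C ((d : ℤ) * a i) * X i ^ (d - 1) := by
  rw [map_sum, Finset.sum_eq_single i]
  · rw [pderiv_C_mul, pderiv_pow, pderiv_X_self, mul_one, C_mul]
    have h1 : (C (d : ℤ) : Pol s) = (d : Pol s) := by simp
    rw [h1]
    ring
  · intro j _ hj
    rw [pderiv_C_mul, pderiv_pow, pderiv_X_of_ne hj]
    simp
  · intro h
    exact absurd (Finset.mem_univ i) h

theorem aeval_pderiv_fm {K : Type} [CommRing K] (d : ℕ) (G : Pol s) (a : Fin s → ℤ)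
    (x : Fin s → K) (i : Fin s) :
    aeval x (pderiv i (fm d G a)) = aeval x (pderiv i G) + (d : K) * (a i : K) * x i ^ (d - 1) := by
  unfold fm
  rw [map_add (pderiv i), map_add, pderiv_sum_pow, map_mul, map_pow, aeval_X, aeval_C]
  simp

theorem evZ_pderiv_fm (d : ℕ) (G : Pol s) (a x : Fin s → ℤ) (i : Fin s) :
    evZ (pderiv i (fm d G a)) x = evZ (pderiv i G) x + d * a i * x i ^ (d - 1) := by
  unfold evZ fm
  rw [map_add (pderiv i), map_add, pderiv_sum_pow]
  simp

theorem evN_pderiv_fm (d : ℕ) (G : Pol s) (a : Fin s → ℤ) (x : Fin s → ℕ) (i : Fin s) :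
    evN (pderiv i (fm d G a)) x = evN (pderiv i G) x + d * a i * (x i : ℤ) ^ (d - 1) :=
  evZ_pderiv_fm d G a _ i

theorem hom_fm (d : ℕ) (G : Pol s) (hG : G.IsHomogeneous d) (a : Fin s → ℤ) :
    (fm d G a).IsHomogeneous d := by
  unfold fm
  refine hG.add (IsHomogeneous.sum _ _ _ fun i _ => ?_)
  have h1 : (C (a i) : Pol s).IsHomogeneous 0 := isHomogeneous_C _ _
  have h2 : (X i ^ d : Pol s).IsHomogeneous (1 * d) := (isHomogeneous_X ℤ i).pow d
  have h3 := h1.mul h2
  rwa [zero_add, one_mul] at h3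

private theorem coeff_sum_pow (d : ℕ) (hd : 1 ≤ d) (a : Fin s → ℤ) (m : Fin s →₀ ℕ) :
    coeff m (∑ j, C (a j) * X j ^ d : Pol s) = 0 ∨
      ∃ i, coeff m (∑ j, C (a j) * X j ^ d : Pol s) = a i := by
  have h1 : ∀ j, coeff m (C (a j) * X j ^ d : Pol s) = if Finsupp.single j d = m then a j else 0 := by
    intro j
    rw [coeff_C_mul, coeff_X_pow]
    split_ifs <;> simp
  rw [coeff_sum]
  simp only [h1]
  by_cases h : ∃ i, Finsupp.single i d = m
  · obtain ⟨i, hi⟩ := h
    right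
    refine ⟨i, ?_⟩
    rw [Finset.sum_eq_single i]
    · rw [if_pos hi]
    · intro j _ hj
      rw [if_neg]
      intro h2
      rw [← hi] at h2
      have := (Finsupp.single_eq_single_iff _ _ _ _).1 h2
      rcases this with h3 | h3
      · exact hj h3.1
      · omega
    · intro h
      exact absurd (Finset.mem_univ i) h
  · left
    push Not at h
    exact Finset.sum_eq_zero fun j _ => if_neg (h j)

theorem Cb_fm {d K H : ℕ} (hd : 1 ≤ d) {G : Pol s} (hG : Cb d K G) (a : Fin s → ℤ)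
    (ha : ∀ i, |a i| ≤ (H : ℤ)) : Cb d (K + H) (fm d G a) := by
  refine ⟨hom_fm d G hG.1 a, fun m => ?_⟩
  unfold fm
  rw [coeff_add]
  refine (abs_add_le _ _).trans ?_
  push_cast
  refine add_le_add (hG.2 m) ?_
  rcases coeff_sum_pow d hd a m with h | ⟨i, h⟩
  · rw [h]
    simp
  · rw [h]
    exact ha i

theorem Cb_mono {d K H : ℕ} (h : K ≤ H) {G : Pol s} (hG : Cb d K G) : Cb d H G :=
  ⟨hG.1, fun m => (hG.2 m).trans (by exact_mod_cast h)⟩

theorem evR_evZ (F : Pol s) (x : Fin s → ℤ) : ((evZ F x : ℤ) : ℝ) = evR F fun i => (x i : ℝ) := by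
  unfold evZ evR
  have h := aeval_algebraMap_apply (R := ℤ) (A := ℤ) ℝ x F
  have h2 : aeval x F = eval x F := by
    rw [← coe_aeval_eq_eval]
    rfl
  rw [h2] at h
  exact h.symm

theorem evR_evN (F : Pol s) (x : Fin s → ℕ) : ((evN F x : ℤ) : ℝ) = evR F fun i => (x i : ℝ) := by
  unfold evN
  rw [evR_evZ]
  congr 1

/-- exponent vectors with entries at most `d` -/
noncomputable def mo {d : ℕ} (m : Fin s → Fin (d + 1)) : Fin s →₀ ℕ :=
  Finsupp.equivFunOnFinite.symm fun i => (m i : ℕ)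

theorem mo_inj {d : ℕ} : Function.Injective (mo (s := s) (d := d)) := by
  intro m m' h
  funext i
  have h1 := DFunLike.congr_fun h i
  exact Fin.ext h1

theorem aeval_coeff {K : Type} [CommRing K] {d : ℕ} {F : Pol s} (hF : F.IsHomogeneous d)
    (x : Fin s → K) :
    aeval x F = ∑ m : Fin s → Fin (d + 1), ((coeff (mo m) F : ℤ) : K) * ∏ i, x i ^ (m i : ℕ) := by
  classical
  rw [aeval_def, eval₂_eq']
  have h1 : ∀ m : Fin s → Fin (d + 1), ((coeff (mo m) F : ℤ) : K) * ∏ i, x i ^ (m i : ℕ) =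
      (fun m : Fin s →₀ ℕ => (algebraMap ℤ K) (coeff m F) * ∏ i, x i ^ m i) (mo m) := by
    intro m
    rfl
  simp only [h1]
  rw [← Finset.sum_image (f := fun m : Fin s →₀ ℕ => (algebraMap ℤ K) (coeff m F) * ∏ i, x i ^ m i)
    (g := mo) (s := Finset.univ) (fun a _ b _ h => mo_inj h)]
  refine Finset.sum_subset ?_ ?_
  · intro m hm
    rw [Finset.mem_image]
    have h2 : m.degree = d := by
      have := hF (mem_support_iff.1 hm)
      rwa [Finsupp.degree_eq_weight_one]
    have h3 : ∀ i, m i < d + 1 := fun i => by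
      have : m i ≤ m.degree := Finsupp.le_degree i m
      omega
    refine ⟨fun i => ⟨m i, h3 i⟩, Finset.mem_univ _, ?_⟩
    ext i
    rfl
  · intro m _ hm
    rw [notMem_support_iff.1 hm, map_zero, zero_mul]

theorem evR_coeff {d : ℕ} {F : Pol s} (hF : F.IsHomogeneous d) (x : Fin s → ℝ) :
    evR F x = ∑ m : Fin s → Fin (d + 1), ((coeff (mo m) F : ℤ) : ℝ) * ∏ i, x i ^ (m i : ℕ) :=
  aeval_coeff hF x

theorem mo_deg {d : ℕ} {F : Pol s} (hF : F.IsHomogeneous d) (m : Fin s → Fin (d + 1))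
    (h : coeff (mo m) F ≠ 0) : ∑ i, (m i : ℕ) = d := by
  have h1 : (mo m).degree = d := by
    have := hF h
    rwa [Finsupp.degree_eq_weight_one]
  rw [Finsupp.degree_eq_sum] at h1
  exact h1

theorem evR_smul {d : ℕ} {F : Pol s} (hF : F.IsHomogeneous d) (c : ℝ) (x : Fin s → ℝ) :
    evR F (fun i => c * x i) = c ^ d * evR F x := by
  rw [evR_coeff hF, evR_coeff hF, Finset.mul_sum]
  refine Finset.sum_congr rfl fun m _ => ?_
  by_cases h : coeff (mo m) F = 0
  · rw [h]
    simp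
  · have h1 := mo_deg hF m h
    have h2 : ∏ i, (c * x i) ^ (m i : ℕ) = c ^ d * ∏ i, x i ^ (m i : ℕ) := by
      have h3 : c ^ d = ∏ i, c ^ (m i : ℕ) := by
        rw [Finset.prod_pow_eq_pow_sum, h1]
      rw [h3, ← Finset.prod_mul_distrib]
      exact Finset.prod_congr rfl fun i _ => mul_pow _ _ _
    rw [h2]
    ring

/-- the value of a form at a point of a box -/
theorem ev_bd (d s : ℕ) : ∃ Nm : ℕ, 1 ≤ Nm ∧ ∀ (K : ℕ) (F : Pol s), Cb d K F →
    ∀ (x : Fin s → ℝ) (B : ℝ), 0 ≤ B → (∀ i, |x i| ≤ B) → |evR F x| ≤ Nm * K * B ^ d := by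
  refine ⟨(d + 1) ^ s, Nat.one_le_pow _ _ (by omega), fun K F hF x B hB hx => ?_⟩
  rw [evR_coeff hF.1]
  refine (Finset.abs_sum_le_sum_abs _ _).trans ?_
  have h1 : ∀ m : Fin s → Fin (d + 1),
      |((coeff (mo m) F : ℤ) : ℝ) * ∏ i, x i ^ (m i : ℕ)| ≤ K * B ^ d := by
    intro m
    by_cases h : coeff (mo m) F = 0
    · rw [h]
      simp only [Int.cast_zero, zero_mul, abs_zero]
      positivity
    · rw [abs_mul, Finset.abs_prod]
      have h2 := mo_deg hF.1 m h
      have h3 : |((coeff (mo m) F : ℤ) : ℝ)| ≤ K := by exact_mod_cast hF.2 (mo m)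
      have h4 : ∏ i, |x i ^ (m i : ℕ)| ≤ B ^ d := by
        have h5 : B ^ d = ∏ i, B ^ (m i : ℕ) := by
          rw [Finset.prod_pow_eq_pow_sum, h2]
        rw [h5]
        refine Finset.prod_le_prod (fun i _ => abs_nonneg _) fun i _ => ?_
        rw [abs_pow]
        exact pow_le_pow_left₀ (abs_nonneg _) (hx i) _
      exact mul_le_mul h3 h4 (Finset.prod_nonneg fun i _ => abs_nonneg _) (Nat.cast_nonneg _)
  refine (Finset.sum_le_card_nsmul _ _ _ fun m _ => h1 m).trans (le_of_eq ?_)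
  rw [Finset.card_univ, Fintype.card_fun, Fintype.card_fin, Fintype.card_fin, nsmul_eq_mul]
  push_cast
  ring

private theorem prod_diff {ι : Type} (S : Finset ι) (f g : ι → ℝ) (D : ℝ) (hD : 0 ≤ D)
    (hf : ∀ i ∈ S, |f i| ≤ 1) (hg : ∀ i ∈ S, |g i| ≤ 1) (h : ∀ i ∈ S, |f i - g i| ≤ D) :
    |∏ i ∈ S, f i - ∏ i ∈ S, g i| ≤ S.card * D := by
  classical
  induction S using Finset.induction_on with
  | empty => simp
  | insert a t ha ih =>
    rw [Finset.prod_insert ha, Finset.prod_insert ha, Finset.card_insert_of_notMem ha]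
    have ih' := ih (fun i hi => hf i (Finset.mem_insert_of_mem hi))
      (fun i hi => hg i (Finset.mem_insert_of_mem hi)) (fun i hi => h i (Finset.mem_insert_of_mem hi))
    have e1 : f a * ∏ i ∈ t, f i - g a * ∏ i ∈ t, g i =
        f a * (∏ i ∈ t, f i - ∏ i ∈ t, g i) + (f a - g a) * ∏ i ∈ t, g i := by ring
    rw [e1]
    refine (abs_add_le _ _).trans ?_
    rw [abs_mul, abs_mul]
    have h1 : |∏ i ∈ t, g i| ≤ 1 := by
      rw [Finset.abs_prod]
      exact Finset.prod_le_one (fun i _ => abs_nonneg _)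
        fun i hi => hg i (Finset.mem_insert_of_mem hi)
    have h2 : |f a| * |∏ i ∈ t, f i - ∏ i ∈ t, g i| ≤ 1 * (t.card * D) :=
      mul_le_mul (hf a (Finset.mem_insert_self _ _)) ih' (abs_nonneg _) zero_le_one
    have h3 : |f a - g a| * |∏ i ∈ t, g i| ≤ D * 1 :=
      mul_le_mul (h a (Finset.mem_insert_self _ _)) h1 (abs_nonneg _) hD
    push_cast
    linarith

/-- the Lipschitz constant on the unit box -/
theorem ev_lip (d s : ℕ) : ∃ CL : ℝ, 0 < CL ∧ ∀ (K : ℕ) (F : Pol s), Cb d K F →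
    ∀ (x y : Fin s → ℝ) (δ : ℝ), 0 ≤ δ → (∀ i, |x i| ≤ 1 ∧ |y i| ≤ 1 ∧ |x i - y i| ≤ δ) →
      |evR F x - evR F y| ≤ CL * K * δ := by
  refine ⟨((d : ℝ) + 1) ^ s * (s * d + 1), by positivity, fun K F hF x y δ hδ h => ?_⟩
  rw [evR_coeff hF.1, evR_coeff hF.1, ← Finset.sum_sub_distrib]
  refine (Finset.abs_sum_le_sum_abs _ _).trans ?_
  have hpow : ∀ (k : ℕ) (i : Fin s), |x i ^ k - y i ^ k| ≤ k * δ := by
    intro k i
    have h1 := prod_diff (Finset.range k) (fun _ => x i) (fun _ => y i) δ hδ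
      (fun _ _ => (h i).1) (fun _ _ => (h i).2.1) (fun _ _ => (h i).2.2)
    rwa [Finset.prod_const, Finset.prod_const, Finset.card_range] at h1
  have h1 : ∀ m : Fin s → Fin (d + 1),
      |((coeff (mo m) F : ℤ) : ℝ) * ∏ i, x i ^ (m i : ℕ) -
        ((coeff (mo m) F : ℤ) : ℝ) * ∏ i, y i ^ (m i : ℕ)| ≤ K * (s * (d * δ)) := by
    intro m
    rw [← mul_sub, abs_mul]
    have h3 : |((coeff (mo m) F : ℤ) : ℝ)| ≤ K := by exact_mod_cast hF.2 (mo m)
    have h4 : |∏ i, x i ^ (m i : ℕ) - ∏ i, y i ^ (m i : ℕ)| ≤ s * (d * δ) := by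
      have h5 := prod_diff (Finset.univ : Finset (Fin s)) (fun i => x i ^ (m i : ℕ))
        (fun i => y i ^ (m i : ℕ)) (d * δ) (by positivity)
        (fun i _ => by rw [abs_pow]; exact pow_le_one₀ (abs_nonneg _) (h i).1)
        (fun i _ => by rw [abs_pow]; exact pow_le_one₀ (abs_nonneg _) (h i).2.1)
        (fun i _ => by
          refine (hpow _ i).trans ?_
          have h6 : ((m i : ℕ) : ℝ) ≤ d := by
            exact_mod_cast Nat.lt_succ_iff.1 (m i).2
          exact mul_le_mul_of_nonneg_right h6 hδ)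
      rwa [Finset.card_univ, Fintype.card_fin] at h5
    exact mul_le_mul h3 h4 (abs_nonneg _) (Nat.cast_nonneg _)
  refine (Finset.sum_le_card_nsmul _ _ _ fun m _ => h1 m).trans ?_
  rw [Finset.card_univ, Fintype.card_fun, Fintype.card_fin, Fintype.card_fin, nsmul_eq_mul]
  push_cast
  have h5 : (0 : ℝ) ≤ ((d : ℝ) + 1) ^ s * (K * δ) := by positivity
  nlinarith

theorem evZ_congr (F : Pol s) (x y : Fin s → ℤ) (m : ℤ) (h : ∀ i, x i ≡ y i [ZMOD m]) :
    evZ F x ≡ evZ F y [ZMOD m] := by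
  unfold evZ
  induction F using MvPolynomial.induction_on with
  | C a => rw [eval_C, eval_C]
  | add p q hp hq => rw [map_add, map_add]; exact hp.add hq
  | mul_X p i hp => rw [map_mul, map_mul, eval_X, eval_X]; exact hp.mul (h i)

theorem evZ_fm_congr (d : ℕ) (G : Pol s) (a b x : Fin s → ℤ) (m : ℤ)
    (h : ∀ i, a i ≡ b i [ZMOD m]) : evZ (fm d G a) x ≡ evZ (fm d G b) x [ZMOD m] := by
  rw [evZ_fm, evZ_fm]
  exact (Int.ModEq.refl _).add (Int.ModEq.sum fun i _ => (h i).mul_right _)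

theorem evZ_pderiv_fm_congr (d : ℕ) (G : Pol s) (a b x : Fin s → ℤ) (m : ℤ) (j : Fin s)
    (h : ∀ i, a i ≡ b i [ZMOD m]) :
    evZ (pderiv j (fm d G a)) x ≡ evZ (pderiv j (fm d G b)) x [ZMOD m] := by
  rw [evZ_pderiv_fm, evZ_pderiv_fm]
  exact (Int.ModEq.refl _).add (((h j).mul_left _).mul_right _)

theorem nuF_congr (d W : ℕ) (G : Pol s) (a b : Fin s → ℤ) (h : ∀ i, a i ≡ b i [ZMOD W]) :
    nuF W (fm d G a) = nuF W (fm d G b) := by
  unfold nuF
  congr 2
  refine Finset.filter_congr fun x _ => ?_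
  have h1 := evZ_fm_congr d G a b (fun i => (x i : ℤ)) W h
  unfold evN
  rw [← Int.modEq_zero_iff_dvd, ← Int.modEq_zero_iff_dvd]
  exact ⟨fun h2 => h1.symm.trans h2, fun h2 => h1.trans h2⟩

theorem coeff_twist (σ : Fin s → ℤ) (F : Pol s) (m : Fin s →₀ ℕ) :
    coeff m (twist σ F) = coeff m F * ∏ i, σ i ^ m i := by
  unfold twist
  rw [coeff_sum]
  simp only [coeff_monomial]
  by_cases h : m ∈ F.support
  · rw [Finset.sum_eq_single m]
    · rw [if_pos rfl]
    · intro j _ hj
      rw [if_neg hj]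
    · intro h2
      exact absurd h h2
  · rw [notMem_support_iff.1 h, zero_mul]
    refine Finset.sum_eq_zero fun j hj => if_neg ?_
    intro h2
    exact h (h2 ▸ hj)

theorem aeval_twist {K : Type} [CommRing K] (σ : Fin s → ℤ) (F : Pol s) (z : Fin s → K) :
    aeval z (twist σ F) = aeval (fun i => (σ i : K) * z i) F := by
  unfold twist
  rw [map_sum, aeval_def (fun i => (σ i : K) * z i), eval₂_eq']
  refine Finset.sum_congr rfl fun m _ => ?_
  rw [aeval_monomial, Finsupp.prod_fintype _ _ (fun i => pow_zero _), map_mul, mul_assoc]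
  congr 1
  rw [map_prod, ← Finset.prod_mul_distrib]
  refine Finset.prod_congr rfl fun i _ => ?_
  rw [mul_pow, map_pow]
  simp

theorem evR_twist (σ : Fin s → ℤ) (F : Pol s) (z : Fin s → ℝ) :
    evR (twist σ F) z = evR F fun i => (σ i : ℝ) * z i := aeval_twist σ F z

theorem evZ_aeval (F : Pol s) (x : Fin s → ℤ) : evZ F x = aeval x F := by
  unfold evZ
  rw [← coe_aeval_eq_eval]
  rfl

theorem evZ_twist (σ : Fin s → ℤ) (F : Pol s) (z : Fin s → ℤ) :
    evZ (twist σ F) z = evZ F fun i => σ i * z i := by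
  rw [evZ_aeval, evZ_aeval, aeval_twist]
  rfl

theorem sgn_sq {σ : Fin s → ℤ} (hσ : Sgn σ) (i : Fin s) : σ i * σ i = 1 := by
  rcases hσ i with h | h <;> rw [h] <;> norm_num

theorem sgn_abs {σ : Fin s → ℤ} (hσ : Sgn σ) (i : Fin s) : |σ i| = 1 := by
  rcases hσ i with h | h <;> rw [h] <;> norm_num

theorem Cb_twist {d K : ℕ} {σ : Fin s → ℤ} (hσ : Sgn σ) {F : Pol s} (hF : Cb d K F) :
    Cb d K (twist σ F) := by
  refine ⟨?_, fun m => ?_⟩
  · intro m hm
    rw [coeff_twist] at hm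
    exact hF.1 (left_ne_zero_of_mul hm)
  · rw [coeff_twist, abs_mul, Finset.abs_prod]
    have h1 : ∏ i, |σ i ^ m i| = 1 := Finset.prod_eq_one fun i _ => by
      rw [abs_pow, sgn_abs hσ, one_pow]
    rw [h1, mul_one]
    exact hF.2 m

theorem twist_fm (d : ℕ) (σ : Fin s → ℤ) (G : Pol s) (a : Fin s → ℤ) :
    twist σ (fm d G a) = fm d (twist σ G) fun i => σ i ^ d * a i := by
  ext m
  rw [coeff_twist]
  unfold fm
  rw [coeff_add, coeff_add, coeff_twist, add_mul]
  congr 1
  rw [coeff_sum, coeff_sum, Finset.sum_mul]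
  refine Finset.sum_congr rfl fun j _ => ?_
  rw [coeff_C_mul, coeff_C_mul, coeff_X_pow]
  split_ifs with h
  · rw [← h]
    have h1 : ∏ i, σ i ^ (Finsupp.single j d) i = σ j ^ d := by
      rw [Finset.prod_eq_single j]
      · rw [Finsupp.single_eq_same]
      · intro i _ hi
        rw [Finsupp.single_eq_of_ne hi, pow_zero]
      · intro h
        exact absurd (Finset.mem_univ j) h
    rw [h1]
    ring
  · ring

theorem nuF_twist (W : ℕ) {σ : Fin s → ℤ} (hσ : Sgn σ) (F : Pol s) :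
    nuF W (twist σ F) = nuF W F := by
  classical
  rcases Nat.eq_zero_or_pos W with hW | hW
  · subst hW
    unfold nuF
    rcases Nat.eq_zero_or_pos s with hs | hs
    · subst hs
      congr 2
      refine Finset.filter_congr fun x _ => ?_
      unfold evN
      rw [evZ_twist]
      have : (fun i => σ i * (x i : ℤ)) = fun i => (x i : ℤ) := by
        funext i
        exact i.elim0
      rw [this]
    · have h1 : (Fintype.piFinset fun _ : Fin s => range 0) = ∅ := by
        rw [Finset.eq_empty_iff_forall_notMem]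
        intro x hx
        have := Fintype.mem_piFinset.1 hx ⟨0, hs⟩
        simp at this
      rw [h1]
      simp
  have hW0 : (0 : ℤ) < W := by exact_mod_cast hW
  -- the inequality for all forms
  have key : ∀ F' : Pol s, nuF W (twist σ F') ≤ nuF W F' := by
    intro F'
    unfold nuF
    rw [Nat.cast_le]
    have hr : ∀ (x : Fin s → ℕ) (i : Fin s), ((((σ i * x i) % W : ℤ)).toNat : ℤ) = (σ i * x i) % W :=
      fun x i => Int.toNat_of_nonneg (Int.emod_nonneg _ hW0.ne')
    refine Finset.card_le_card_of_injOn (fun x i => ((σ i * x i) % W : ℤ).toNat) ?_ ?_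
    · intro x hx
      rw [Finset.mem_coe, Finset.mem_filter, Fintype.mem_piFinset] at hx
      rw [Finset.mem_coe, Finset.mem_filter, Fintype.mem_piFinset]
      refine ⟨fun i => ?_, ?_⟩
      · rw [Finset.mem_range]
        have h1 := Int.emod_lt_of_pos (σ i * x i) hW0
        rw [← hr x i] at h1
        exact_mod_cast h1
      · have h1 : evZ (twist σ F') (fun i => (x i : ℤ)) = evZ F' fun i => σ i * (x i : ℤ) :=
          evZ_twist σ F' _
        have h2 : evN F' (fun i => ((σ i * x i) % W : ℤ).toNat) ≡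
            evZ F' (fun i => σ i * (x i : ℤ)) [ZMOD W] := by
          unfold evN
          refine evZ_congr F' _ _ _ fun i => ?_
          rw [hr x i]
          exact Int.mod_modEq _ _
        rw [← h1] at h2
        exact Int.modEq_zero_iff_dvd.1 (h2.trans (Int.modEq_zero_iff_dvd.2 hx.2))
    · intro x hx y hy hxy
      rw [Finset.mem_coe, Finset.mem_filter, Fintype.mem_piFinset] at hx hy
      funext i
      have h1 : ((σ i * x i) % W : ℤ).toNat = ((σ i * y i) % W : ℤ).toNat := congrFun hxy i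
      have h2 : (σ i * x i) % (W : ℤ) = (σ i * y i) % W := by
        rw [← hr x i, ← hr y i, h1]
      have h3 : (x i : ℤ) % W = (y i : ℤ) % W := by
        have h4 : σ i * (σ i * x i) ≡ σ i * (σ i * y i) [ZMOD W] := Int.ModEq.mul_left _ h2
        rw [← mul_assoc, ← mul_assoc, sgn_sq hσ, one_mul, one_mul] at h4
        exact h4
      have h5 := Finset.mem_range.1 (hx.1 i)
      have h6 := Finset.mem_range.1 (hy.1 i)
      rw [Int.emod_eq_of_lt (by positivity) (by exact_mod_cast h5),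
        Int.emod_eq_of_lt (by positivity) (by exact_mod_cast h6)] at h3
      exact_mod_cast h3
  refine le_antisymm (key F) ?_
  have h1 : twist σ (twist σ F) = F := by
    ext m
    rw [coeff_twist, coeff_twist, mul_assoc, ← Finset.prod_mul_distrib]
    have : ∏ i, σ i ^ m i * σ i ^ m i = 1 := Finset.prod_eq_one fun i _ => by
      rw [← mul_pow, sgn_sq hσ, one_pow]
    rw [this, mul_one]
  have h2 := key (twist σ F)
  rwa [h1] at h2

theorem smallF_twist (e H : ℕ) {σ : Fin s → ℤ} (hσ : Sgn σ) (F : Pol s) :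
    SmallF e H (twist σ F) ↔ SmallF e H F := by
  have hne : ∀ x : Fin s → ℤ, x ≠ 0 → (fun i => σ i * x i) ≠ 0 := by
    intro x hx h
    apply hx
    funext i
    have h1 := congrFun h i
    have h2 : σ i * (σ i * x i) = 0 := by
      have : σ i * x i = 0 := h1
      rw [this, mul_zero]
    rw [← mul_assoc, sgn_sq hσ, one_mul] at h2
    exact h2
  constructor
  · rintro ⟨x, hx, hx1, hx2⟩
    refine ⟨fun i => σ i * x i, hne x hx, ?_, fun i => ?_⟩
    · rw [← evZ_twist]
      exact hx1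
    · rw [abs_mul, sgn_abs hσ, one_mul]
      exact hx2 i
  · rintro ⟨x, hx, hx1, hx2⟩
    refine ⟨fun i => σ i * x i, hne x hx, ?_, fun i => ?_⟩
    · rw [evZ_twist]
      have : (fun i => σ i * (σ i * x i)) = x := by
        funext i
        rw [← mul_assoc, sgn_sq hσ, one_mul]
      rw [this]
      exact hx1
    · rw [abs_mul, sgn_abs hσ, one_mul]
      exact hx2 i

theorem mem_box (s H : ℕ) (a : Fin s → ℤ) : a ∈ box s H ↔ ∀ i, |a i| ≤ (H : ℤ) := by
  unfold DG.box
  rw [Fintype.mem_piFinset]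
  refine forall_congr' fun i => ?_
  rw [Finset.mem_Icc, abs_le]

end Pool.Agent.Lib.MP_e426f4_ag.DP
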