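import Mathlib
import Pool.Agent.Lib.MP_e426f4_ag.DG.Defs
import Pool.Agent.Lib.MP_e426f4_ag.DH.Defs
import Pool.Agent.Lib.MP_e426f4_ag.DK.Defs
import Pool.Agent.Lib.MP_e426f4_ag.DL.Defs

/-!
# Random members of the cosets `G + ∑ a_i x_i ^ d`: definitions

General notation (`FF`, `wt`, `wh`, `psi`, `box`, `rhsG`, `Su`, ...) is that of `DG.Defs`, `DH.Defs`, `DK.Defs`.
`G` is a form of degree `d` in `s` variables with integral coefficients, `F = G + ∑ a_i x_i ^ d = fm d G a`.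
-/

set_option autoImplicit false

namespace Pool.Agent.Lib.MP_e426f4_ag.DP

open Finset MvPolynomial
open Pool.Agent.Lib.MP_e426f4_ag.DG (FF FZ wt wh psi Mixed box)
open Pool.Agent.Lib.MP_e426f4_ag.DH (rhsG)
open Pool.Agent.Lib.MP_e426f4_ag.DK (Su)

/-- integral polynomials in `s` variables -/
abbrev Pol (s : ℕ) : Type := MvPolynomial (Fin s) ℤ

/-- the form `G + ∑ a_i x_i ^ d` -/
noncomputable def fm {s : ℕ} (d : ℕ) (G : Pol s) (a : Fin s → ℤ) : Pol s :=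
  G + ∑ i, C (a i) * X i ^ d

/-- homogeneous of degree `d` with coefficients of absolute value at most `K` -/
def Cb {s : ℕ} (d K : ℕ) (F : Pol s) : Prop := F.IsHomogeneous d ∧ ∀ m, |coeff m F| ≤ (K : ℤ)

/-- the value at an integral point -/
noncomputable def evZ {s : ℕ} (F : Pol s) (x : Fin s → ℤ) : ℤ := eval x F

/-- the value at a point with coordinates in `ℕ` -/
noncomputable def evN {s : ℕ} (F : Pol s) (x : Fin s → ℕ) : ℤ := evZ F fun i => (x i : ℤ)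

/-- the value at a real point -/
noncomputable def evR {s : ℕ} (F : Pol s) (x : Fin s → ℝ) : ℝ := aeval x F

/-- a non-trivial zero over `K` -/
def Zer {s : ℕ} (K : Type) [Field K] (F : Pol s) : Prop :=
  ∃ x : Fin s → K, x ≠ 0 ∧ aeval x F = 0

/-- a non-trivial integral zero with `|x_i| ^ e ≤ H` -/
def SmallF {s : ℕ} (e H : ℕ) (F : Pol s) : Prop :=
  ∃ x : Fin s → ℤ, x ≠ 0 ∧ evZ F x = 0 ∧ ∀ i, |x i| ^ e ≤ (H : ℤ)

/-- the number of zeros modulo `W` -/
noncomputable def nuF {s : ℕ} (W : ℕ) (F : Pol s) : ℝ :=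
  (((Fintype.piFinset fun _ : Fin s => range W).filter fun x : Fin s → ℕ =>
    (W : ℤ) ∣ evN F x).card : ℝ)

/-- the number of non-singular zeros modulo `p` -/
noncomputable def nsz {s : ℕ} (p : ℕ) (F : Pol s) : ℝ :=
  (((Fintype.piFinset fun _ : Fin s => range p).filter fun x : Fin s → ℕ =>
    (p : ℤ) ∣ evN F x ∧ ∃ i, ¬ (p : ℤ) ∣ evN (pderiv i F) x).card : ℝ)

/-- the number of points modulo `p` at which all the partial derivatives vanish -/
noncomputable def sgz {s : ℕ} (p : ℕ) (F : Pol s) : ℝ :=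
  (((Fintype.piFinset fun _ : Fin s => range p).filter fun x : Fin s → ℕ =>
    ∀ i, (p : ℤ) ∣ evN (pderiv i F) x).card : ℝ)

/-- `F` changes its sign along one coordinate direction inside `[eta, 1] ^ s`, with values of absolute
value at least `eta H` -/
def PosR {s : ℕ} (eta : ℝ) (H : ℕ) (F : Pol s) : Prop :=
  ∃ (j : Fin s) (z z' : Fin s → ℝ), (∀ i, eta ≤ z i ∧ z i ≤ 1) ∧ (∀ i, eta ≤ z' i ∧ z' i ≤ 1) ∧
    (∀ i, i ≠ j → z i = z' i) ∧ evR F z ≤ -(eta * H) ∧ eta * H ≤ evR F z'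

/-- a solution modulo `p ^ (2 k + 1)` to which the lemma of Hensel applies -/
def GoodP {s : ℕ} (p k : ℕ) (F : Pol s) : Prop :=
  ∃ x : Fin s → ℤ, (p : ℤ) ^ (2 * k + 1) ∣ evZ F x ∧ ∃ i, ¬ (p : ℤ) ^ (k + 1) ∣ evZ (pderiv i F) x

/-- the form `F (σ x)` -/
noncomputable def twist {s : ℕ} (σ : Fin s → ℤ) (F : Pol s) : Pol s :=
  ∑ m ∈ F.support, monomial m (coeff m F * ∏ i, σ i ^ m i)

/-- signs -/
def Sgn {s : ℕ} (σ : Fin s → ℤ) : Prop := ∀ i, σ i = 1 ∨ σ i = -1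

/-- no common non-zero complex zero of the partial derivatives -/
def SmoothF {s : ℕ} (F : Pol s) : Prop := ∀ x : Fin s → ℂ, x ≠ 0 → ∃ i, aeval x (pderiv i F) ≠ 0

/-- the member `G + ∑ c_m m` of the family with the monomials `M` -/
noncomputable def fmM {s : ℕ} {M : Finset (Fin s →₀ ℕ)} (G : Pol s) (c : M → ℤ) : Pol s :=
  G + ∑ m : M, monomial (m : Fin s →₀ ℕ) (c m)

/-- number of `x` in the box with `∑ a_i x_i ^ d + g x = v` in `ZMod P` -/
noncomputable def NNg (P : ℕ) [NeZero P] {s : ℕ} (d : ℕ) (X : Fin s → Finset ℕ)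
    (g : (Fin s → ℕ) → ZMod P) (a : Fin s → ZMod P) (v : ZMod P) : ℝ :=
  (((Fintype.piFinset X).filter fun x : Fin s → ℕ =>
    ∑ i, a i * (x i : ZMod P) ^ d + g x = v).card : ℝ)

noncomputable def Mavgg (P : ℕ) [NeZero P] {s : ℕ} (d W J : ℕ) (X : Fin s → Finset ℕ)
    (g : (Fin s → ℕ) → ZMod P) (a : Fin s → ZMod P) : ℝ :=
  (∑ j ∈ Icc (-(J : ℤ)) J, NNg P d X g a (((W : ℤ) * j : ℤ) : ZMod P)) / (2 * J + 1)

/-- the function `x ↦ G x` modulo `P` -/
noncomputable def gP (P : ℕ) {s : ℕ} (G : Pol s) : (Fin s → ℕ) → ZMod P := fun x =>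
  ((evN G x : ℤ) : ZMod P)

/-- the conditions on the exponents in the analytic part -/
structure Par (d s u l e e' : ℕ) : Prop where
  hd : 4 ≤ d
  hs : d + 4 ≤ s
  hle : (d + 1) * (e + 1) + 1 ≤ d * l
  hlu : l ≤ u
  hul : u ≤ d * l
  hC : DL.CL d s u l e
  he' : u * e' ≤ d * l
  he'd : e' ≤ d

end Pool.Agent.Lib.MP_e426f4_ag.DP
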