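import Pool.Agent.Lib.MP_e426f4_ag.DP.Basic

/-!
# FamSplit: splitting off the pure powers

`R = M \ {x_i^d}`, `Gr b = G + ∑_{r ∈ R} b_r r`, `sp c = (c restricted to R, i ↦ c (single i d))`.  `g0` = maximum of the `|coeff m G|`
(finite support), `single i d` are distinct as `d ≥ 1`.
-/

set_option autoImplicit false

namespace Pool.Agent.Lib.MP_e426f4_ag.DP

open Finset MvPolynomial Filter
open Pool.Agent.Lib.MP_e426f4_ag.DG (box)

/-- splitting off the pure powers -/
theorem fmM_split (d s : ℕ) (hd : 1 ≤ d) (M : Finset (Fin s →₀ ℕ))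
    (hM : ∀ m ∈ M, m.degree = d) (hM' : ∀ i, Finsupp.single i d ∈ M) (G : Pol s)
    (hG : G.IsHomogeneous d) :
    ∃ (R : Finset (Fin s →₀ ℕ)) (Gr : (R → ℤ) → Pol s) (sp : (M → ℤ) ≃ (R → ℤ) × (Fin s → ℤ)),
      M.card = R.card + s ∧ (∀ b, (Gr b).IsHomogeneous d) ∧
      (∀ c, fmM G c = fm d (Gr (sp c).1) (sp c).2) ∧
      (∀ (c : M → ℤ) (H : ℤ), (∀ m, |c m| ≤ H) ↔ (∀ r, |(sp c).1 r| ≤ H) ∧ ∀ i, |(sp c).2 i| ≤ H) ∧
      ∃ g0 : ℕ, ∀ (b : R → ℤ) (H : ℤ), 0 ≤ H → (∀ r, |b r| ≤ H) → ∀ m, |coeff m (Gr b)| ≤ g0 + H := by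
  classical
  have hinj : Function.Injective fun i : Fin s => Finsupp.single i d := by
    intro i j h
    exact Finsupp.single_left_injective (by omega) h
  have hDM : univ.image (fun i : Fin s => Finsupp.single i d) ⊆ M := by
    intro m hm
    obtain ⟨i, _, rfl⟩ := mem_image.1 hm
    exact hM' i
  set R : Finset (Fin s →₀ ℕ) := M \ univ.image (fun i : Fin s => Finsupp.single i d) with hR
  have hRM : ∀ r ∈ R, r ∈ M := fun r hr => (mem_sdiff.1 hr).1
  have hRi : ∀ r ∈ R, ∀ i, r ≠ Finsupp.single i d := by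
    intro r hr i h
    exact (mem_sdiff.1 hr).2 (mem_image.2 ⟨i, mem_univ i, h.symm⟩)
  let e0 : R ⊕ Fin s → M := Sum.elim (fun r => ⟨r.1, hRM r.1 r.2⟩)
    (fun i => ⟨Finsupp.single i d, hM' i⟩)
  have he0 : Function.Bijective e0 := by
    constructor
    · rintro (r | i) (r' | i') h
      · have h1 : (e0 (Sum.inl r)).1 = (e0 (Sum.inl r')).1 := by rw [h]
        exact congrArg Sum.inl (Subtype.ext h1)
      · have h1 : r.1 = Finsupp.single i' d := congrArg Subtype.val h
        exact absurd h1 (hRi r.1 r.2 i')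
      · have h1 : Finsupp.single i d = r'.1 := congrArg Subtype.val h
        exact absurd h1.symm (hRi r'.1 r'.2 i)
      · have h1 : Finsupp.single i d = Finsupp.single i' d := congrArg Subtype.val h
        exact congrArg Sum.inr (hinj h1)
    · rintro ⟨m, hm⟩
      by_cases h : m ∈ R
      · exact ⟨Sum.inl ⟨m, h⟩, rfl⟩
      · have h1 : m ∈ univ.image (fun i : Fin s => Finsupp.single i d) := by
          by_contra h2
          exact h (mem_sdiff.2 ⟨hm, h2⟩)
        obtain ⟨i, _, hi⟩ := mem_image.1 h1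
        exact ⟨Sum.inr i, Subtype.ext hi⟩
  let e : R ⊕ Fin s ≃ M := Equiv.ofBijective e0 he0
  refine ⟨R, fun b => G + ∑ r : R, monomial (r : Fin s →₀ ℕ) (b r),
    (Equiv.arrowCongr e.symm (Equiv.refl ℤ)).trans (Equiv.sumArrowEquivProdArrow R (Fin s) ℤ),
    ?_, ?_, ?_, ?_, ∑ m ∈ G.support, (coeff m G).natAbs, ?_⟩
  · have h1 := card_sdiff_add_card_eq_card hDM
    rw [card_image_of_injective _ hinj, card_univ, Fintype.card_fin] at h1
    exact h1.symm
  · intro b
    refine hG.add (IsHomogeneous.sum _ _ _ fun r _ => isHomogeneous_monomial _ ?_)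
    exact hM r.1 (hRM r.1 r.2)
  · intro c
    show G + ∑ m : M, monomial (m : Fin s →₀ ℕ) (c m) =
      (G + ∑ r : R, monomial (r : Fin s →₀ ℕ) (c (e (Sum.inl r)))) +
        ∑ i, C (c (e (Sum.inr i))) * X i ^ d
    rw [← Equiv.sum_comp e, Fintype.sum_sum_type, add_assoc]
    congr 2
    refine sum_congr rfl fun i _ => ?_
    rw [C_mul_X_pow_eq_monomial]
    rfl
  · intro c H
    constructor
    · intro h
      exact ⟨fun r => h (e (Sum.inl r)), fun i => h (e (Sum.inr i))⟩
    · rintro ⟨h1, h2⟩ m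
      obtain ⟨t, rfl⟩ := e.surjective m
      rcases t with r | i
      · exact h1 r
      · exact h2 i
  · intro b H hH hb m
    have h1 : |coeff m G| ≤ ((∑ m ∈ G.support, (coeff m G).natAbs : ℕ) : ℤ) := by
      by_cases hm : m ∈ G.support
      · rw [Int.abs_eq_natAbs]
        exact_mod_cast single_le_sum (f := fun m => (coeff m G).natAbs)
          (fun _ _ => Nat.zero_le _) hm
      · rw [notMem_support_iff.1 hm, abs_zero]
        exact Int.natCast_nonneg _
    have h2 : |coeff m (∑ r : R, monomial (r : Fin s →₀ ℕ) (b r))| ≤ H := by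
      rw [coeff_sum]
      simp only [coeff_monomial]
      by_cases hm : m ∈ R
      · rw [sum_eq_single ⟨m, hm⟩ (fun r _ hr => ?_) (fun h => absurd (mem_univ _) h), if_pos rfl]
        · exact hb _
        · rw [if_neg]
          intro h
          exact hr (Subtype.ext h)
      · rw [sum_eq_zero fun r _ => ?_, abs_zero]
        · exact hH
        · rw [if_neg]
          intro h
          exact hm (h ▸ r.2)
    rw [coeff_add]
    exact (abs_add_le _ _).trans (add_le_add h1 h2)

end Pool.Agent.Lib.MP_e426f4_ag.DP
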