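import Pool.Agent.Lib.MP_e426f4_ag.DP.Uni
import Pool.Agent.Lib.MP_e426f4_ag.DP.FamSplit

/-!
# FamBad: few members of the family are everywhere locally soluble without a small zero

`fmM_split`; for every `b : R → ℤ` with `|b| ≤ H` and `H ≥ g0` the form `Gr b` satisfies `Cb d (2 H)`, so `uni` bounds the number of
the second components by `eps H^s`; there are `(2H+1)^|R|` such `b`.
-/

set_option autoImplicit false

namespace Pool.Agent.Lib.MP_e426f4_ag.DP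

open Finset MvPolynomial Filter
open Pool.Agent.Lib.MP_e426f4_ag.DG (box)

theorem fam_bad (d s u l e e' : ℕ) (hP : Par d s u l e e') (M : Finset (Fin s →₀ ℕ))
    (hM : ∀ m ∈ M, m.degree = d) (hM' : ∀ i, Finsupp.single i d ∈ M) (G : Pol s)
    (hG : G.IsHomogeneous d) (eps : ℝ) (heps : 0 < eps) : ∀ᶠ H : ℕ in atTop,
      (Set.ncard {c : M → ℤ | (∀ m, |c m| ≤ H) ∧ Zer ℝ (fmM G c) ∧
        (∀ (p : ℕ) [Fact p.Prime], Zer ℚ_[p] (fmM G c)) ∧ ¬ SmallF e' H (fmM G c)} : ℝ) ≤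
        eps * (2 * H + 1) ^ M.card := by
  classical
  have hd := hP.hd
  obtain ⟨R, Gr, sp, hcard, hhom, hfm, hbd, g0, hg0⟩ := fmM_split d s (by omega) M hM hM' G hG
  obtain ⟨H0, hH0⟩ := uni d s u l e e' hP eps heps
  filter_upwards [eventually_ge_atTop (max H0 g0)] with H hH
  have hH1 : H0 ≤ H := (le_max_left _ _).trans hH
  have hH2 : g0 ≤ H := (le_max_right _ _).trans hH
  obtain ⟨T, hT⟩ : ∃ T : Finset (R → ℤ), T = Fintype.piFinset fun _ => Icc (-(H : ℤ)) H := ⟨_, rfl⟩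
  have hT1 : ∀ b, b ∈ T ↔ ∀ r, |b r| ≤ (H : ℤ) := by
    intro b
    rw [hT, Fintype.mem_piFinset]
    simp only [mem_Icc, abs_le]
  have hT2 : (T.card : ℝ) = (2 * (H : ℝ) + 1) ^ R.card := by
    have h1 : (Icc (-(H : ℤ)) H).card = 2 * H + 1 := by
      rw [Int.card_Icc]
      omega
    rw [hT, Fintype.card_piFinset, prod_const, card_univ, Fintype.card_coe, h1]
    push_cast
    rfl
  obtain ⟨E, hE⟩ : ∃ E : (R → ℤ) → Finset (Fin s → ℤ), E = fun b =>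
      (box s H).filter fun a : Fin s → ℤ => Zer ℝ (fm d (Gr b) a) ∧
        (∀ (p : ℕ) [Fact p.Prime], Zer ℚ_[p] (fm d (Gr b) a)) ∧
        ¬ SmallF e' H (fm d (Gr b) a) := ⟨_, rfl⟩
  have hEc : ∀ b ∈ T, ((E b).card : ℝ) ≤ eps * (H : ℝ) ^ s := by
    intro b hb
    have h1 : Cb d (2 * H) (Gr b) := by
      refine ⟨hhom b, fun m => (hg0 b H (Int.natCast_nonneg _) ((hT1 b).1 hb) m).trans ?_⟩
      push_cast
      have h2 : (g0 : ℤ) ≤ H := by exact_mod_cast hH2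
      linarith
    have h3 := hH0 H hH1 (Gr b) h1
    rw [hE]
    refine le_trans (le_of_eq ?_) h3
    congr!
  have hsub : {c : M → ℤ | (∀ m, |c m| ≤ H) ∧ Zer ℝ (fmM G c) ∧
      (∀ (p : ℕ) [Fact p.Prime], Zer ℚ_[p] (fmM G c)) ∧ ¬ SmallF e' H (fmM G c)} ⊆
      ((T.biUnion fun b => (E b).image fun a => sp.symm (b, a) : Finset (M → ℤ)) :
        Set (M → ℤ)) := by
    rintro c ⟨h1, h2, h3, h4⟩
    have h5 := (hbd c H).1 h1
    rw [hfm c] at h2 h4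
    have h6 : ∀ (p : ℕ) [Fact p.Prime], Zer ℚ_[p] (fm d (Gr (sp c).1) (sp c).2) := by
      intro p hp
      have h7 := h3 p
      rwa [hfm c] at h7
    refine mem_coe.2 (mem_biUnion.2 ⟨(sp c).1, (hT1 _).2 h5.1, mem_image.2 ⟨(sp c).2, ?_, ?_⟩⟩)
    · rw [hE]
      exact mem_filter.2 ⟨(mem_box s H _).2 h5.2, h2, h6, h4⟩
    · exact sp.symm_apply_apply c
  have h1 : (Set.ncard {c : M → ℤ | (∀ m, |c m| ≤ H) ∧ Zer ℝ (fmM G c) ∧
      (∀ (p : ℕ) [Fact p.Prime], Zer ℚ_[p] (fmM G c)) ∧ ¬ SmallF e' H (fmM G c)} : ℝ) ≤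
      ∑ b ∈ T, ((E b).card : ℝ) := by
    have h2 := Set.ncard_le_ncard hsub (finite_toSet _)
    rw [Set.ncard_coe_finset] at h2
    have h3 : ∑ b ∈ T, ((E b).image fun a => sp.symm (b, a)).card ≤ ∑ b ∈ T, (E b).card :=
      sum_le_sum fun b _ => card_image_le
    exact_mod_cast h2.trans (card_biUnion_le.trans h3)
  have h2 : ∑ b ∈ T, ((E b).card : ℝ) ≤ T.card • (eps * (H : ℝ) ^ s) :=
    sum_le_card_nsmul _ _ _ hEc
  rw [nsmul_eq_mul, hT2] at h2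
  refine h1.trans (h2.trans ?_)
  rw [hcard, pow_add]
  have h3 : (H : ℝ) ^ s ≤ (2 * (H : ℝ) + 1) ^ s := by
    refine pow_le_pow_left₀ (Nat.cast_nonneg _) ?_ s
    have h4 : (0 : ℝ) ≤ H := Nat.cast_nonneg _
    linarith
  have h5 : (0 : ℝ) ≤ (2 * (H : ℝ) + 1) ^ R.card := by positivity
  calc (2 * (H : ℝ) + 1) ^ R.card * (eps * (H : ℝ) ^ s)
      = eps * ((2 * (H : ℝ) + 1) ^ R.card * (H : ℝ) ^ s) := by ring
    _ ≤ eps * ((2 * (H : ℝ) + 1) ^ R.card * (2 * (H : ℝ) + 1) ^ s) :=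
        mul_le_mul_of_nonneg_left (mul_le_mul_of_nonneg_left h3 h5) heps.le

end Pool.Agent.Lib.MP_e426f4_ag.DP
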