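import Pool.Agent.Lib.MP_e426f4_ag.DP.Basic

/-!
# NuSmallG: zeros modulo `p^e` near a good point (compare `DG/NuSmall.lean`, `M/HensZeros.lean`, `P/Hens.lean`)

Let `x`, `i` be as in `GoodP`, `K = 2 k + 1`.  For `e ≤ K` there is at least one zero and the left-hand side is `≤ 1`.  For `e > K`: for all
`y_j`, `j ≠ i`, with `y_j ≡ x_j mod p^K` the polynomial in one variable `f(T) = F(y, T) ∈ ℤ_p[T]` satisfies
`p^K ∣ f(x_i)`, `p^(k+1) ∤ f'(x_i)`, so `‖f(x_i)‖ < ‖f'(x_i)‖²` and `hensels_lemma` gives a zero in `ℤ_p`; reduce it modulo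
`p^e`.  There are `p^((e - K)(s - 1))` choices of the `y_j ∈ range (p^e)`.
-/

set_option autoImplicit false

namespace Pool.Agent.Lib.MP_e426f4_ag.DP

open Finset MvPolynomial
open Pool.Agent.Lib.MP_e426f4_ag.DG (box)

/-- the substitution that leaves one variable free -/
private noncomputable def onev {s : ℕ} (i0 : Fin s) (y : Fin s → ℤ) : Fin s → Polynomial ℤ :=
  fun j => if j = i0 then Polynomial.X else Polynomial.C (y j)

private lemma aeval_onev {s : ℕ} {R : Type} [CommRing R] (i0 : Fin s) (y : Fin s → ℤ) (F : Pol s)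
    (z : R) : Polynomial.aeval z (aeval (onev i0 y) F) =
      aeval (fun j => if j = i0 then z else (y j : R)) F := by
  have h := MvPolynomial.comp_aeval_apply (f := onev i0 y) (Polynomial.aeval z (R := ℤ)) F
  rw [h]
  congr 2
  funext j
  unfold onev
  split_ifs
  · simp
  · simp

private lemma derivative_onev {s : ℕ} (i0 : Fin s) (y : Fin s → ℤ) (F : Pol s) :
    Polynomial.derivative (aeval (onev i0 y) F) = aeval (onev i0 y) (pderiv i0 F) := by
  induction F using MvPolynomial.induction_on with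
  | C a => simp
  | add p q hp hq => simp only [map_add, hp, hq]
  | mul_X p n hp =>
    rw [map_mul, Polynomial.derivative_mul, hp, pderiv_mul, map_add, map_mul, map_mul, aeval_X]
    congr 2
    rw [pderiv_X]
    unfold onev
    by_cases hn : n = i0
    · subst hn
      simp
    · rw [if_neg hn, Pi.single_eq_of_ne hn]
      simp

private lemma cast_evZ {s : ℕ} {R : Type} [CommRing R] (F : Pol s) (x : Fin s → ℤ) :
    ((evZ F x : ℤ) : R) = aeval (fun i => (x i : R)) F := by
  unfold evZ
  have h := MvPolynomial.comp_aeval_apply (f := x) (Algebra.ofId ℤ R) F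
  rw [show (aeval x) F = eval x F from rfl] at h
  simpa [Algebra.ofId_apply] using h

private lemma root_modG {s : ℕ} (p k e : ℕ) [Fact p.Prime] (F : Pol s)
    (x : Fin s → ℤ) (i0 : Fin s) (hx : (p : ℤ) ^ (2 * k + 1) ∣ evZ F x)
    (hd : ¬ (p : ℤ) ^ (k + 1) ∣ evZ (pderiv i0 F) x) (y : Fin s → ℕ)
    (hy : ∀ j, j ≠ i0 → (y j : ℤ) ≡ x j [ZMOD (p : ℤ) ^ (2 * k + 1)]) :
    ∃ w : ℕ, w < p ^ e ∧
      (p : ℤ) ^ e ∣ evN F (fun j => if j = i0 then w else y j) := by
  have hp1 : (1 : ℝ) < p := by exact_mod_cast (Fact.out : p.Prime).one_lt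
  have hp0 : (0 : ℝ) < p := by linarith
  set f : Polynomial ℤ := aeval (onev i0 fun j => (y j : ℤ)) F with hf
  have hcong : ∀ j, (fun j => if j = i0 then x i0 else (y j : ℤ)) j ≡ x j
      [ZMOD (p : ℤ) ^ (2 * k + 1)] := by
    intro j
    by_cases hj : j = i0
    · subst hj
      simp only [if_true]
      exact Int.ModEq.refl _
    · simp only [if_neg hj]
      exact hy j hj
  have hval : f.aeval (x i0 : ℤ_[p]) =
      ((evZ F (fun j => if j = i0 then x i0 else (y j : ℤ)) : ℤ) : ℤ_[p]) := by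
    rw [hf, aeval_onev, cast_evZ]
    congr 2
    funext j
    split_ifs <;> rfl
  have hder : f.derivative.aeval (x i0 : ℤ_[p]) =
      ((evZ (pderiv i0 F) (fun j => if j = i0 then x i0 else (y j : ℤ)) : ℤ) : ℤ_[p]) := by
    rw [hf, derivative_onev, aeval_onev, cast_evZ]
    congr 2
    funext j
    split_ifs <;> rfl
  have hnorm1 : ‖f.aeval (x i0 : ℤ_[p])‖ ≤ (p : ℝ) ^ (-((2 * k + 1 : ℕ) : ℤ)) := by
    rw [hval, PadicInt.norm_int_le_pow_iff_dvd]
    have h1 := evZ_congr F _ x _ hcong
    exact (Int.ModEq.dvd_iff h1).mpr (by exact_mod_cast hx)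
  have hdn : (p : ℝ) ^ (-(k : ℤ)) ≤ ‖f.derivative.aeval (x i0 : ℤ_[p])‖ := by
    by_contra hcon
    push Not at hcon
    apply hd
    have h1 := evZ_congr (pderiv i0 F) _ x _ hcong
    have h2 : (p : ℤ) ^ (k + 1) ∣ (p : ℤ) ^ (2 * k + 1) := pow_dvd_pow _ (by omega)
    rw [← Int.ModEq.dvd_iff (h1.of_dvd h2)]
    have h3 : ‖((evZ (pderiv i0 F) (fun j => if j = i0 then x i0 else (y j : ℤ)) : ℤ) : ℤ_[p])‖ ≤
        (p : ℝ) ^ (-((k + 1 : ℕ) : ℤ)) := by
      rw [PadicInt.norm_le_pow_iff_norm_lt_pow_add_one, ← hder]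
      have : (-((k + 1 : ℕ) : ℤ) + 1) = -(k : ℤ) := by push_cast; ring
      rw [this]
      exact hcon
    rw [PadicInt.norm_int_le_pow_iff_dvd] at h3
    exact_mod_cast h3
  have hlt : ‖f.aeval (x i0 : ℤ_[p])‖ < ‖f.derivative.aeval (x i0 : ℤ_[p])‖ ^ 2 := by
    refine lt_of_le_of_lt hnorm1 ?_
    calc (p : ℝ) ^ (-((2 * k + 1 : ℕ) : ℤ)) < ((p : ℝ) ^ (-(k : ℤ))) ^ 2 := by
          rw [← zpow_natCast, ← zpow_mul]
          apply zpow_lt_zpow_right₀ hp1
          push_cast
          linarith
      _ ≤ _ := by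
          apply pow_le_pow_left₀ (by positivity) hdn
  obtain ⟨z, hz, -⟩ := hensels_lemma hlt
  refine ⟨z.appr e, PadicInt.appr_lt z e, ?_⟩
  rw [← PadicInt.pow_p_dvd_int_iff]
  have h5 : (p : ℤ_[p]) ^ e ∣ (z.appr e : ℤ_[p]) - z := by
    rw [← neg_sub, dvd_neg, ← Ideal.mem_span_singleton]
    exact PadicInt.appr_spec e z
  have h6 : ((evN F (fun j => if j = i0 then z.appr e else y j) : ℤ) : ℤ_[p]) =
      f.aeval (z.appr e : ℤ_[p]) - f.aeval z := by
    rw [hz, sub_zero, hf, aeval_onev]
    unfold evN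
    rw [cast_evZ]
    congr 2
    funext j
    by_cases hj : j = i0
    · rw [if_pos hj]
      simp [hj]
    · rw [if_neg hj]
      simp [hj]
  rw [h6, ← Polynomial.eval_map_algebraMap, ← Polynomial.eval_map_algebraMap]
  exact h5.trans (Polynomial.sub_dvd_eval_sub _ _ _)

theorem nu_smallG (s p e k : ℕ) (hs : 1 ≤ s) (hp : p.Prime) (F : Pol s) (h : GoodP p k F) :
    ((p : ℝ) ^ ((2 * k + 1) * (s - 1)))⁻¹ * (p : ℝ) ^ (e * (s - 1)) ≤ nuF (p ^ e) F := by
  classical
  have : Fact p.Prime := ⟨hp⟩
  obtain ⟨x, hx, i0, hd⟩ := h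
  have hp1 : (1 : ℝ) < p := by exact_mod_cast hp.one_lt
  have hp0 : (0 : ℝ) < p := by linarith
  set K : ℕ := 2 * k + 1 with hK
  have hpK : (0 : ℤ) < (p : ℤ) ^ K := by
    have : (0 : ℤ) < p := by exact_mod_cast hp.pos
    positivity
  rcases le_or_gt e K with hek | hek
  · have h1 : ((p : ℝ) ^ (K * (s - 1)))⁻¹ * (p : ℝ) ^ (e * (s - 1)) ≤ 1 := by
      rw [inv_mul_le_iff₀ (by positivity), mul_one]
      exact pow_le_pow_right₀ hp1.le (Nat.mul_le_mul_right _ hek)
    refine h1.trans ?_
    unfold nuF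
    have h2 : 1 ≤ ((Fintype.piFinset fun _ : Fin s => range (p ^ e)).filter fun x : Fin s → ℕ =>
        ((p ^ e : ℕ) : ℤ) ∣ evN F x).card := by
      rw [Nat.one_le_iff_ne_zero, ← Nat.pos_iff_ne_zero, Finset.card_pos]
      have hpe : (0 : ℤ) < (p : ℤ) ^ e := by
        have : (0 : ℤ) < p := by exact_mod_cast hp.pos
        positivity
      refine ⟨fun j => (x j % (p : ℤ) ^ e).toNat, ?_⟩
      rw [Finset.mem_filter, Fintype.mem_piFinset]
      constructor
      · intro j
        rw [Finset.mem_range]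
        have h3 := Int.emod_lt_of_pos (x j) hpe
        have h4 := Int.emod_nonneg (x j) hpe.ne'
        zify
        rw [Int.toNat_of_nonneg h4]
        exact h3
      · unfold evN
        have h5 : ∀ j, (fun j => (((x j % (p : ℤ) ^ e).toNat : ℕ) : ℤ)) j ≡ x j
            [ZMOD (p : ℤ) ^ e] := by
          intro j
          have h4 := Int.emod_nonneg (x j) hpe.ne'
          simp only []
          rw [Int.toNat_of_nonneg h4]
          exact Int.mod_modEq _ _
        have h6 := evZ_congr F _ x _ h5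
        push_cast
        refine (Int.ModEq.dvd_iff h6).mpr ?_
        exact (pow_dvd_pow _ hek).trans hx
    exact_mod_cast h2
  · set b : Fin s → ℕ := fun j => (x j % (p : ℤ) ^ K).toNat with hb
    have hb1 : ∀ j, b j < p ^ K := by
      intro j
      have h3 := Int.emod_lt_of_pos (x j) hpK
      have h4 := Int.emod_nonneg (x j) hpK.ne'
      zify
      rw [hb]
      simp only []
      rw [Int.toNat_of_nonneg h4]
      exact h3
    have hb2 : ∀ j, (b j : ℤ) ≡ x j [ZMOD (p : ℤ) ^ K] := by
      intro j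
      have h4 := Int.emod_nonneg (x j) hpK.ne'
      rw [hb]
      simp only []
      rw [Int.toNat_of_nonneg h4]
      exact Int.mod_modEq _ _
    have hy : ∀ (c : Fin s → ℕ) (j : Fin s), j ≠ i0 →
        ((b j + p ^ K * c j : ℕ) : ℤ) ≡ x j [ZMOD (p : ℤ) ^ (2 * k + 1)] := by
      intro c j _
      rw [← hK]
      push_cast
      have h1 : (p : ℤ) ^ K * (c j : ℤ) ≡ 0 [ZMOD (p : ℤ) ^ K] :=
        Int.modEq_zero_iff_dvd.mpr (dvd_mul_right _ _)
      simpa using (hb2 j).add h1
    have key := fun c : Fin s → ℕ => root_modG p k e F x i0 hx hd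
      (fun j => b j + p ^ K * c j) (hy c)
    choose w hw1 hw2 using key
    set S0 : Finset (Fin s → ℕ) := Fintype.piFinset fun j : Fin s =>
      if j = i0 then ({0} : Finset ℕ) else range (p ^ (e - K)) with hS0
    have hcard : S0.card = p ^ ((e - K) * (s - 1)) := by
      rw [hS0, Fintype.card_piFinset, ← Finset.mul_prod_erase univ _ (mem_univ i0)]
      rw [if_pos rfl, Finset.card_singleton, one_mul]
      have h1 : ∀ j ∈ univ.erase i0, (if j = i0 then ({0} : Finset ℕ) else
          range (p ^ (e - K))).card = p ^ (e - K) := by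
        intro j hj
        rw [if_neg (Finset.ne_of_mem_erase hj), Finset.card_range]
      rw [Finset.prod_congr rfl h1, Finset.prod_const, Finset.card_erase_of_mem (mem_univ i0),
        Finset.card_univ, Fintype.card_fin, ← pow_mul]
    set Φ : (Fin s → ℕ) → (Fin s → ℕ) := fun c j =>
      if j = i0 then w c else b j + p ^ K * c j with hΦ
    have hle : S0.card ≤ ((Fintype.piFinset fun _ : Fin s => range (p ^ e)).filter
        fun x : Fin s → ℕ => ((p ^ e : ℕ) : ℤ) ∣ evN F x).card := by
      apply Finset.card_le_card_of_injOn Φ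
      · intro c hc
        rw [Finset.mem_coe, hS0, Fintype.mem_piFinset] at hc
        rw [Finset.mem_coe, Finset.mem_filter, Fintype.mem_piFinset]
        constructor
        · intro j
          rw [Finset.mem_range]
          by_cases hj : j = i0
          · simp only [hΦ, if_pos hj]
            exact hw1 c
          · simp only [hΦ, if_neg hj]
            have h1 := hc j
            rw [if_neg hj, Finset.mem_range] at h1
            have h2 := hb1 j
            calc b j + p ^ K * c j < p ^ K + p ^ K * c j := by omega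
              _ = p ^ K * (c j + 1) := by ring
              _ ≤ p ^ K * p ^ (e - K) := Nat.mul_le_mul_left _ h1
              _ = p ^ e := by rw [← pow_add]; congr 1; omega
        · have h3 := hw2 c
          push_cast
          exact h3
      · intro c hc c' hc' hcc
        rw [Finset.mem_coe, hS0, Fintype.mem_piFinset] at hc hc'
        funext j
        by_cases hj : j = i0
        · have h1 := hc j
          have h2 := hc' j
          rw [if_pos hj, Finset.mem_singleton] at h1 h2
          rw [h1, h2]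
        · have h1 := congrFun hcc j
          simp only [hΦ, if_neg hj] at h1
          have h2 : p ^ K * c j = p ^ K * c' j := by omega
          exact Nat.eq_of_mul_eq_mul_left (pow_pos hp.pos K) h2
    rw [hcard] at hle
    have h7 : ((p : ℝ) ^ (K * (s - 1)))⁻¹ * (p : ℝ) ^ (e * (s - 1)) =
        ((p ^ ((e - K) * (s - 1)) : ℕ) : ℝ) := by
      rw [inv_mul_eq_iff_eq_mul₀ (by positivity)]
      push_cast
      rw [← pow_add, ← add_mul]
      congr 2
      omega
    rw [h7]
    unfold nuF
    exact_mod_cast hle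

end Pool.Agent.Lib.MP_e426f4_ag.DP
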