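import Pool.Agent.Lib.MP_e426f4_ag.DP.Basic

/-!
# PosPadic: a residue class with a good point

Put `x = (1, 1, 0, ..., 0)`, `K = 2 d + 1`; there is `b ∈ {0, 1}` with `p^(d+1) ∤ ∂_0 G(x) + d b` (else
`p^(d+1) ∣ d`, but `0 < d < p^(d+1)`).  `r_0 = b`, `r_1 = -G(x) - b`, `r_i = 0` for `i ≥ 2`: if `a ≡ r mod p^K` then
`F(x) = G(x) + a_0 + a_1 ≡ 0 mod p^K` and `∂_0 F(x) = ∂_0 G(x) + d a_0 ≡ ∂_0 G(x) + d b mod p^K` (`evZ_fm`,
`evZ_pderiv_fm`).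
-/

set_option autoImplicit false

namespace Pool.Agent.Lib.MP_e426f4_ag.DP

open Finset MvPolynomial
open Pool.Agent.Lib.MP_e426f4_ag.DG (box)

/-- (P): the residue class modulo a power of `p` -/
theorem pos_padic (d s p : ℕ) (hd : 4 ≤ d) (hs : 8 ≤ s) (hp : p.Prime) (G : Pol s) :
    ∃ r : Fin s → ℤ, ∀ a : Fin s → ℤ, (∀ i, a i ≡ r i [ZMOD (p : ℤ) ^ (2 * d + 1)]) →
      GoodP p d (fm d G a) := by
  classical
  obtain ⟨i0, hi0⟩ : ∃ i0 : Fin s, i0 = ⟨0, by omega⟩ := ⟨_, rfl⟩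
  obtain ⟨i1, hi1⟩ : ∃ i1 : Fin s, i1 = ⟨1, by omega⟩ := ⟨_, rfl⟩
  have h01 : i0 ≠ i1 := by
    rw [hi0, hi1]
    intro h
    have := congrArg Fin.val h
    simp at this
  obtain ⟨x, hx⟩ : ∃ x : Fin s → ℤ, x = fun i => if i = i0 ∨ i = i1 then 1 else 0 := ⟨_, rfl⟩
  have hx0 : x i0 = 1 := by rw [hx]; simp
  have hx1 : x i1 = 1 := by rw [hx]; simp
  obtain ⟨g, hg⟩ : ∃ g : ℤ, g = evZ G x := ⟨_, rfl⟩
  obtain ⟨g0, hg0⟩ : ∃ g0 : ℤ, g0 = evZ (pderiv i0 G) x := ⟨_, rfl⟩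
  obtain ⟨b, hb⟩ : ∃ b : ℤ, ¬ (p : ℤ) ^ (d + 1) ∣ g0 + d * b := by
    by_contra hcon
    push Not at hcon
    have h1 := hcon 0
    have h2 := hcon 1
    have h3 : (p : ℤ) ^ (d + 1) ∣ (d : ℤ) := by
      have h4 := dvd_sub h2 h1
      have h5 : g0 + d * 1 - (g0 + d * 0) = (d : ℤ) := by ring
      rwa [h5] at h4
    have h4 : p ^ (d + 1) ∣ d := by exact_mod_cast h3
    have h5 := Nat.le_of_dvd (by omega) h4
    have h6 : d < 2 ^ (d + 1) := lt_of_lt_of_le (Nat.lt_two_pow_self) (Nat.pow_le_pow_right (by norm_num) (by omega))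
    have h7 : 2 ^ (d + 1) ≤ p ^ (d + 1) := Nat.pow_le_pow_left hp.two_le _
    omega
  obtain ⟨r, hr⟩ : ∃ r : Fin s → ℤ, r = fun i => if i = i0 then b else if i = i1 then -g - b else 0 :=
    ⟨_, rfl⟩
  have hr0 : r i0 = b := by rw [hr]; simp
  have hr1 : r i1 = -g - b := by
    rw [hr]
    simp only [if_neg h01.symm, if_true]
  have hrz : ∀ i, i ≠ i0 ∧ i ≠ i1 → r i * x i ^ d = 0 := by
    intro i hi
    rw [hr]
    simp only [if_neg hi.1, if_neg hi.2, zero_mul]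
  refine ⟨r, fun a ha => ⟨x, ?_, i0, ?_⟩⟩
  · have h1 := evZ_fm_congr d G a r x _ ha
    have h2 : evZ (fm d G r) x = 0 := by
      rw [evZ_fm, Fintype.sum_eq_add i0 i1 h01 hrz, hr0, hr1, hx0, hx1, ← hg]
      ring
    rw [h2] at h1
    exact Int.modEq_zero_iff_dvd.1 h1
  · have h1 := evZ_pderiv_fm_congr d G a r x _ i0 ha
    have h2 : evZ (pderiv i0 (fm d G r)) x = g0 + d * b := by
      rw [evZ_pderiv_fm, hr0, hx0, ← hg0]
      ring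
    rw [h2] at h1
    intro h3
    apply hb
    have h4 : (p : ℤ) ^ (d + 1) ∣ (p : ℤ) ^ (2 * d + 1) := pow_dvd_pow _ (by omega)
    have h5 : (p : ℤ) ^ (d + 1) ∣ (g0 + d * b) - evZ (pderiv i0 (fm d G a)) x :=
      h4.trans h1.dvd
    have h6 := dvd_add h5 h3
    rwa [sub_add_cancel] at h6

end Pool.Agent.Lib.MP_e426f4_ag.DP
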