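import Pool.Agent.Lib.MP_e426f4_ag.DP.Basic

/-!
# PosReal: a sub-box with a real sign change

Let `Nm` be as in `ev_bd` (a bound for `|G|` on the unit box: `|G(z)| ≤ Nm K`, or estimate via `evR_coeff`), `kap = (Nm + s) 2^(d+5)` or so,
`eta = 2^(-d-3)`.  `z = (1/2, 1, 1/2, ..., 1/2)`, `z' = (1/2, 1/4, 1/2, ..., 1/2)`, `j` = the index with value `1`:
`F(z) ≤ H 2^(-d) - H/2 + small ≤ -eta H` and `F(z') ≥ H/2 2^(-d) - H 4^(-d) - small ≥ eta H`, where small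
`≤ Nm H/kap + s H/kap` (`evR_fm`).
-/

set_option autoImplicit false

namespace Pool.Agent.Lib.MP_e426f4_ag.DP

open Finset MvPolynomial
open Pool.Agent.Lib.MP_e426f4_ag.DG (box)

/-- the values of the diagonal part, up to the small coefficients -/
private theorem posr_diag {d s kap H : ℕ} (hk : 1 ≤ kap) (a : Fin s → ℤ) (i0 i1 : Fin s)
    (h0 : i0.val = 0) (h1 : i1.val = 1)
    (h2 : ∀ i : Fin s, 2 ≤ i.val → (kap : ℤ) * |a i| ≤ H) (z : Fin s → ℝ)
    (hz : ∀ i, 0 ≤ z i ∧ z i ≤ 1) :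
    |(∑ i, (a i : ℝ) * z i ^ d) - ((a i0 : ℝ) * z i0 ^ d + (a i1 : ℝ) * z i1 ^ d)| ≤
      s * ((H : ℝ) / kap) := by
  classical
  have hk0 : (0 : ℝ) < kap := by exact_mod_cast hk
  have hne : i1 ∈ (univ : Finset (Fin s)).erase i0 := by
    rw [Finset.mem_erase]
    refine ⟨fun h => ?_, Finset.mem_univ _⟩
    rw [h] at h1
    omega
  have e1 : (∑ i, (a i : ℝ) * z i ^ d) - ((a i0 : ℝ) * z i0 ^ d + (a i1 : ℝ) * z i1 ^ d) =
      ∑ i ∈ ((univ : Finset (Fin s)).erase i0).erase i1, (a i : ℝ) * z i ^ d := by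
    rw [← Finset.add_sum_erase univ _ (Finset.mem_univ i0),
      ← Finset.add_sum_erase (univ.erase i0) _ hne]
    ring
  rw [e1]
  refine (Finset.abs_sum_le_sum_abs _ _).trans ?_
  have h3 : ∀ i ∈ ((univ : Finset (Fin s)).erase i0).erase i1,
      |(a i : ℝ) * z i ^ d| ≤ (H : ℝ) / kap := by
    intro i hi
    rw [Finset.mem_erase, Finset.mem_erase] at hi
    have hi2 : 2 ≤ i.val := by
      have ha : i.val ≠ 0 := fun h => hi.2.1 (Fin.ext (h.trans h0.symm))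
      have hb : i.val ≠ 1 := fun h => hi.1 (Fin.ext (h.trans h1.symm))
      omega
    have h4 : (kap : ℝ) * |(a i : ℝ)| ≤ H := by exact_mod_cast h2 i hi2
    have h5 : |(a i : ℝ)| ≤ (H : ℝ) / kap := by
      rw [le_div_iff₀ hk0]
      linarith
    have h6 : |z i ^ d| ≤ 1 := by
      rw [abs_of_nonneg (pow_nonneg (hz i).1 d)]
      exact pow_le_one₀ (hz i).1 (hz i).2
    rw [abs_mul]
    calc |(a i : ℝ)| * |z i ^ d| ≤ |(a i : ℝ)| * 1 :=
          mul_le_mul_of_nonneg_left h6 (abs_nonneg _)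
      _ ≤ (H : ℝ) / kap := by rw [mul_one]; exact h5
  refine (Finset.sum_le_card_nsmul _ _ _ h3).trans ?_
  rw [nsmul_eq_mul]
  have h7 : (((univ : Finset (Fin s)).erase i0).erase i1).card ≤ s := by
    refine (Finset.card_erase_le).trans ((Finset.card_erase_le).trans ?_)
    rw [Finset.card_univ, Fintype.card_fin]
  have h8 : ((((univ : Finset (Fin s)).erase i0).erase i1).card : ℝ) ≤ s := by exact_mod_cast h7
  exact mul_le_mul_of_nonneg_right h8 (by positivity)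

/-- (R): the sub-box -/
theorem pos_real (d s : ℕ) (hd : 4 ≤ d) (hs : 8 ≤ s) : ∃ (kap : ℕ) (eta : ℝ), 1 ≤ kap ∧ 0 < eta ∧
    eta ≤ 1 ∧ ∀ (H : ℕ) (G : Pol s) (a : Fin s → ℤ), G.IsHomogeneous d →
    (∀ m, (kap : ℤ) * |coeff m G| ≤ H) →
    (∀ i : Fin s, i.val = 0 → (H : ℤ) ≤ 2 * a i ∧ a i ≤ H) →
    (∀ i : Fin s, i.val = 1 → (H : ℤ) ≤ 2 * (-a i) ∧ -a i ≤ H) →
    (∀ i : Fin s, 2 ≤ i.val → (kap : ℤ) * |a i| ≤ H) → PosR eta H (fm d G a) := by
  obtain ⟨Nm, hNm, hbd⟩ := ev_bd d s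
  obtain ⟨t, ht⟩ : ∃ t : ℝ, t = (1 / 2) ^ d := ⟨_, rfl⟩
  have ht0 : 0 < t := by rw [ht]; positivity
  have ht16 : t ≤ 1 / 16 := by
    rw [ht]
    calc ((1 : ℝ) / 2) ^ d ≤ (1 / 2) ^ 4 :=
          pow_le_pow_of_le_one (by norm_num) (by norm_num) hd
      _ = 1 / 16 := by norm_num
  refine ⟨(Nm + s) * 2 ^ (d + 5), t / 8, ?_, by positivity, by linarith, ?_⟩
  · exact Nat.mul_pos (by omega) (by positivity)
  intro H G a hG hcf ha0 ha1 ha2
  obtain ⟨kap, hkap⟩ : ∃ kap : ℕ, kap = (Nm + s) * 2 ^ (d + 5) := ⟨_, rfl⟩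
  rw [← hkap] at hcf ha2
  have hk : 1 ≤ kap := by rw [hkap]; exact Nat.mul_pos (by omega) (by positivity)
  have hk0 : (0 : ℝ) < kap := by exact_mod_cast hk
  have hH0 : (0 : ℝ) ≤ H := Nat.cast_nonneg _
  -- the error
  have herr : ((Nm : ℝ) + s) * ((H : ℝ) / kap) = t / 32 * H := by
    have h1 : (kap : ℝ) = ((Nm : ℝ) + s) * (2 ^ d * 32) := by
      rw [hkap]
      push_cast
      rw [pow_add]
      norm_num
    have h2 : t * 2 ^ d = 1 := by
      rw [ht, ← mul_pow]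
      norm_num
    have h3 : (0 : ℝ) < (Nm : ℝ) + s := by
      have : (1 : ℝ) ≤ Nm := by exact_mod_cast hNm
      positivity
    have h4 : (H : ℝ) / kap = t / 32 * H / ((Nm : ℝ) + s) := by
      rw [div_eq_div_iff hk0.ne' h3.ne', h1]
      linear_combination (-(H : ℝ) * ((Nm : ℝ) + s)) * h2
    rw [h4]
    field_simp
  obtain ⟨i0, hi0⟩ : ∃ i : Fin s, i.val = 0 := ⟨⟨0, by omega⟩, rfl⟩
  obtain ⟨i1, hi1⟩ : ∃ i : Fin s, i.val = 1 := ⟨⟨1, by omega⟩, rfl⟩
  have hne : i0 ≠ i1 := fun h => by rw [h] at hi0; omega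
  -- the bound for `G`
  have hCb : Cb d (H / kap) G := by
    refine ⟨hG, fun m => ?_⟩
    have h1 := hcf m
    have h2 : |coeff m G| ≤ (H : ℤ) / (kap : ℤ) := by
      rw [Int.le_ediv_iff_mul_le (by exact_mod_cast hk)]
      linarith
    push_cast
    exact h2
  have hKle : ((H / kap : ℕ) : ℝ) ≤ (H : ℝ) / kap := Nat.cast_div_le
  have hGv : ∀ z : Fin s → ℝ, (∀ i, 0 ≤ z i ∧ z i ≤ 1) → |evR G z| ≤ Nm * ((H : ℝ) / kap) := by
    intro z hz
    have h1 := hbd (H / kap) G hCb z 1 zero_le_one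
      (fun i => by rw [abs_of_nonneg (hz i).1]; exact (hz i).2)
    rw [one_pow, mul_one] at h1
    exact h1.trans (mul_le_mul_of_nonneg_left hKle (Nat.cast_nonneg _))
  have hval : ∀ z : Fin s → ℝ, (∀ i, 0 ≤ z i ∧ z i ≤ 1) →
      |evR (fm d G a) z - ((a i0 : ℝ) * z i0 ^ d + (a i1 : ℝ) * z i1 ^ d)| ≤ t / 32 * H := by
    intro z hz
    rw [evR_fm, ← herr]
    have h1 := hGv z hz
    have h2 := posr_diag (d := d) hk a i0 i1 hi0 hi1 ha2 z hz
    have h3 : evR G z + ∑ i, (a i : ℝ) * z i ^ d -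
        ((a i0 : ℝ) * z i0 ^ d + (a i1 : ℝ) * z i1 ^ d) = evR G z +
        ((∑ i, (a i : ℝ) * z i ^ d) - ((a i0 : ℝ) * z i0 ^ d + (a i1 : ℝ) * z i1 ^ d)) := by ring
    rw [h3]
    refine (abs_add_le _ _).trans ?_
    rw [add_mul]
    exact add_le_add h1 h2
  have hA0 : (H : ℝ) ≤ 2 * a i0 ∧ (a i0 : ℝ) ≤ H := by
    have := ha0 i0 hi0
    exact ⟨by exact_mod_cast this.1, by exact_mod_cast this.2⟩
  have hA1 : (H : ℝ) ≤ 2 * (-a i1) ∧ (-(a i1 : ℝ)) ≤ H := by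
    have := ha1 i1 hi1
    exact ⟨by exact_mod_cast this.1, by exact_mod_cast this.2⟩
  have ht4 : ((1 : ℝ) / 4) ^ d = t ^ 2 := by
    rw [ht, ← pow_mul, mul_comm, pow_mul]
    norm_num
  refine ⟨i1, fun i => if i = i1 then 1 else 1 / 2, fun i => if i = i1 then 1 / 4 else 1 / 2,
    ?_, ?_, ?_, ?_, ?_⟩
  · intro i
    dsimp only
    split_ifs
    · constructor <;> linarith
    · constructor <;> linarith
  · intro i
    dsimp only
    split_ifs
    · constructor <;> linarith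
    · constructor <;> linarith
  · intro i hi
    simp only [if_neg hi]
  · have h1 := hval (fun i => if i = i1 then 1 else 1 / 2) (by
      intro i
      split_ifs <;> norm_num)
    simp only [if_neg hne, if_true, one_pow, mul_one, ← ht] at h1
    have h2 := (abs_le.mp h1).2
    nlinarith [mul_le_mul_of_nonneg_right hA0.2 ht0.le, mul_nonneg hH0 ht0.le]
  · have h1 := hval (fun i => if i = i1 then 1 / 4 else 1 / 2) (by
      intro i
      split_ifs <;> norm_num)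
    simp only [if_neg hne, if_true, ← ht, ht4] at h1
    have h2 := (abs_le.mp h1).1
    have h3 : (H : ℝ) / 2 * t ≤ a i0 * t := mul_le_mul_of_nonneg_right (by linarith) ht0.le
    have h4 : -(H : ℝ) * t ^ 2 ≤ a i1 * t ^ 2 :=
      mul_le_mul_of_nonneg_right (by linarith) (by positivity)
    have h5 : (H : ℝ) * t ^ 2 ≤ H * t * (1 / 16) := by
      have : (H : ℝ) * t ^ 2 = H * t * t := by ring
      rw [this]
      exact mul_le_mul_of_nonneg_left ht16 (by positivity)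
    nlinarith [mul_nonneg hH0 ht0.le]


end Pool.Agent.Lib.MP_e426f4_ag.DP
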