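import Pool.Agent.Lib.MP_e426f4_ag.DP.NuLargeG
import Pool.Agent.Lib.MP_e426f4_ag.DP.NuSmallG
import Pool.Agent.Lib.MP_e426f4_ag.DP.NuProd
import Pool.Agent.Lib.MP_e426f4_ag.DP.PosReal
import Pool.Agent.Lib.MP_e426f4_ag.DP.PosPadic

/-!
# PosG: a positive proportion of the coset has good local conditions, uniformly in small `G`

`kap`, `eta` from `pos_real`; `C` from `nu_largeG`.  The sub-box of `pos_real`: `H/2 ≤ a_0 ≤ H`, `-H ≤ a_1 ≤ -H/2`,
`|a_i| ≤ H/kap` for `i ≥ 2`.  For `q0 ≥ 1` and `H ≥ 4 kap q0` it contains at least `c' (H/q0)^s` elements of any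
class modulo `q0` with `c' = (1/8)^2 (1/(2 kap))^(s-2)` or so (an interval of length `ℓ ≥ 2 q0` contains at least
`ℓ/(2 q0)` integers of a class modulo `q0`).
Choose `p0 ≥ max d 5` with `C/p0 ≤ c'/2`, `q0 = ∏_{p ≤ p0} p^(2d+1)`; for a given `G` the classes of `pos_padic` for the primes `p ≤ p0`
give a class `r0` modulo `q0` (chinese remainder theorem, coordinatewise).  `H0 = max (4 kap q0) (om q0)`.  By `nu_largeG` (`p0 < p ≤ om`,
coprime to `q0`) at most `∑ C/p² (H/q0)^s ≤ c'/2 (H/q0)^s` elements of the box in the class `r0` violate the lower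
bound of `nu_fac` for some `p ∈ (p0, om]` (`∑_{p > p0} 1/p² ≤ 1/p0`, see `sum_sq_le` in `DH/LocExc.lean`).  The others in the
sub-box satisfy all hypotheses of `nu_fac` (`nu_smallG` with `k = d`, `kk = (2d+1)(s-1)`) and `PosR`.
`c0 = 1/2 (∏_{p ≤ p0} p^kk)⁻¹`, `c = c'/2 / q0^s`.
-/

set_option autoImplicit false

namespace Pool.Agent.Lib.MP_e426f4_ag.DP

open Finset MvPolynomial
open Pool.Agent.Lib.MP_e426f4_ag.DG (box)

/-- an interval of length at least `2 q` contains many integers of a class modulo `q` -/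
private theorem class_card (l u v : ℤ) (q : ℕ) (hq : 1 ≤ q) (h : 2 * (q : ℤ) ≤ u - l) :
    ((u : ℝ) - l) / (2 * q) ≤ (((Icc l u).filter fun x => x ≡ v [ZMOD q]).card : ℝ) := by
  have hqz : (0 : ℤ) < q := by exact_mod_cast hq
  have hI : Icc l u = Ioc (l - 1) u := by
    ext x
    simp only [mem_Icc, mem_Ioc]
    omega
  have hc := Int.Ioc_filter_modEq_card (l - 1) u hqz v
  rw [hI]
  have h2 : ((u : ℚ) - l) / (2 * q) ≤
      (((max (⌊((u : ℤ) - v) / ((q : ℤ) : ℚ)⌋ - ⌊((l - 1 : ℤ) - v) / ((q : ℤ) : ℚ)⌋) 0 : ℤ)) : ℚ) := by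
    have hmq : (0 : ℚ) < q := by exact_mod_cast hq
    rw [Int.cast_max, Int.cast_sub]
    refine le_max_of_le_left ?_
    have e1 := Int.lt_floor_add_one (((u : ℚ) - v) / ((q : ℤ) : ℚ))
    have e2 := Int.floor_le ((((l - 1 : ℤ) : ℚ) - v) / ((q : ℤ) : ℚ))
    have e3 : ((u : ℚ) - v) / ((q : ℤ) : ℚ) - (((l - 1 : ℤ) : ℚ) - v) / ((q : ℤ) : ℚ)
        = ((u : ℚ) - l + 1) / q := by
      push_cast
      field_simp
      ring
    have h' : 2 * (q : ℚ) ≤ (u : ℚ) - l := by exact_mod_cast h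
    have e4 : ((u : ℚ) - l) / (2 * q) ≤ ((u : ℚ) - l + 1) / q - 1 := by
      rw [div_sub_one hmq.ne', div_le_div_iff₀ (by positivity) hmq]
      nlinarith
    linarith
  rw [← hc] at h2
  have h3 := (Rat.cast_le (K := ℝ)).mpr h2
  push_cast at h3
  simpa using h3

private theorem sum_sq_le (T : Finset ℕ) (p0 N : ℕ) (hp0 : 1 ≤ p0) (hT : ∀ p ∈ T, p0 < p ∧ p ≤ N) :
    ∑ p ∈ T, ((p : ℝ) ^ 2)⁻¹ ≤ (p0 : ℝ)⁻¹ := by
  rcases le_or_gt p0 N with h | h
  · calc ∑ p ∈ T, ((p : ℝ) ^ 2)⁻¹ ≤ ∑ p ∈ Ioc p0 N, ((p : ℝ) ^ 2)⁻¹ := by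
          apply Finset.sum_le_sum_of_subset_of_nonneg
          · intro p hp
            exact Finset.mem_Ioc.2 (hT p hp)
          · intro p _ _
            positivity
      _ ≤ (p0 : ℝ)⁻¹ - (N : ℝ)⁻¹ := sum_Ioc_inv_sq_le_sub (by omega) h
      _ ≤ (p0 : ℝ)⁻¹ := by
          have : (0 : ℝ) ≤ (N : ℝ)⁻¹ := by positivity
          linarith
  · have : T = ∅ := by
      apply Finset.eq_empty_of_forall_notMem
      intro p hp
      have := hT p hp
      omega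
    rw [this]
    simp

/-- the chinese remainder theorem for integers, prime powers -/
private theorem crt (T : Finset ℕ) (hT : ∀ p ∈ T, p.Prime) (k : ℕ) (r : ℕ → ℤ) :
    ∃ x : ℤ, ∀ p ∈ T, x ≡ r p [ZMOD (p : ℤ) ^ k] := by
  have hne : ∀ p ∈ T, (fun p : ℕ => p ^ k) p ≠ 0 := fun p hp => pow_ne_zero _ (hT p hp).ne_zero
  have hpw : Set.Pairwise (T : Set ℕ) (Function.onFun Nat.Coprime fun p : ℕ => p ^ k) := by
    intro p hp q hq hpq
    exact Nat.Coprime.pow _ _ ((Nat.coprime_primes (hT p hp) (hT q hq)).2 hpq)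
  obtain ⟨x, hx⟩ := Nat.chineseRemainderOfFinset (fun p : ℕ => (r p % (p : ℤ) ^ k).toNat)
    (fun p : ℕ => p ^ k) T hne hpw
  refine ⟨(x : ℤ), fun p hp => ?_⟩
  have hp0 : (0 : ℤ) < (p : ℤ) ^ k := by
    have : (0 : ℤ) < p := by exact_mod_cast (hT p hp).pos
    positivity
  have h1 := (Int.natCast_modEq_iff.2 (hx p hp))
  rw [Int.toNat_of_nonneg (Int.emod_nonneg _ hp0.ne')] at h1
  push_cast at h1
  exact h1.trans (Int.mod_modEq _ _)

open Classical in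
theorem posG (d s : ℕ) (hd : 4 ≤ d) (hs : 8 ≤ s) : ∃ (kap : ℕ) (eta c0 c : ℝ), 1 ≤ kap ∧
    0 < eta ∧ eta ≤ 1 ∧ 0 < c0 ∧ 0 < c ∧ ∀ om : ℕ, 1 ≤ om → ∃ H0 : ℕ, ∀ H : ℕ, H0 ≤ H →
    ∀ G : Pol s, G.IsHomogeneous d → (∀ m, (kap : ℤ) * |coeff m G| ≤ H) →
    c * (H : ℝ) ^ s ≤ (((box s H).filter fun a : Fin s → ℤ => PosR eta H (fm d G a) ∧
      c0 * ((om.factorial : ℕ) : ℝ) ^ (s - 1) ≤ nuF om.factorial (fm d G a)).card : ℝ) := by
  obtain ⟨kap, eta, hkap, heta, heta1, hreal⟩ := pos_real d s hd hs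
  obtain ⟨C, hC, hlarge⟩ := nu_largeG d s hd hs
  have hkapR : (1 : ℝ) ≤ kap := by exact_mod_cast hkap
  set c' : ℝ := (1 / (8 * (kap : ℝ))) ^ s with hc'
  have hc'0 : 0 < c' := by rw [hc']; positivity
  obtain ⟨p0, hp0d, hp05, hp0C⟩ : ∃ p0 : ℕ, d ≤ p0 ∧ 5 ≤ p0 ∧ 2 * C / c' ≤ p0 := by
    obtain ⟨k, hk⟩ := exists_nat_ge (2 * C / c')
    refine ⟨max (max d 5) k, by omega, by omega, hk.trans ?_⟩
    exact_mod_cast le_max_right _ _
  set PP : Finset ℕ := (range (p0 + 1)).filter Nat.Prime with hPP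
  have hPPp : ∀ p ∈ PP, p.Prime := fun p hp => (Finset.mem_filter.1 hp).2
  set q0 : ℕ := ∏ p ∈ PP, p ^ (2 * d + 1) with hq0
  have hq01 : 1 ≤ q0 := Nat.one_le_iff_ne_zero.2 (Finset.prod_ne_zero_iff.2 fun p hp =>
    pow_ne_zero _ (hPPp p hp).ne_zero)
  have hq0R : (0 : ℝ) < q0 := by exact_mod_cast hq01
  set kk : ℕ := (2 * d + 1) * (s - 1) with hkk
  set A : ℝ := ∏ p ∈ PP, (p : ℝ) ^ kk with hA
  have hA0 : 0 < A := Finset.prod_pos fun p hp => by
    have := (hPPp p hp).pos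
    positivity
  refine ⟨kap, eta, 1 / 2 * A⁻¹, c' / 2 / (q0 : ℝ) ^ s, hkap, heta, heta1, by positivity,
    by positivity, fun om hom => ⟨max (8 * kap * q0) (om * q0), fun H hH G hG hGc => ?_⟩⟩
  have hH1 : 8 * kap * q0 ≤ H := (le_max_left _ _).trans hH
  have hH2 : om * q0 ≤ H := (le_max_right _ _).trans hH
  -- the class
  have hex : ∀ p : ℕ, ∃ r : Fin s → ℤ, p ∈ PP → ∀ a : Fin s → ℤ,
      (∀ i, a i ≡ r i [ZMOD (p : ℤ) ^ (2 * d + 1)]) → GoodP p d (fm d G a) := by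
    intro p
    by_cases hp : p ∈ PP
    · obtain ⟨r, hr⟩ := pos_padic d s p hd hs (hPPp p hp) G
      exact ⟨r, fun _ => hr⟩
    · exact ⟨0, fun h => absurd h hp⟩
  choose r hr using hex
  have hex2 : ∀ i : Fin s, ∃ x : ℤ, ∀ p ∈ PP, x ≡ r p i [ZMOD (p : ℤ) ^ (2 * d + 1)] := fun i =>
    crt PP hPPp (2 * d + 1) fun p => r p i
  choose r0 hr0 using hex2
  have hgood : ∀ a : Fin s → ℤ, (∀ i, a i ≡ r0 i [ZMOD q0]) → ∀ p ∈ PP, GoodP p d (fm d G a) := by
    intro a ha p hp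
    apply hr p hp a
    intro i
    refine Int.ModEq.trans ((ha i).of_dvd ?_) (hr0 i p hp)
    have h1 : p ^ (2 * d + 1) ∣ q0 := Finset.dvd_prod_of_mem (fun p : ℕ => p ^ (2 * d + 1)) hp
    exact_mod_cast h1
  -- the sub-box
  set L : ℕ := H / (2 * kap) with hL
  have hL1 : 2 * kap * L ≤ H := by
    rw [hL]
    exact Nat.mul_div_le H (2 * kap)
  have hL2 : H < 2 * kap * (L + 1) := by
    rw [hL]
    exact Nat.lt_mul_div_succ H (by omega)
  have hL3 : 2 * L ≤ H := by nlinarith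
  have hL4 : kap * L ≤ H := by nlinarith
  have hL5 : (H : ℝ) / (4 * kap) ≤ L := by
    rw [div_le_iff₀ (by positivity)]
    have h1 : (H : ℝ) ≤ 2 * kap * (L + 1) := by exact_mod_cast hL2.le
    have h2 : 8 * (kap : ℝ) * q0 ≤ H := by exact_mod_cast hH1
    have h3 : (1 : ℝ) ≤ q0 := by exact_mod_cast hq01
    nlinarith
  have hL6 : 2 * q0 ≤ L := by
    have h1 : (2 : ℝ) * q0 ≤ L := by
      refine le_trans ?_ hL5
      rw [le_div_iff₀ (by positivity)]
      have h2 : 8 * (kap : ℝ) * q0 ≤ H := by exact_mod_cast hH1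
      nlinarith
    exact_mod_cast h1
  set lo : Fin s → ℤ := fun i => if i.val = 0 then (H : ℤ) - L else if i.val = 1 then -(H : ℤ) else 0
    with hlo
  have hlobd : ∀ i, -(H : ℤ) ≤ lo i ∧ lo i + L ≤ H := by
    intro i
    simp only [hlo]
    split_ifs <;> constructor <;> omega
  set T : Finset (Fin s → ℤ) := Fintype.piFinset fun i =>
    (Icc (lo i) (lo i + L)).filter fun x => x ≡ r0 i [ZMOD q0] with hT
  have hTmem : ∀ a ∈ T, ∀ i, lo i ≤ a i ∧ a i ≤ lo i + L ∧ a i ≡ r0 i [ZMOD q0] := by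
    intro a ha i
    have h1 := Fintype.mem_piFinset.1 ha i
    rw [Finset.mem_filter, Finset.mem_Icc] at h1
    exact ⟨h1.1.1, h1.1.2, h1.2⟩
  have hTbox : ∀ a ∈ T, a ∈ box s H := by
    intro a ha
    rw [DG.box, Fintype.mem_piFinset]
    intro i
    obtain ⟨h1, h2, -⟩ := hTmem a ha i
    obtain ⟨h3, h4⟩ := hlobd i
    exact Finset.mem_Icc.2 ⟨by omega, by omega⟩
  have hTreal : ∀ a ∈ T, PosR eta H (fm d G a) := by
    intro a ha
    have hL4z : (kap : ℤ) * L ≤ H := by exact_mod_cast hL4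
    refine hreal H G a hG hGc (fun i hi => ?_) (fun i hi => ?_) (fun i hi => ?_)
    · obtain ⟨h1, h2, -⟩ := hTmem a ha i
      simp only [hlo, hi, if_true] at h1 h2
      omega
    · obtain ⟨h1, h2, -⟩ := hTmem a ha i
      simp only [hlo, hi, if_true, one_ne_zero, if_false] at h1 h2
      omega
    · obtain ⟨h1, h2, -⟩ := hTmem a ha i
      have hi0 : i.val ≠ 0 := by omega
      have hi1 : i.val ≠ 1 := by omega
      simp only [hlo, hi0, hi1, if_false] at h1 h2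
      rw [abs_of_nonneg h1]
      have hk0 : (0 : ℤ) ≤ kap := by positivity
      nlinarith
  have hTcard : c' * ((H : ℝ) / q0) ^ s ≤ (T.card : ℝ) := by
    rw [hT, Fintype.card_piFinset]
    push_cast
    have h1 : c' * ((H : ℝ) / q0) ^ s = ∏ _i : Fin s, (1 / (8 * (kap : ℝ)) * ((H : ℝ) / q0)) := by
      rw [Finset.prod_const, Finset.card_univ, Fintype.card_fin, mul_pow]
    rw [h1]
    apply Finset.prod_le_prod
    · intro i _
      positivity
    · intro i _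
      have hb := class_card (lo i) (lo i + L) (r0 i) q0 hq01 (by
        have : (2 : ℤ) * q0 ≤ L := by exact_mod_cast hL6
        omega)
      refine le_trans ?_ hb
      push_cast
      rw [add_sub_cancel_left, le_div_iff₀ (by positivity)]
      refine le_trans (le_of_eq ?_) hL5
      field_simp
      ring
  -- the exceptional set
  set S2 : ℕ → Finset (Fin s → ℤ) := fun p =>
    (box s H).filter fun a : Fin s → ℤ => (∀ i, a i ≡ r0 i [ZMOD q0]) ∧ ∃ e : ℕ, 1 ≤ e ∧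
      nuF (p ^ e) (fm d G a) < (1 - 2 / (p : ℝ) ^ 2) * (p : ℝ) ^ (e * (s - 1)) with hS2
  set U2 := ((Ioc p0 om).filter Nat.Prime).biUnion S2 with hU2
  have hU2c : (U2.card : ℝ) ≤ c' / 2 * ((H : ℝ) / q0) ^ s := by
    have h1 : (U2.card : ℝ) ≤ ∑ p ∈ (Ioc p0 om).filter Nat.Prime, ((S2 p).card : ℝ) := by
      exact_mod_cast Finset.card_biUnion_le
    have h2 : ∀ p ∈ (Ioc p0 om).filter Nat.Prime,
        ((S2 p).card : ℝ) ≤ C * ((H : ℝ) / q0) ^ s * ((p : ℝ) ^ 2)⁻¹ := by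
      intro p hp
      rw [Finset.mem_filter, Finset.mem_Ioc] at hp
      obtain ⟨⟨hp1, hp2⟩, hp3⟩ := hp
      have hcop : Nat.Coprime p q0 := by
        apply Nat.Coprime.prod_right
        intro q hq
        apply Nat.Coprime.pow_right
        refine (Nat.coprime_primes hp3 (hPPp q hq)).2 ?_
        have := Finset.mem_range.1 (Finset.mem_filter.1 hq).1
        omega
      refine (hlarge p H q0 r0 hp3 (by omega) hq01 hcop
        ((Nat.mul_le_mul_right _ hp2).trans hH2) G).trans (le_of_eq ?_)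
      ring
    have h3 := h1.trans (Finset.sum_le_sum h2)
    rw [← Finset.mul_sum] at h3
    have h4 : ∑ p ∈ (Ioc p0 om).filter Nat.Prime, ((p : ℝ) ^ 2)⁻¹ ≤ (p0 : ℝ)⁻¹ :=
      sum_sq_le _ p0 om (by omega) fun p hp => Finset.mem_Ioc.1 (Finset.mem_filter.1 hp).1
    have h5 : (0 : ℝ) ≤ C * ((H : ℝ) / q0) ^ s := by positivity
    refine h3.trans ((mul_le_mul_of_nonneg_left h4 h5).trans ?_)
    have hp0R : (0 : ℝ) < p0 := by exact_mod_cast (by omega : 0 < p0)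
    have h6 : 2 * C ≤ p0 * c' := (div_le_iff₀ hc'0).1 hp0C
    have h7 : C * (p0 : ℝ)⁻¹ ≤ c' / 2 := by
      rw [← div_eq_mul_inv, div_le_div_iff₀ hp0R two_pos]
      linarith
    calc C * ((H : ℝ) / q0) ^ s * (p0 : ℝ)⁻¹ = C * (p0 : ℝ)⁻¹ * ((H : ℝ) / q0) ^ s := by ring
      _ ≤ c' / 2 * ((H : ℝ) / q0) ^ s := mul_le_mul_of_nonneg_right h7 (by positivity)
  -- the inclusion
  have hsub : T \ U2 ⊆ (box s H).filter fun a : Fin s → ℤ => PosR eta H (fm d G a) ∧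
      1 / 2 * A⁻¹ * ((om.factorial : ℕ) : ℝ) ^ (s - 1) ≤ nuF om.factorial (fm d G a) := by
    intro a ha
    rw [Finset.mem_sdiff] at ha
    obtain ⟨haT, haU⟩ := ha
    rw [Finset.mem_filter]
    refine ⟨hTbox a haT, hTreal a haT, ?_⟩
    have hcls : ∀ i, a i ≡ r0 i [ZMOD q0] := fun i => (hTmem a haT i).2.2
    refine nu_fac s p0 kk om hp05 (fm d G a) ?_ ?_
    · intro p hp hpp e
      rw [hkk]
      exact nu_smallG s p e d (by omega) hp _
        (hgood a hcls p (Finset.mem_filter.2 ⟨Finset.mem_range.2 (by omega), hp⟩))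
    · intro p hp hpp hpo e he
      by_contra hlt
      rw [not_le] at hlt
      apply haU
      rw [hU2, Finset.mem_biUnion]
      refine ⟨p, Finset.mem_filter.2 ⟨Finset.mem_Ioc.2 ⟨hpp, hpo⟩, hp⟩, ?_⟩
      rw [hS2, Finset.mem_filter]
      exact ⟨hTbox a haT, hcls, e, he, hlt⟩
  have h1 : (T.card : ℝ) ≤ ((T \ U2).card : ℝ) + (U2.card : ℝ) := by
    exact_mod_cast Finset.card_le_card_sdiff_add_card
  have h2 : ((T \ U2).card : ℝ) ≤ (((box s H).filter fun a : Fin s → ℤ =>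
      PosR eta H (fm d G a) ∧ 1 / 2 * A⁻¹ * ((om.factorial : ℕ) : ℝ) ^ (s - 1) ≤
        nuF om.factorial (fm d G a)).card : ℝ) := by
    exact_mod_cast Finset.card_le_card hsub
  have h3 : c' / 2 / (q0 : ℝ) ^ s * (H : ℝ) ^ s = c' / 2 * ((H : ℝ) / q0) ^ s := by
    rw [div_pow]
    field_simp
  rw [h3]
  linarith

end Pool.Agent.Lib.MP_e426f4_ag.DP
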