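import Pool.Agent.Lib.MP_e426f4_ag.DP.FinalW
import Pool.Agent.Lib.MP_e426f4_ag.DP.PosG
import Pool.Agent.Lib.MP_e426f4_ag.DP.FamSplit

/-!
# FamPos: a positive proportion of the family has a small zero

`posG` gives `kap, eta, c0, c`, then `final_W` with `eps = c/2` gives `om`.  For `H` large and `b : R → ℤ` with
`2 kap |b_r| ≤ H` and `2 kap g0 ≤ H`: `kap |coeff (Gr b)| ≤ H`, so at least `c H^s - (c/2) H^s` of the `a` in the box
have a small zero.  There are at least `(H/(2 kap))^|R|` such `b` (`2 ⌊H/(2 kap)⌋ + 1 ≥ H/(2 kap)`).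
-/

set_option autoImplicit false

namespace Pool.Agent.Lib.MP_e426f4_ag.DP

open Finset MvPolynomial Filter
open Pool.Agent.Lib.MP_e426f4_ag.DG (box)

theorem fam_pos (d s u l e e' : ℕ) (hP : Par d s u l e e') (M : Finset (Fin s →₀ ℕ))
    (hM : ∀ m ∈ M, m.degree = d) (hM' : ∀ i, Finsupp.single i d ∈ M) (G : Pol s)
    (hG : G.IsHomogeneous d) : ∃ c1 : ℝ, 0 < c1 ∧ ∀ᶠ H : ℕ in atTop,
      c1 * (2 * (H : ℝ) + 1) ^ M.card ≤
        (Set.ncard {c : M → ℤ | (∀ m, |c m| ≤ H) ∧ SmallF e' H (fmM G c)} : ℝ) := by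
  classical
  have hd := hP.hd
  have hs := hP.hs
  obtain ⟨R, Gr, sp, hcard, hGr, heq, hbd, g0, hg0⟩ := fmM_split d s (by omega) M hM hM' G hG
  obtain ⟨kap, eta, c0, c, hkap, heta, heta1, hc0, hc, hpos⟩ := posG d s hd (by omega)
  obtain ⟨om, hom, H1, h1⟩ := final_W d s u l e e' hP eta c0 (c / 2) heta heta1 hc0 (by positivity)
  obtain ⟨H2, h2⟩ := hpos om hom
  have hkapR : (1 : ℝ) ≤ kap := by exact_mod_cast hkap
  refine ⟨c / 2 * (1 / (2 * (kap : ℝ))) ^ R.card / 3 ^ M.card, by positivity, ?_⟩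
  rw [eventually_atTop]
  refine ⟨max (max H1 H2) (max (2 * kap * g0) 1), fun H hH => ?_⟩
  have hH1 : H1 ≤ H := (le_max_left _ _).trans ((le_max_left _ _).trans hH)
  have hH2 : H2 ≤ H := (le_max_right _ _).trans ((le_max_left _ _).trans hH)
  have hH3 : 2 * kap * g0 ≤ H := (le_max_left _ _).trans ((le_max_right _ _).trans hH)
  have hH4 : 1 ≤ H := (le_max_right _ _).trans ((le_max_right _ _).trans hH)
  obtain ⟨L, hL⟩ : ∃ L : ℕ, L = H / (2 * kap) := ⟨_, rfl⟩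
  have hL1 : 2 * kap * L ≤ H := by
    rw [hL]
    exact Nat.mul_div_le H (2 * kap)
  have hL2 : H < 2 * kap * (L + 1) := by
    rw [hL]
    exact Nat.lt_mul_div_succ H (by omega)
  have hkL : kap * (g0 + L) ≤ H := by
    have e1 : 2 * (kap * (g0 + L)) = 2 * kap * g0 + 2 * kap * L := by ring
    omega
  have hgL : g0 + L ≤ H := by
    have e1 : 1 * (g0 + L) ≤ kap * (g0 + L) := Nat.mul_le_mul_right _ hkap
    omega
  have hLH : L ≤ H := by omega
  obtain ⟨BR, hBR⟩ : ∃ BR : Finset (R → ℤ), BR = Fintype.piFinset fun _ => Icc (-(L : ℤ)) L := ⟨_, rfl⟩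
  have hBR1 : ∀ b ∈ BR, ∀ r, |b r| ≤ (L : ℤ) := by
    intro b hb r
    rw [hBR] at hb
    have h5 := Fintype.mem_piFinset.1 hb r
    rw [Finset.mem_Icc] at h5
    exact abs_le.2 h5
  have hBR2 : (BR.card : ℝ) = (2 * (L : ℝ) + 1) ^ R.card := by
    rw [hBR, Fintype.card_piFinset]
    have h5 : (Icc (-(L : ℤ)) L).card = 2 * L + 1 := by
      rw [Int.card_Icc]
      omega
    simp only [h5, Finset.prod_const, Finset.card_univ, Fintype.card_coe]
    push_cast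
    rfl
  -- one fibre
  obtain ⟨E, hE⟩ : ∃ E : (R → ℤ) → Finset (Fin s → ℤ), E = fun b =>
      (box s H).filter fun a : Fin s → ℤ => SmallF e' H (fm d (Gr b) a) := ⟨_, rfl⟩
  have hfib : ∀ b ∈ BR, c / 2 * (H : ℝ) ^ s ≤ ((E b).card : ℝ) := by
    intro b hb
    have hco : ∀ m, |coeff m (Gr b)| ≤ ((g0 + L : ℕ) : ℤ) := by
      intro m
      have h5 := hg0 b L (by positivity) (hBR1 b hb) m
      push_cast
      exact h5
    have k1 := h2 H hH2 (Gr b) (hGr b) (fun m => by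
      have h5 : (kap : ℤ) * |coeff m (Gr b)| ≤ (kap : ℤ) * ((g0 + L : ℕ) : ℤ) :=
        mul_le_mul_of_nonneg_left (hco m) (by positivity)
      have h6 : (kap : ℤ) * ((g0 + L : ℕ) : ℤ) ≤ H := by exact_mod_cast hkL
      exact h5.trans h6)
    have k2 := h1 H hH1 (Gr b) ⟨hGr b, fun m => (hco m).trans (by
      have h6 : g0 + L ≤ 2 * H := by omega
      exact_mod_cast h6)⟩
    obtain ⟨P, hPs⟩ : ∃ P : Finset (Fin s → ℤ), P = (box s H).filter fun a : Fin s → ℤ =>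
        PosR eta H (fm d (Gr b) a) ∧
        c0 * ((om.factorial : ℕ) : ℝ) ^ (s - 1) ≤ nuF om.factorial (fm d (Gr b) a) := ⟨_, rfl⟩
    obtain ⟨Q, hQs⟩ : ∃ Q : Finset (Fin s → ℤ), Q = (box s H).filter fun a : Fin s → ℤ =>
        PosR eta H (fm d (Gr b) a) ∧
        c0 * ((om.factorial : ℕ) : ℝ) ^ (s - 1) ≤ nuF om.factorial (fm d (Gr b) a) ∧
        ¬ SmallF e' H (fm d (Gr b) a) := ⟨_, rfl⟩
    have k1' : c * (H : ℝ) ^ s ≤ (P.card : ℝ) := by
      rw [hPs]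
      convert k1
    have k2' : (Q.card : ℝ) ≤ c / 2 * (H : ℝ) ^ s := by
      rw [hQs]
      convert k2
    have hsub : P ⊆ Q ∪ E b := by
      intro a ha
      rw [hPs, Finset.mem_filter] at ha
      rw [Finset.mem_union]
      by_cases h5 : SmallF e' H (fm d (Gr b) a)
      · right
        rw [hE]
        exact Finset.mem_filter.2 ⟨ha.1, h5⟩
      · left
        rw [hQs]
        exact Finset.mem_filter.2 ⟨ha.1, ha.2.1, ha.2.2, h5⟩
    have k3 : (P.card : ℝ) ≤ (Q.card : ℝ) + ((E b).card : ℝ) := by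
      exact_mod_cast (Finset.card_le_card hsub).trans (Finset.card_union_le _ _)
    linarith
  -- the set in the product
  obtain ⟨T, hT⟩ : ∃ T : Finset ((R → ℤ) × (Fin s → ℤ)), T =
      (BR ×ˢ box s H).filter fun q => SmallF e' H (fm d (Gr q.1) q.2) := ⟨_, rfl⟩
  have hTc : T.card = ∑ b ∈ BR, (E b).card := by
    rw [hT, Finset.card_filter, Finset.sum_product]
    refine Finset.sum_congr rfl fun b _ => ?_
    rw [hE, Finset.card_filter]
  have hTc2 : (BR.card : ℝ) * (c / 2 * (H : ℝ) ^ s) ≤ (T.card : ℝ) := by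
    rw [hTc]
    push_cast
    rw [← nsmul_eq_mul]
    exact Finset.card_nsmul_le_sum _ _ _ hfib
  have hfin : {c : M → ℤ | (∀ m, |c m| ≤ (H : ℤ)) ∧ SmallF e' H (fmM G c)}.Finite := by
    refine Set.Finite.subset (Fintype.piFinset fun _ : M => Icc (-(H : ℤ)) H).finite_toSet ?_
    rintro c ⟨hc1, -⟩
    rw [Finset.mem_coe, Fintype.mem_piFinset]
    exact fun m => Finset.mem_Icc.2 (abs_le.1 (hc1 m))
  have hsubT : (T : Set ((R → ℤ) × (Fin s → ℤ))) ⊆
      sp '' {c : M → ℤ | (∀ m, |c m| ≤ (H : ℤ)) ∧ SmallF e' H (fmM G c)} := by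
    intro q hq
    rw [Finset.mem_coe, hT, Finset.mem_filter, Finset.mem_product] at hq
    obtain ⟨⟨hq1, hq2⟩, hq3⟩ := hq
    refine ⟨sp.symm q, ⟨(hbd _ _).2 ⟨?_, ?_⟩, ?_⟩, sp.apply_symm_apply q⟩
    · rw [sp.apply_symm_apply]
      exact fun r => (hBR1 _ hq1 r).trans (by exact_mod_cast hLH)
    · rw [sp.apply_symm_apply]
      exact (mem_box s H _).1 hq2
    · rw [heq, sp.apply_symm_apply]
      exact hq3
  have hnc : T.card ≤ Set.ncard {c : M → ℤ | (∀ m, |c m| ≤ (H : ℤ)) ∧ SmallF e' H (fmM G c)} := by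
    rw [← Set.ncard_image_of_injective _ sp.injective, ← Set.ncard_coe_finset]
    exact Set.ncard_le_ncard hsubT (hfin.image _)
  have hncR : (T.card : ℝ) ≤
      (Set.ncard {c : M → ℤ | (∀ m, |c m| ≤ (H : ℤ)) ∧ SmallF e' H (fmM G c)} : ℝ) := by
    exact_mod_cast hnc
  refine le_trans ?_ (hTc2.trans hncR)
  rw [hBR2, hcard]
  have hHR : (1 : ℝ) ≤ H := by exact_mod_cast hH4
  have e1 : (2 * (H : ℝ) + 1) ^ (R.card + s) ≤ (3 * (H : ℝ)) ^ (R.card + s) :=
    pow_le_pow_left₀ (by positivity) (by linarith) _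
  have e2 : 1 / (2 * (kap : ℝ)) * H ≤ 2 * (L : ℝ) + 1 := by
    have h5 : (H : ℝ) ≤ 2 * kap * (L + 1) := by exact_mod_cast hL2.le
    rw [one_div, inv_mul_le_iff₀ (by positivity)]
    have h6 : (0 : ℝ) ≤ L := Nat.cast_nonneg _
    have h7 : 2 * (kap : ℝ) * (L + 1) ≤ 2 * kap * (2 * L + 1) :=
      mul_le_mul_of_nonneg_left (by linarith) (by positivity)
    linarith
  have e3 : (1 / (2 * (kap : ℝ)) * H) ^ R.card ≤ (2 * (L : ℝ) + 1) ^ R.card :=
    pow_le_pow_left₀ (by positivity) e2 _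
  calc c / 2 * (1 / (2 * (kap : ℝ))) ^ R.card / 3 ^ (R.card + s) * (2 * (H : ℝ) + 1) ^ (R.card + s)
      ≤ c / 2 * (1 / (2 * (kap : ℝ))) ^ R.card / 3 ^ (R.card + s) *
          (3 * (H : ℝ)) ^ (R.card + s) := mul_le_mul_of_nonneg_left e1 (by positivity)
    _ = (1 / (2 * (kap : ℝ)) * H) ^ R.card * (c / 2 * (H : ℝ) ^ s) := by
        rw [mul_pow, mul_pow (1 / (2 * (kap : ℝ))), pow_add (H : ℝ)]
        have h3 : (3 : ℝ) ^ (R.card + s) ≠ 0 := by positivity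
        field_simp
    _ ≤ (2 * (L : ℝ) + 1) ^ R.card * (c / 2 * (H : ℝ) ^ s) :=
        mul_le_mul_of_nonneg_right e3 (by positivity)

end Pool.Agent.Lib.MP_e426f4_ag.DP
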