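import Pool.Agent.Lib.MP_e426f4_ag.DP.Basic
import Pool.Agent.Lib.MP_e426f4_ag.DP.AlgDepR

/-!
# FewSing: almost all members of the family are smooth

`F = G + ∑_{m ∈ M} c_m m`, all pure powers `x_i^d` in `M`.  Let `x ≠ 0` be a common complex zero of the `∂_i F`,
`S = {i | x_i ≠ 0}`, `j ∈ S`; scale to `x_j = 1` (homogeneity).  Parameters `K_{S,j}`: the `c_m` for
`m ∈ M` which are not `x_i^d` with `i ∈ S`, and the `x_i`, `i ∈ S`, `i ≠ j`; these are `|M| - |S| + |S| - 1 = |M| - 1` parameters.  For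
`i ∈ S` the coefficient `c_i` of `x_i^d` satisfies `c_i d x_i^(d-1) = -(∂_i G(x) + ∑_{m ∈ M, m ≠ x_i^d} c_m ∂_i m (x))`, and the terms with
`m = x_l^d`, `l ≠ i`, do not contribute: so `D = d x_i^(d-1)` and `psi` = the right-hand side, polynomials in the parameters
(`x_j = 1`, `x_l = 0` for `l ∉ S`); for the other `m`: `D = 1`, `psi = c_m`.  `few_in_imageR` with `eps / (2^s s)`, union over `S`, `j`.
-/

set_option autoImplicit false

namespace Pool.Agent.Lib.MP_e426f4_ag.DP

open Finset MvPolynomial Filter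

variable {s d : ℕ} {M : Finset (Fin s →₀ ℕ)}

/-- scaling -/
private theorem fs_smul (f : Pol s) (k : ℕ) (hf : f.IsHomogeneous k) (l : ℂ) (x : Fin s → ℂ) :
    aeval (fun j => l * x j) f = l ^ k * aeval x f := by
  rw [aeval_def, aeval_def, eval₂_eq', eval₂_eq', Finset.mul_sum]
  refine Finset.sum_congr rfl fun m hm => ?_
  have h1 : m.degree = k := by
    have := hf (mem_support_iff.1 hm)
    rw [← this, Finsupp.degree_eq_weight_one]
    rfl
  have h2 : ∑ i, m i = k := by
    rw [← h1, Finsupp.degree_eq_sum]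
  have : ∏ i, (l * x i) ^ m i = l ^ k * ∏ i, x i ^ m i := by
    simp_rw [mul_pow]
    rw [Finset.prod_mul_distrib, Finset.prod_pow_eq_pow_sum, h2]
  rw [this]
  ring

private abbrev KK (d : ℕ) (M : Finset (Fin s →₀ ℕ)) (j : Fin s) : Type :=
  {m : M // (m : Fin s →₀ ℕ) ≠ Finsupp.single j d}

open Classical in
private noncomputable def par (d : ℕ) (j : Fin s) (m : M) : MvPolynomial (KK d M j) ℤ :=
  if h : (m : Fin s →₀ ℕ) ≠ Finsupp.single j d then X ⟨m, h⟩ else 0

open Classical in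
private noncomputable def xip (hM' : ∀ i, Finsupp.single i d ∈ M) (S : Finset (Fin s)) (j : Fin s)
    (i : Fin s) : MvPolynomial (KK d M j) ℤ :=
  if i = j then 1 else if i ∈ S then par d j ⟨Finsupp.single i d, hM' i⟩ else 0

private def isPure (d : ℕ) (S : Finset (Fin s)) (m : M) : Prop :=
  ∃ i, i ∈ S ∧ (m : Fin s →₀ ℕ) = Finsupp.single i d

open Classical in
private noncomputable def psip (hM' : ∀ i, Finsupp.single i d ∈ M) (G : Pol s)
    (S : Finset (Fin s)) (j : Fin s) (m : M) : MvPolynomial (KK d M j) ℤ :=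
  if h : isPure d S m then
    -(aeval (xip hM' S j) (pderiv h.choose G) +
      ∑ m' ∈ univ.filter (fun m' : M => ¬ isPure d S m'),
        par d j m' * aeval (xip hM' S j) (pderiv h.choose (monomial (m' : Fin s →₀ ℕ) (1 : ℤ))))
  else par d j m

open Classical in
private noncomputable def Dp (hM' : ∀ i, Finsupp.single i d ∈ M)
    (S : Finset (Fin s)) (j : Fin s) (m : M) : MvPolynomial (KK d M j) ℤ :=
  if h : isPure d S m then C (d : ℤ) * xip hM' S j h.choose ^ (d - 1) else 1

private theorem Dp_ne (hd : 2 ≤ d) (hM' : ∀ i, Finsupp.single i d ∈ M) (S : Finset (Fin s))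
    (j : Fin s) (m : M) : Dp hM' S j m ≠ 0 := by
  classical
  unfold Dp
  split_ifs with h
  · refine mul_ne_zero ?_ (pow_ne_zero _ ?_)
    · rw [Ne, C_eq_zero]
      exact_mod_cast (by omega : d ≠ 0)
    · have hi := h.choose_spec.1
      unfold xip
      split_ifs with h1
      · exact one_ne_zero
      · unfold par
        rw [dif_pos]
        · exact X_ne_zero _
        · intro h2
          exact h1 (Finsupp.single_left_injective (by omega : d ≠ 0) h2)
  · exact one_ne_zero

private theorem single_inj (hd : 2 ≤ d) {i l : Fin s} (h : Finsupp.single i d = Finsupp.single l d) :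
    i = l := Finsupp.single_left_injective (by omega : d ≠ 0) h

/-- a singular member is in the image of one of the maps -/
private theorem fs_key (hd : 2 ≤ d) (hM' : ∀ i, Finsupp.single i d ∈ M) (G : Pol s)
    (c : M → ℤ) (S : Finset (Fin s)) (j : Fin s) (y : Fin s → ℂ) (hj : j ∈ S) (hyj : y j = 1)
    (hS : ∀ i, i ∈ S ↔ y i ≠ 0) (h0 : ∀ i, aeval y (pderiv i (fmM G c)) = 0) :
    ∃ z : KK d M j → ℂ, ∀ m, aeval z (Dp hM' S j m) ≠ 0 ∧
      aeval z (psip hM' G S j m) = (c m : ℂ) * aeval z (Dp hM' S j m) := by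
  classical
  let z : KK d M j → ℂ := fun k => if h : isPure d S k.1 then y h.choose else (c k.1 : ℂ)
  have hxi : ∀ i, aeval z (xip hM' S j i) = y i := by
    intro i
    unfold xip
    split_ifs with h1 h2
    · rw [map_one, h1, hyj]
    · unfold par
      have h3 : (Finsupp.single i d : Fin s →₀ ℕ) ≠ Finsupp.single j d :=
        fun h => h1 (single_inj hd h)
      rw [dif_pos h3, aeval_X]
      have h4 : isPure d S (⟨Finsupp.single i d, hM' i⟩ : M) := ⟨i, h2, rfl⟩
      change (if h : isPure d S (⟨Finsupp.single i d, hM' i⟩ : M) then y h.choose else _) = _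
      rw [dif_pos h4]
      congr 1
      exact (single_inj hd h4.choose_spec.2).symm
    · rw [map_zero]
      by_contra h3
      exact h2 ((hS i).2 fun h => h3 h.symm)
  have hpar : ∀ m : M, ¬ isPure d S m → aeval z (par d j m) = (c m : ℂ) := by
    intro m hm
    unfold par
    have h3 : (m : Fin s →₀ ℕ) ≠ Finsupp.single j d := fun h => hm ⟨j, hj, h⟩
    rw [dif_pos h3, aeval_X]
    change (if h : isPure d S m then y h.choose else (c m : ℂ)) = _
    rw [dif_neg hm]
  have hcomp : ∀ P : Pol s, aeval z (aeval (xip hM' S j) P) = aeval y P := by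
    intro P
    have h1 := congrArg (fun φ : Pol s →ₐ[ℤ] ℂ => φ P)
      (comp_aeval (f := xip hM' S j) ((aeval z : MvPolynomial (KK d M j) ℤ →ₐ[ℤ] ℂ)))
    have h2 : (fun i => aeval z (xip hM' S j i)) = y := funext hxi
    rw [h2] at h1
    exact h1
  refine ⟨z, fun m => ?_⟩
  unfold Dp psip
  by_cases hm : isPure d S m
  · rw [dif_pos hm, dif_pos hm]
    set i := hm.choose with hi
    have hiS : i ∈ S := hm.choose_spec.1
    have hmi : (m : Fin s →₀ ℕ) = Finsupp.single i d := hm.choose_spec.2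
    have hyi : y i ≠ 0 := (hS i).1 hiS
    have hD : aeval z (C (d : ℤ) * xip hM' S j i ^ (d - 1)) = (d : ℂ) * y i ^ (d - 1) := by
      rw [map_mul, map_pow, hxi, aeval_C]
      simp
    refine ⟨?_, ?_⟩
    · rw [hD]
      exact mul_ne_zero (by exact_mod_cast (by omega : d ≠ 0)) (pow_ne_zero _ hyi)
    · rw [hD, map_neg, map_add, hcomp, map_sum]
      have h1 := h0 i
      unfold fmM at h1
      rw [map_add, map_add, map_sum, map_sum] at h1
      have h2 : ∀ m' : M, aeval y (pderiv i (monomial (m' : Fin s →₀ ℕ) (c m'))) =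
          (c m' : ℂ) * aeval y (pderiv i (monomial (m' : Fin s →₀ ℕ) (1 : ℤ))) := by
        intro m'
        rw [pderiv_monomial, pderiv_monomial, aeval_monomial, aeval_monomial]
        simp
        ring
      rw [Finset.sum_congr rfl fun m' _ => h2 m',
        ← Finset.sum_filter_add_sum_filter_not univ (fun m' : M => isPure d S m')] at h1
      have h3 : ∑ m' ∈ univ.filter (fun m' : M => isPure d S m'),
          (c m' : ℂ) * aeval y (pderiv i (monomial (m' : Fin s →₀ ℕ) (1 : ℤ))) =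
          (c m : ℂ) * ((d : ℂ) * y i ^ (d - 1)) := by
        rw [Finset.sum_eq_single m]
        · rw [hmi, pderiv_monomial, aeval_monomial]
          congr 1
          have h4 : (Finsupp.single i d : Fin s →₀ ℕ) - Finsupp.single i 1 =
              Finsupp.single i (d - 1) := by
            rw [← Finsupp.single_tsub]
          rw [h4, Finsupp.prod_single_index (h := fun i k => y i ^ k) (pow_zero _)]
          simp
        · intro m' hm' hne
          obtain ⟨l, hl, hml⟩ := (Finset.mem_filter.1 hm').2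
          have hli : l ≠ i := by
            rintro rfl
            apply hne
            apply Subtype.ext
            rw [hml, hmi]
          rw [hml, pderiv_monomial, Finsupp.single_eq_of_ne hli.symm]
          simp
        · intro h
          exact absurd (Finset.mem_filter.2 ⟨Finset.mem_univ _, hm⟩) h
      rw [h3] at h1
      have h5 : ∑ m' ∈ univ.filter (fun m' : M => ¬ isPure d S m'),
          aeval z (par d j m' * aeval (xip hM' S j) (pderiv i (monomial (m' : Fin s →₀ ℕ)
            (1 : ℤ)))) = ∑ m' ∈ univ.filter (fun m' : M => ¬ isPure d S m'),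
          (c m' : ℂ) * aeval y (pderiv i (monomial (m' : Fin s →₀ ℕ) (1 : ℤ))) := by
        refine Finset.sum_congr rfl fun m' hm' => ?_
        rw [map_mul, hcomp, hpar m' (Finset.mem_filter.1 hm').2]
      rw [h5]
      linear_combination -h1
  · rw [dif_neg hm, dif_neg hm, map_one]
    exact ⟨one_ne_zero, by rw [hpar m hm, mul_one]⟩

private theorem card_KK (hM' : ∀ i, Finsupp.single i d ∈ M) (j : Fin s)
    [Fintype (KK d M j)] : Fintype.card (KK d M j) < Fintype.card M := by
  classical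
  refine Fintype.card_lt_of_injective_of_notMem (fun k : KK d M j => k.1)
    Subtype.val_injective (b := ⟨Finsupp.single j d, hM' j⟩) ?_
  rintro ⟨k, hk⟩
  apply k.2
  have := congrArg Subtype.val hk
  exact this

theorem few_sing (d s : ℕ) (hd : 2 ≤ d) (M : Finset (Fin s →₀ ℕ)) (hM : ∀ m ∈ M, m.degree = d)
    (hM' : ∀ i, Finsupp.single i d ∈ M) (G : Pol s) (hG : G.IsHomogeneous d) (eps : ℝ)
    (heps : 0 < eps) : ∀ᶠ H : ℕ in atTop,
      (Set.ncard {c : M → ℤ | (∀ m, |c m| ≤ H) ∧ ¬ SmoothF (fmM G c)} : ℝ) ≤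
        eps * (2 * H + 1) ^ M.card := by
  classical
  have hT : (0 : ℝ) < (Fintype.card (Finset (Fin s) × Fin s) : ℝ) + 1 := by positivity
  have h1 : ∀ t : Finset (Fin s) × Fin s, ∀ᶠ H : ℕ in atTop,
      (Set.ncard {A : M → ℤ | (∀ i, |A i| ≤ H) ∧ ∃ z : KK d M t.2 → ℂ, ∀ i,
        aeval z (Dp hM' t.1 t.2 i) ≠ 0 ∧
        aeval z (psip hM' G t.1 t.2 i) = (A i : ℂ) * aeval z (Dp hM' t.1 t.2 i)} : ℝ) ≤
      (eps / ((Fintype.card (Finset (Fin s) × Fin s) : ℝ) + 1)) * (2 * H + 1) ^
        Fintype.card M := fun t =>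
    few_in_imageR (card_KK hM' t.2) (psip hM' G t.1 t.2) (Dp hM' t.1 t.2)
      (Dp_ne hd hM' t.1 t.2) _ (by positivity)
  filter_upwards [(Filter.eventually_all (ι := Finset (Fin s) × Fin s)).2 h1] with H hH
  rw [Fintype.card_coe] at hH
  have hfin : ∀ P : (M → ℤ) → Prop, {A : M → ℤ | (∀ i, |A i| ≤ (H : ℤ)) ∧ P A}.Finite := by
    intro P
    refine (Set.Finite.pi' (fun _ : M => Set.finite_Icc (-(H : ℤ)) H)).subset ?_
    intro A hA i
    exact abs_le.1 (hA.1 i)
  have hsub : {c : M → ℤ | (∀ m, |c m| ≤ (H : ℤ)) ∧ ¬ SmoothF (fmM G c)} ⊆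
      ⋃ t : Finset (Fin s) × Fin s, {A : M → ℤ | (∀ i, |A i| ≤ (H : ℤ)) ∧
        ∃ z : KK d M t.2 → ℂ, ∀ i, aeval z (Dp hM' t.1 t.2 i) ≠ 0 ∧
        aeval z (psip hM' G t.1 t.2 i) = (A i : ℂ) * aeval z (Dp hM' t.1 t.2 i)} := by
    rintro c ⟨hc, hs⟩
    unfold SmoothF at hs
    push Not at hs
    obtain ⟨x, hx, h0⟩ := hs
    obtain ⟨j, hj⟩ : ∃ j, x j ≠ 0 := by
      by_contra h
      push Not at h
      exact hx (funext h)
    rw [Set.mem_iUnion]
    refine ⟨(univ.filter fun i => (x j)⁻¹ * x i ≠ 0, j), hc, ?_⟩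
    refine fs_key hd hM' G c _ j (fun i => (x j)⁻¹ * x i) ?_ (inv_mul_cancel₀ hj) ?_ ?_
    · rw [Finset.mem_filter]
      exact ⟨Finset.mem_univ _, mul_ne_zero (inv_ne_zero hj) hj⟩
    · intro i
      rw [Finset.mem_filter]
      exact ⟨fun h => h.2, fun h => ⟨Finset.mem_univ _, h⟩⟩
    · intro i
      have hhom : (fmM G c).IsHomogeneous d := by
        unfold fmM
        refine hG.add (IsHomogeneous.sum _ _ _ fun m _ => ?_)
        refine isHomogeneous_monomial _ ?_
        exact hM m m.2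
      rw [fs_smul _ (d - 1) hhom.pderiv, h0 i, mul_zero]
  have hcard : (Set.ncard {c : M → ℤ | (∀ m, |c m| ≤ (H : ℤ)) ∧ ¬ SmoothF (fmM G c)}) ≤
      ∑ t : Finset (Fin s) × Fin s, Set.ncard {A : M → ℤ | (∀ i, |A i| ≤ (H : ℤ)) ∧
        ∃ z : KK d M t.2 → ℂ, ∀ i, aeval z (Dp hM' t.1 t.2 i) ≠ 0 ∧
        aeval z (psip hM' G t.1 t.2 i) = (A i : ℂ) * aeval z (Dp hM' t.1 t.2 i)} := by
    refine (Set.ncard_le_ncard hsub ?_).trans (Set.ncard_iUnion_le_of_fintype _)
    exact Set.finite_iUnion fun t => hfin _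
  have hcard' : (Set.ncard {c : M → ℤ | (∀ m, |c m| ≤ (H : ℤ)) ∧ ¬ SmoothF (fmM G c)} : ℝ) ≤
      ∑ t : Finset (Fin s) × Fin s, (Set.ncard {A : M → ℤ | (∀ i, |A i| ≤ (H : ℤ)) ∧
        ∃ z : KK d M t.2 → ℂ, ∀ i, aeval z (Dp hM' t.1 t.2 i) ≠ 0 ∧
        aeval z (psip hM' G t.1 t.2 i) = (A i : ℂ) * aeval z (Dp hM' t.1 t.2 i)} : ℝ) := by
    exact_mod_cast hcard
  refine hcard'.trans ((Finset.sum_le_sum fun t _ => hH t).trans ?_)
  rw [Finset.sum_const, nsmul_eq_mul, Finset.card_univ]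
  have h3 : (0 : ℝ) ≤ (2 * (H : ℝ) + 1) ^ M.card := by positivity
  rw [← mul_assoc]
  refine mul_le_mul_of_nonneg_right ?_ h3
  rw [mul_div_assoc', div_le_iff₀ hT]
  nlinarith

end Pool.Agent.Lib.MP_e426f4_ag.DP
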