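import Pool.Agent.Lib.MP_e426f4_ag.DP.Defs
import Pool.Agent.Lib.MP_e426f4_ag.DK.SuEx

/-!
# SuG: existence of the parameters, with a larger prime

Take `S` from `DK.exists_su` and replace the prime `P` by a prime larger than `Cst H B^d` and
`8 (s + 2) H B^d` (`Nat.exists_infinite_primes`): no other field depends on `P`.
-/

set_option autoImplicit false

namespace Pool.Agent.Lib.MP_e426f4_ag.DP

open Finset
open Pool.Agent.Lib.MP_e426f4_ag.DG
open Pool.Agent.Lib.MP_e426f4_ag.DK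

theorem exists_suG (d s u l e m w E R0 Cst : ℕ) (hd : 4 ≤ d) (hs : d + 4 ≤ s)
    (hle : (d + 1) * (e + 1) + 1 ≤ d * l) (hlu : l ≤ u) (hul : u ≤ d * l) (hm : 4 * u + 20 ≤ m)
    (hmw : cW d s u * m ≤ w) (hE : 2 ≤ E) :
    ∃ H0 : ℕ, ∀ H : ℕ, H0 ≤ H → ∃ S : Su d s u l e m w E, S.H = H ∧ R0 ≤ S.R ∧
      Cst * S.H * S.B ^ d < S.P := by
  obtain ⟨H0, hH0⟩ := exists_su d s u l e m w E R0 hd hs hle hlu hul hm hmw hE
  refine ⟨H0, fun H hH => ?_⟩
  obtain ⟨S, hSH, hSR⟩ := hH0 H hH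
  obtain ⟨P, hPle, hP⟩ := Nat.exists_infinite_primes
    (Cst * S.H * S.B ^ d + 8 * (s + 2) * S.H * (4 ^ u * S.R ^ (w * u + m)) ^ d + 1)
  refine ⟨{ S with P := P, prime := hP, hP := by omega }, hSH, hSR, ?_⟩
  show Cst * S.H * S.B ^ d < P
  omega

end Pool.Agent.Lib.MP_e426f4_ag.DP
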