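import Pool.Agent.Lib.MP_e426f4_ag.DP.PSing
import Pool.Agent.Lib.MP_e426f4_ag.DG.BoxRes

/-!
# PadicExcG: exceptional coefficients at a prime, uniformly in `G`

`psing` with `eps / 4^s` gives `k1`; `k0 := k1` (or `k1 + 1`), `k = k0 + 1`, `H0 = p^k`.  Let `a` be such that `F = fm d G a` has a
zero `≠ 0` over `ℚ_p` and `¬ GoodP p k0 F`.  Scale the zero to a primitive zero in `ℤ_p^s` and approximate it by an integral
vector `x` modulo `p^(2 k0 + 1)`: `x` is primitive and `p^(2 k0 + 1) ∣ F(x)`, so `p^(k0+1) ∣ ∂_i F(x)` for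
all `i`.  The class of `a` modulo `p^k` is one of those of `psing` (`evZ_pderiv_fm_congr`); `box_residue` with the modulus `p^k ≤ H`:
`eps/4^s p^(ks) (4 H / p^k)^s = eps H^s`.
-/

set_option autoImplicit false

namespace Pool.Agent.Lib.MP_e426f4_ag.DP

open Finset MvPolynomial
open Pool.Agent.Lib.MP_e426f4_ag.DG (box)

private theorem aeval_hom {s : ℕ} {R S : Type} [CommRing R] [CommRing S] (y : Fin s → R)
    (φ : R →+* S) (F : Pol s) : φ (aeval y F) = aeval (fun i => φ (y i)) F := by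
  rw [aeval_def, aeval_def, eval₂_eq', eval₂_eq', map_sum]
  refine Finset.sum_congr rfl (fun m _ => ?_)
  simp [map_prod]

private theorem aeval_smul_hom {s d : ℕ} {K : Type} [Field K] (F : Pol s)
    (hF : F.IsHomogeneous d) (c : K) (x : Fin s → K) :
    aeval (fun i => c * x i) F = c ^ d * aeval x F := by
  rw [aeval_def, aeval_def, eval₂_eq', eval₂_eq', Finset.mul_sum]
  refine Finset.sum_congr rfl (fun m hm => ?_)
  have h1 : ∏ i, (c * x i) ^ m i = c ^ d * ∏ i, x i ^ m i := by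
    simp only [mul_pow]
    rw [Finset.prod_mul_distrib, Finset.prod_pow_eq_pow_sum]
    have h2 : ∑ i, m i = d := by
      have h3 := hF (mem_support_iff.1 hm)
      have h4 : (Finsupp.weight (1 : Fin s → ℕ)) m = Finsupp.degree m :=
        (DFunLike.congr_fun Finsupp.degree_eq_weight_one m).symm
      rw [h4, Finsupp.degree_eq_sum] at h3
      exact h3
    rw [h2]
  rw [h1]
  ring

/-- a zero over `ℚ_p` gives a primitive integral vector which is a zero modulo `p ^ n` -/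
private theorem exists_approx {s d p : ℕ} [hp : Fact p.Prime] (F : Pol s)
    (hF : F.IsHomogeneous d) (h : Zer ℚ_[p] F) (n : ℕ) (hn : 1 ≤ n) :
    ∃ z : Fin s → ℤ, (∃ i, ¬ (p : ℤ) ∣ z i) ∧ (p : ℤ) ^ n ∣ evZ F z := by
  obtain ⟨x, hx0, hx⟩ := h
  have hne : (Finset.univ : Finset (Fin s)).Nonempty := by
    by_contra hcon
    rw [Finset.not_nonempty_iff_eq_empty] at hcon
    apply hx0
    funext i
    exact absurd (Finset.mem_univ i) (by rw [hcon]; simp)
  obtain ⟨i0, -, hi0⟩ := Finset.exists_max_image Finset.univ (fun i => ‖x i‖) hne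
  have hxi0 : x i0 ≠ 0 := by
    intro h0
    apply hx0
    funext i
    have h1 := hi0 i (Finset.mem_univ i)
    rw [h0, norm_zero] at h1
    exact norm_le_zero_iff.1 h1
  have hy : ∀ i, ‖(x i0)⁻¹ * x i‖ ≤ 1 := by
    intro i
    rw [norm_mul, norm_inv]
    have h1 := hi0 i (Finset.mem_univ i)
    have h2 : 0 < ‖x i0‖ := norm_pos_iff.2 hxi0
    rw [inv_mul_le_iff₀ h2, mul_one]
    exact h1
  set y : Fin s → ℤ_[p] := fun i => ⟨(x i0)⁻¹ * x i, hy i⟩ with hydef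
  have hyF : aeval y F = 0 := by
    have h1 : ((aeval y F : ℤ_[p]) : ℚ_[p]) = aeval (fun i => ((y i : ℤ_[p]) : ℚ_[p])) F := by
      have h2 := aeval_hom y (PadicInt.Coe.ringHom (p := p)) F
      exact h2
    have h3 : aeval (fun i => ((y i : ℤ_[p]) : ℚ_[p])) F = 0 := by
      have h4 : (fun i => ((y i : ℤ_[p]) : ℚ_[p])) = fun i => (x i0)⁻¹ * x i := rfl
      rw [h4, aeval_smul_hom F hF, hx, mul_zero]
    rw [h3] at h1
    exact Subtype.ext h1
  have : NeZero (p ^ n) := ⟨pow_ne_zero n hp.out.ne_zero⟩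
  set z : Fin s → ℤ := fun i => ((PadicInt.toZModPow n (y i)).val : ℤ) with hzdef
  have hz : ∀ i, ((z i : ℤ) : ZMod (p ^ n)) = PadicInt.toZModPow n (y i) := by
    intro i
    simp [hzdef]
  refine ⟨z, ⟨i0, ?_⟩, ?_⟩
  · intro hdvd
    have h1 : y i0 = 1 := by
      apply Subtype.ext
      simp [hydef, hxi0]
    have h2 := hz i0
    rw [h1, map_one] at h2
    have h3 : ((z i0 - 1 : ℤ) : ZMod (p ^ n)) = 0 := by
      push_cast
      rw [h2, sub_self]
    rw [ZMod.intCast_zmod_eq_zero_iff_dvd] at h3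
    have h4 : (p : ℤ) ∣ z i0 - 1 := by
      refine dvd_trans ?_ h3
      push_cast
      exact dvd_pow_self _ (by omega)
    have h5 : (p : ℤ) ∣ 1 := by
      have := dvd_sub hdvd h4
      simpa using this
    have h6 : p ∣ 1 := by exact_mod_cast h5
    exact hp.out.one_lt.ne' (Nat.dvd_one.1 h6)
  · have h1 : ((evZ F z : ℤ) : ZMod (p ^ n)) = PadicInt.toZModPow n (aeval y F) := by
      have h2 := aeval_hom y (PadicInt.toZModPow n) F
      rw [h2]
      have h3 : (fun i => PadicInt.toZModPow n (y i)) = fun i => ((z i : ℤ) : ZMod (p ^ n)) := by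
        funext i
        exact (hz i).symm
      rw [h3]
      have h4 := aeval_hom z (Int.castRingHom (ZMod (p ^ n))) F
      have h5 : evZ F z = aeval z F := by
        unfold evZ
        rw [aeval_def, eval₂_eq', eval_eq']
        rfl
      rw [h5]
      exact h4
    rw [hyF, map_zero, ZMod.intCast_zmod_eq_zero_iff_dvd] at h1
    exact_mod_cast h1

open Classical in
theorem padic_excG (d s p : ℕ) (hd : 2 ≤ d) (hs : 1 ≤ s) [hp : Fact p.Prime] (eps : ℝ)
    (heps : 0 < eps) : ∃ k0 H0 : ℕ, ∀ H : ℕ, H0 ≤ H → ∀ G : Pol s, G.IsHomogeneous d →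
    (((box s H).filter fun a : Fin s → ℤ => Zer ℚ_[p] (fm d G a) ∧
      ¬ GoodP p k0 (fm d G a)).card : ℝ) ≤ eps * (H : ℝ) ^ s := by
  obtain ⟨k1, hk1⟩ := psing d s p hd hs hp.out (eps / 4 ^ s) (by positivity)
  refine ⟨k1, p ^ (k1 + 1), fun H hH G hG => ?_⟩
  have hB := hk1 (k1 + 1) (Nat.le_succ k1) G hG
  set Bd := ((Fintype.piFinset fun _ : Fin s => range (p ^ (k1 + 1))).filter
    fun a : Fin s → ℕ => ∃ x : Fin s → ℤ, (∃ i, ¬ (p : ℤ) ∣ x i) ∧
        ∀ i, (p : ℤ) ^ (k1 + 1) ∣ evZ (pderiv i (fm d G fun i => (a i : ℤ))) x) with hBd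
  have hm : 1 ≤ p ^ (k1 + 1) := Nat.one_le_pow _ _ hp.out.pos
  have hres := DG.box_residue s H (p ^ (k1 + 1)) hm hH Bd
  have hsub : ((box s H).filter fun a : Fin s → ℤ => Zer ℚ_[p] (fm d G a) ∧
      ¬ GoodP p k1 (fm d G a)) ⊆ ((box s H).filter fun a : Fin s → ℤ =>
        ∃ r ∈ Bd, ∀ i, a i ≡ r i [ZMOD (p ^ (k1 + 1) : ℕ)]) := by
    intro a ha
    rw [mem_filter] at ha ⊢
    obtain ⟨ha1, hz, hng⟩ := ha
    refine ⟨ha1, ?_⟩
    obtain ⟨z, hzp, hzF⟩ := exists_approx (fm d G a) (hom_fm d G hG a) hz (2 * k1 + 1) (by omega)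
    have hall : ∀ i, (p : ℤ) ^ (k1 + 1) ∣ evZ (pderiv i (fm d G a)) z := by
      intro i
      by_contra hcon
      exact hng ⟨z, hzF, i, hcon⟩
    have hmz : ((p ^ (k1 + 1) : ℕ) : ℤ) ≠ 0 := by positivity
    have hr : ∀ i, ((a i % ((p ^ (k1 + 1) : ℕ) : ℤ)).toNat : ℤ) =
        a i % ((p ^ (k1 + 1) : ℕ) : ℤ) := fun i => Int.toNat_of_nonneg (Int.emod_nonneg _ hmz)
    have hcg : ∀ i, a i ≡ (((a i % ((p ^ (k1 + 1) : ℕ) : ℤ)).toNat : ℕ) : ℤ)
        [ZMOD (p ^ (k1 + 1) : ℕ)] := by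
      intro i
      rw [hr i]
      exact (Int.mod_modEq _ _).symm
    refine ⟨fun i => (a i % ((p ^ (k1 + 1) : ℕ) : ℤ)).toNat, ?_, hcg⟩
    rw [hBd, mem_filter, Fintype.mem_piFinset]
    refine ⟨fun i => ?_, z, hzp, fun i => ?_⟩
    · rw [mem_range]
      have h1 := Int.emod_lt_of_pos (a i) (show (0 : ℤ) < ((p ^ (k1 + 1) : ℕ) : ℤ) by positivity)
      rw [← hr i] at h1
      exact_mod_cast h1
    · have h2 := evZ_pderiv_fm_congr d G a
        (fun i => (((a i % ((p ^ (k1 + 1) : ℕ) : ℤ)).toNat : ℕ) : ℤ)) z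
        ((p ^ (k1 + 1) : ℕ) : ℤ) i hcg
      have h3 : ((p ^ (k1 + 1) : ℕ) : ℤ) ∣ evZ (pderiv i (fm d G a)) z := by
        push_cast
        exact hall i
      have h4 := (Int.modEq_zero_iff_dvd.1 (h2.symm.trans (Int.modEq_zero_iff_dvd.2 h3)))
      push_cast at h4 ⊢
      exact h4
  have hmr : (0 : ℝ) < ((p ^ (k1 + 1) : ℕ) : ℝ) := by exact_mod_cast hm
  calc (((box s H).filter fun a : Fin s → ℤ => Zer ℚ_[p] (fm d G a) ∧
      ¬ GoodP p k1 (fm d G a)).card : ℝ)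
      ≤ (((box s H).filter fun a : Fin s → ℤ =>
        ∃ r ∈ Bd, ∀ i, a i ≡ r i [ZMOD (p ^ (k1 + 1) : ℕ)]).card : ℝ) := by
          exact_mod_cast card_le_card hsub
    _ ≤ Bd.card * (4 * (H : ℝ) / ((p ^ (k1 + 1) : ℕ) : ℝ)) ^ s := hres
    _ ≤ (eps / 4 ^ s * (p : ℝ) ^ ((k1 + 1) * s)) *
        (4 * (H : ℝ) / ((p ^ (k1 + 1) : ℕ) : ℝ)) ^ s :=
          mul_le_mul_of_nonneg_right hB (by positivity)
    _ = eps * (H : ℝ) ^ s := by
        rw [div_pow, mul_pow, pow_mul]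
        push_cast
        have h5 : ((p : ℝ) ^ (k1 + 1)) ^ s ≠ 0 := by
          have : (0 : ℝ) < (p : ℝ) := by exact_mod_cast hp.out.pos
          positivity
        field_simp

end Pool.Agent.Lib.MP_e426f4_ag.DP
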