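import Pool.Agent.Lib.MP_e426f4_ag.DP.NuLargeG
import Pool.Agent.Lib.MP_e426f4_ag.DP.NuSmallG
import Pool.Agent.Lib.MP_e426f4_ag.DP.PadicExcG
import Pool.Agent.Lib.MP_e426f4_ag.DP.NuProd

/-!
# LocExcG: the local exceptional set, uniformly in `G` (adapt `DH/LocExc.lean`)

`p0 ≥ max d 5` with `∑_{p > p0} C/p² ≤ eps/2` (`nu_largeG` with `q0 = 1`); for each prime `p ≤ p0` `padic_excG` with
`eps / (2 (p0 + 1))` gives `k_p`; `kk = max (2 k_p + 1)(s - 1)`, `c0 = 1/2 (∏_{p ≤ p0} p^kk)⁻¹`; `H0` = max of `om` and the `H0` of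
`padic_excG`.  Outside the exceptional sets `nu_smallG` and the complement of `nu_largeG` give the hypotheses of `nu_fac`.
-/

set_option autoImplicit false

namespace Pool.Agent.Lib.MP_e426f4_ag.DP

open Finset MvPolynomial
open Pool.Agent.Lib.MP_e426f4_ag.DG (box)

private theorem lg_sum_sq_le (T : Finset ℕ) (p0 N : ℕ) (hp0 : 1 ≤ p0)
    (hT : ∀ p ∈ T, p0 < p ∧ p ≤ N) :
    ∑ p ∈ T, ((p : ℝ) ^ 2)⁻¹ ≤ (p0 : ℝ)⁻¹ := by
  rcases le_or_gt p0 N with h | h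
  · calc ∑ p ∈ T, ((p : ℝ) ^ 2)⁻¹ ≤ ∑ p ∈ Ioc p0 N, ((p : ℝ) ^ 2)⁻¹ := by
          apply Finset.sum_le_sum_of_subset_of_nonneg
          · intro p hp
            exact Finset.mem_Ioc.2 (hT p hp)
          · intro p _ _
            positivity
      _ ≤ (p0 : ℝ)⁻¹ - (N : ℝ)⁻¹ := sum_Ioc_inv_sq_le_sub (by omega) h
      _ ≤ (p0 : ℝ)⁻¹ := by
          have : (0 : ℝ) ≤ (N : ℝ)⁻¹ := by positivity
          linarith
  · have : T = ∅ := by
      apply Finset.eq_empty_of_forall_notMem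
      intro p hp
      have := hT p hp
      omega
    rw [this]
    simp

open Classical in
private theorem lg_padic (d s : ℕ) (hd : 2 ≤ d) (hs : 1 ≤ s) (eps : ℝ) (heps : 0 < eps) (p : ℕ) :
    ∃ k0 H0 : ℕ, p.Prime → ∀ H : ℕ, H0 ≤ H → ∀ G : Pol s, G.IsHomogeneous d →
    (((box s H).filter fun a : Fin s → ℤ => (∀ [Fact p.Prime], Zer ℚ_[p] (fm d G a)) ∧
      ¬ GoodP p k0 (fm d G a)).card : ℝ) ≤ eps * (H : ℝ) ^ s := by
  by_cases hp : p.Prime
  · have : Fact p.Prime := ⟨hp⟩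
    obtain ⟨k0, H0, h⟩ := padic_excG d s p hd hs eps heps
    refine ⟨k0, H0, fun _ H hH G hG => ?_⟩
    refine le_trans ?_ (h H hH G hG)
    have hsub : ((box s H).filter fun a : Fin s → ℤ =>
        (∀ [Fact p.Prime], Zer ℚ_[p] (fm d G a)) ∧ ¬ GoodP p k0 (fm d G a)) ⊆
        (box s H).filter fun a : Fin s → ℤ => Zer ℚ_[p] (fm d G a) ∧
          ¬ GoodP p k0 (fm d G a) := by
      intro a ha
      rw [Finset.mem_filter] at ha ⊢
      exact ⟨ha.1, ha.2.1, ha.2.2⟩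
    exact_mod_cast Finset.card_le_card hsub
  · exact ⟨0, 0, fun h => absurd h hp⟩

open Classical in
theorem loc_excG (d s : ℕ) (hd : 4 ≤ d) (hs : 8 ≤ s) (eps : ℝ) (heps : 0 < eps) :
    ∃ c0 : ℝ, 0 < c0 ∧ ∀ om : ℕ, 1 ≤ om → ∃ H0 : ℕ, ∀ H : ℕ, H0 ≤ H → ∀ G : Pol s,
    G.IsHomogeneous d →
    (((box s H).filter fun a : Fin s → ℤ => (∀ (p : ℕ) [Fact p.Prime], Zer ℚ_[p] (fm d G a)) ∧
      nuF om.factorial (fm d G a) < c0 * ((om.factorial : ℕ) : ℝ) ^ (s - 1)).card : ℝ) ≤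
      eps * (H : ℝ) ^ s := by
  obtain ⟨C, hC, hlarge⟩ := nu_largeG d s hd hs
  obtain ⟨p0, hp0⟩ : ∃ p0 : ℕ, d ≤ p0 ∧ 5 ≤ p0 ∧ 2 * C / eps ≤ p0 := by
    obtain ⟨k, hk⟩ := exists_nat_ge (2 * C / eps)
    refine ⟨max (max d 5) k, by omega, by omega, hk.trans ?_⟩
    exact_mod_cast le_max_right _ _
  obtain ⟨hp0d, hp05, hp0C⟩ := hp0
  have heps' : 0 < eps / (2 * ((p0 : ℝ) + 1)) := by positivity
  choose kf Hf hf using fun p : ℕ =>
    lg_padic d s (by omega) (by omega) (eps / (2 * ((p0 : ℝ) + 1))) heps' p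
  set kk : ℕ := ∑ p ∈ range (p0 + 1), (2 * kf p + 1) * (s - 1) with hkk
  set A : ℝ := ∏ p ∈ (range (p0 + 1)).filter Nat.Prime, (p : ℝ) ^ kk with hA
  have hA0 : 0 < A := Finset.prod_pos fun p hp => by
    have := (Finset.mem_filter.1 hp).2.pos
    positivity
  refine ⟨1 / 2 * A⁻¹, by positivity,
    fun om hom => ⟨max om (∑ p ∈ range (p0 + 1), Hf p), fun H hH G hG => ?_⟩⟩
  have hHom : om ≤ H := (le_max_left _ _).trans hH
  have hHp : ∀ p, p ≤ p0 → Hf p ≤ H := fun p hp =>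
    (Finset.single_le_sum (f := fun p => Hf p) (fun _ _ => Nat.zero_le _)
      (Finset.mem_range.2 (by omega : p < p0 + 1))).trans ((le_max_right _ _).trans hH)
  -- the exceptional sets
  set S1 : ℕ → Finset (Fin s → ℤ) := fun p =>
    (box s H).filter fun a : Fin s → ℤ => (∀ [Fact p.Prime], Zer ℚ_[p] (fm d G a)) ∧
      ¬ GoodP p (kf p) (fm d G a) with hS1
  set S2 : ℕ → Finset (Fin s → ℤ) := fun p =>
    (box s H).filter fun a : Fin s → ℤ => (∀ i, a i ≡ (0 : ℤ) [ZMOD ((1 : ℕ) : ℤ)]) ∧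
      ∃ e : ℕ, 1 ≤ e ∧
      nuF (p ^ e) (fm d G a) < (1 - 2 / (p : ℝ) ^ 2) * (p : ℝ) ^ (e * (s - 1)) with hS2
  set U1 := ((range (p0 + 1)).filter Nat.Prime).biUnion S1 with hU1
  set U2 := ((Ioc p0 om).filter Nat.Prime).biUnion S2 with hU2
  have hU1c : (U1.card : ℝ) ≤ eps / 2 * (H : ℝ) ^ s := by
    have h1 : (U1.card : ℝ) ≤ ∑ p ∈ (range (p0 + 1)).filter Nat.Prime, ((S1 p).card : ℝ) := by
      exact_mod_cast Finset.card_biUnion_le
    have h2 : ∀ p ∈ (range (p0 + 1)).filter Nat.Prime,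
        ((S1 p).card : ℝ) ≤ eps / (2 * ((p0 : ℝ) + 1)) * (H : ℝ) ^ s := by
      intro p hp
      rw [Finset.mem_filter, Finset.mem_range] at hp
      exact hf p hp.2 H (hHp p (by omega)) G hG
    have h3 : (((range (p0 + 1)).filter Nat.Prime).card : ℝ) ≤ p0 + 1 := by
      have := Finset.card_filter_le (range (p0 + 1)) Nat.Prime
      rw [Finset.card_range] at this
      exact_mod_cast this
    have h4 := h1.trans (Finset.sum_le_card_nsmul _ _ _ h2)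
    rw [nsmul_eq_mul] at h4
    have h5 : (0 : ℝ) ≤ eps / (2 * ((p0 : ℝ) + 1)) * (H : ℝ) ^ s := by positivity
    refine (h4.trans (mul_le_mul_of_nonneg_right h3 h5)).trans (le_of_eq ?_)
    have h6 : ((p0 : ℝ) + 1) ≠ 0 := by positivity
    field_simp
  have hU2c : (U2.card : ℝ) ≤ eps / 2 * (H : ℝ) ^ s := by
    have h1 : (U2.card : ℝ) ≤ ∑ p ∈ (Ioc p0 om).filter Nat.Prime, ((S2 p).card : ℝ) := by
      exact_mod_cast Finset.card_biUnion_le
    have h2 : ∀ p ∈ (Ioc p0 om).filter Nat.Prime,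
        ((S2 p).card : ℝ) ≤ C * (H : ℝ) ^ s * ((p : ℝ) ^ 2)⁻¹ := by
      intro p hp
      rw [Finset.mem_filter, Finset.mem_Ioc] at hp
      obtain ⟨⟨hp1, hp2⟩, hp3⟩ := hp
      refine (hlarge p H 1 (fun _ => 0) hp3 (by omega) le_rfl (Nat.coprime_one_right p)
        (by rw [mul_one]; exact hp2.trans hHom) G).trans (le_of_eq ?_)
      rw [Nat.cast_one, div_one]
      ring
    have h3 := h1.trans (Finset.sum_le_sum h2)
    rw [← Finset.mul_sum] at h3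
    have h4 : ∑ p ∈ (Ioc p0 om).filter Nat.Prime, ((p : ℝ) ^ 2)⁻¹ ≤ (p0 : ℝ)⁻¹ :=
      lg_sum_sq_le _ p0 om (by omega) fun p hp => Finset.mem_Ioc.1 (Finset.mem_filter.1 hp).1
    have h5 : (0 : ℝ) ≤ C * (H : ℝ) ^ s := by positivity
    refine h3.trans ((mul_le_mul_of_nonneg_left h4 h5).trans ?_)
    have hp0R : (0 : ℝ) < p0 := by exact_mod_cast (by omega : 0 < p0)
    have h6 : 2 * C ≤ p0 * eps := (div_le_iff₀ heps).1 hp0C
    have h7 : C * (p0 : ℝ)⁻¹ ≤ eps / 2 := by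
      rw [← div_eq_mul_inv, div_le_div_iff₀ hp0R two_pos]
      linarith
    calc C * (H : ℝ) ^ s * (p0 : ℝ)⁻¹ = C * (p0 : ℝ)⁻¹ * (H : ℝ) ^ s := by ring
      _ ≤ eps / 2 * (H : ℝ) ^ s := mul_le_mul_of_nonneg_right h7 (by positivity)
  -- the inclusion
  have hsub : ((box s H).filter fun a : Fin s → ℤ =>
      (∀ (p : ℕ) [Fact p.Prime], Zer ℚ_[p] (fm d G a)) ∧
      nuF om.factorial (fm d G a) < 1 / 2 * A⁻¹ * ((om.factorial : ℕ) : ℝ) ^ (s - 1)) ⊆
      U1 ∪ U2 := by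
    intro a ha
    rw [Finset.mem_filter] at ha
    obtain ⟨habox, hzero, hnu⟩ := ha
    by_contra hcon
    rw [Finset.mem_union, not_or] at hcon
    obtain ⟨hn1, hn2⟩ := hcon
    have hsmall : ∀ p : ℕ, p.Prime → p ≤ p0 → ∀ e : ℕ,
        ((p : ℝ) ^ kk)⁻¹ * (p : ℝ) ^ (e * (s - 1)) ≤ nuF (p ^ e) (fm d G a) := by
      intro p hp hpp e
      have hG : GoodP p (kf p) (fm d G a) := by
        by_contra hng
        apply hn1
        rw [hU1, Finset.mem_biUnion]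
        refine ⟨p, Finset.mem_filter.2 ⟨Finset.mem_range.2 (by omega), hp⟩, ?_⟩
        rw [hS1, Finset.mem_filter]
        exact ⟨habox, hzero p, hng⟩
      refine le_trans ?_ (nu_smallG s p e (kf p) (by omega) hp (fm d G a) hG)
      have hp1 : (1 : ℝ) ≤ p := by exact_mod_cast hp.one_le
      have hle : (2 * kf p + 1) * (s - 1) ≤ kk :=
        Finset.single_le_sum (f := fun p => (2 * kf p + 1) * (s - 1))
          (fun _ _ => Nat.zero_le _) (Finset.mem_range.2 (by omega : p < p0 + 1))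
      refine mul_le_mul_of_nonneg_right ?_ (by positivity)
      exact inv_anti₀ (by positivity) (pow_le_pow_right₀ hp1 hle)
    have hbig : ∀ p : ℕ, p.Prime → p0 < p → p ≤ om → ∀ e : ℕ, 1 ≤ e →
        (1 - 2 / (p : ℝ) ^ 2) * (p : ℝ) ^ (e * (s - 1)) ≤ nuF (p ^ e) (fm d G a) := by
      intro p hp hpp hpo e he
      by_contra hlt
      rw [not_le] at hlt
      apply hn2
      rw [hU2, Finset.mem_biUnion]
      refine ⟨p, Finset.mem_filter.2 ⟨Finset.mem_Ioc.2 ⟨hpp, hpo⟩, hp⟩, ?_⟩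
      rw [hS2, Finset.mem_filter]
      refine ⟨habox, fun i => ?_, e, he, hlt⟩
      rw [Nat.cast_one]
      exact Int.modEq_one
    have h4 := nu_fac s p0 kk om hp05 (fm d G a) hsmall hbig
    exact absurd hnu (not_lt.2 h4)
  have hfin : (((box s H).filter fun a : Fin s → ℤ =>
      (∀ (p : ℕ) [Fact p.Prime], Zer ℚ_[p] (fm d G a)) ∧
      nuF om.factorial (fm d G a) < 1 / 2 * A⁻¹ * ((om.factorial : ℕ) : ℝ) ^ (s - 1)).card : ℝ) ≤
      (U1.card : ℝ) + U2.card := by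
    exact_mod_cast (Finset.card_le_card hsub).trans (Finset.card_union_le _ _)
  linarith [hfin, hU1c, hU2c]

end Pool.Agent.Lib.MP_e426f4_ag.DP
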