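import Pool.Agent.Lib.MP_e426f4_ag.DP.Basic
import Pool.Agent.Lib.MP_e426f4_ag.DK.FactsX

/-!
# NZeroG: no small zero, no solution modulo `P` (adapt `DK/NZero.lean`)

`Cst := 3 Nm` with `Nm` of `ev_bd`.  If `x ∈ ∏ X`, `F(x) ≡ 0 mod P` then `|F(x)| ≤ Nm (3 H) B^d < P` (`Cb_fm`,
`ev_bd`, `evR_evN`), so `F(x) = 0`; `1 ≤ x_i ≤ B` and `B^e' ≤ H` (`S.BH`).
-/

set_option autoImplicit false

namespace Pool.Agent.Lib.MP_e426f4_ag.DP

open Finset MvPolynomial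
open Pool.Agent.Lib.MP_e426f4_ag.DG (box)
open Pool.Agent.Lib.MP_e426f4_ag.DK (Su)

theorem NNg_eq_zero (d s : ℕ) (hd : 1 ≤ d) : ∃ Cst : ℕ, ∀ (u l e m w E e' : ℕ)
    (S : Su d s u l e m w E), u * e' ≤ d * l → e' ≤ d → Cst * S.H * S.B ^ d < S.P →
    ∀ (G : Pol s) (a : Fin s → ℤ), Cb d (2 * S.H) G → (∀ i, |a i| ≤ (S.H : ℤ)) →
    ¬ SmallF e' S.H (fm d G a) →
    NNg S.P d (fun _ : Fin s => S.X) (gP S.P G) (fun i => ((a i : ℤ) : ZMod S.P)) 0 = 0 := by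
  obtain ⟨Nm, -, hNm⟩ := ev_bd d s
  refine ⟨3 * Nm, ?_⟩
  intro u l e m w E e' S h h' hP G a hG ha hz
  obtain ⟨hd1, hs1, -⟩ := S.nums
  unfold NNg
  rw [Nat.cast_eq_zero, Finset.card_eq_zero, Finset.filter_eq_empty_iff]
  intro x hx hsum
  rw [Fintype.mem_piFinset] at hx
  apply hz
  have hb : ∀ i, 1 ≤ x i ∧ x i ≤ S.B := fun i =>
    ⟨(S.X_bounds (x i) (hx i)).1, (S.X_bounds (x i) (hx i)).2.1⟩
  have hF : Cb d (2 * S.H + S.H) (fm d G a) := Cb_fm hd hG a ha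
  refine ⟨fun i => (x i : ℤ), ?_, ?_, ?_⟩
  · intro h0
    have := congrFun h0 ⟨0, by omega⟩
    have h1 := (hb ⟨0, by omega⟩).1
    simp at this
    omega
  · have h1 : ((evN (fm d G a) x : ℤ) : ZMod S.P) = 0 := by
      rw [evN_fm]
      unfold gP at hsum
      push_cast
      rw [add_comm]
      exact hsum
    rw [ZMod.intCast_zmod_eq_zero_iff_dvd] at h1
    change evN (fm d G a) x = 0
    by_contra hne
    have h2 := Int.le_of_dvd (abs_pos.mpr hne) ((dvd_abs _ _).mpr h1)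
    have h3 := hNm (2 * S.H + S.H) (fm d G a) hF (fun i => (x i : ℝ)) (S.B : ℝ) (Nat.cast_nonneg _)
      (fun i => by
        rw [Nat.abs_cast]
        exact_mod_cast (hb i).2)
    rw [← evR_evN] at h3
    have h4 : ((|evN (fm d G a) x| : ℤ) : ℝ) ≤ ((3 * Nm * S.H * S.B ^ d : ℕ) : ℝ) := by
      push_cast
      push_cast at h3
      refine h3.trans (le_of_eq ?_)
      ring
    have h5 : ((S.P : ℤ) : ℝ) ≤ ((|evN (fm d G a) x| : ℤ) : ℝ) := by exact_mod_cast h2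
    have h6 : ((3 * Nm * S.H * S.B ^ d : ℕ) : ℝ) < (S.P : ℝ) := by exact_mod_cast hP
    have h7 : ((S.P : ℤ) : ℝ) = (S.P : ℝ) := by push_cast; rfl
    linarith
  · intro i
    rw [Nat.abs_cast]
    have h4 : (x i) ^ e' ≤ S.B ^ e' := Nat.pow_le_pow_left (hb i).2 e'
    have h5 : S.B ^ e' ≤ S.H := S.BH e' h h'
    exact_mod_cast (h4.trans h5)

end Pool.Agent.Lib.MP_e426f4_ag.DP
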