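import Pool.Agent.Lib.MP_e426f4_ag.DP.Basic

/-!
# NuLiftG: lifting non-singular zeros modulo `p` (adapt `DG/NuLift.lean`)

Let `N_e` be the number of zeros `x` modulo `p^e` (`x_i < p^e`) with some `∂_i F(x)` prime to `p`:
`N_1 = nsz p F`, `N_e ≤ nuF (p^e) F`, `N_{e+1} ≥ p^(s-1) N_e`: for `x` and `P = p^e`
`F(x + P u) = F(x) + P ∑ ∂_i F(x) u_i + P² K` (prove for polynomials by `MvPolynomial.induction_on`), so for given `u_i`,
`i ≠ i0`, there is exactly one `u_{i0}` modulo `p`.
-/

set_option autoImplicit false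

namespace Pool.Agent.Lib.MP_e426f4_ag.DP

open Finset MvPolynomial
open Pool.Agent.Lib.MP_e426f4_ag.DG (box)

/-- expansion of a polynomial -/
theorem expand {s : ℕ} (F : Pol s) (P : ℤ) (y u : Fin s → ℤ) :
    ∃ K : ℤ, evZ F (fun i => y i + P * u i) =
      evZ F y + P * ∑ i, evZ (pderiv i F) y * u i + P ^ 2 * K := by
  unfold evZ
  induction F using MvPolynomial.induction_on with
  | C a =>
    refine ⟨0, ?_⟩
    simp
  | add p q hp hq =>
    obtain ⟨K1, h1⟩ := hp
    obtain ⟨K2, h2⟩ := hq
    refine ⟨K1 + K2, ?_⟩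
    have h3 : ∑ i, eval y (pderiv i (p + q)) * u i =
        ∑ i, eval y (pderiv i p) * u i + ∑ i, eval y (pderiv i q) * u i := by
      rw [← sum_add_distrib]
      refine sum_congr rfl fun i _ => ?_
      rw [map_add, map_add, add_mul]
    rw [map_add, map_add, h1, h2, h3]
    ring
  | mul_X p j hp =>
    obtain ⟨K, h1⟩ := hp
    have h3 : ∑ i, eval y (pderiv i (p * X j)) * u i =
        (∑ i, eval y (pderiv i p) * u i) * y j + eval y p * u j := by
      have h4 : ∀ i, eval y (pderiv i (p * X j)) * u i =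
          eval y (pderiv i p) * u i * y j + (if i = j then eval y p * u i else 0) := by
        intro i
        rw [pderiv_mul, map_add, map_mul, map_mul, eval_X]
        by_cases hij : i = j
        · subst hij
          rw [pderiv_X_self, map_one, if_pos rfl]
          ring
        · rw [pderiv_X_of_ne (Ne.symm hij), map_zero, if_neg hij]
          ring
      rw [sum_congr rfl fun i _ => h4 i, sum_add_distrib, ← sum_mul,
        Finset.sum_ite_eq' univ j (fun i => eval y p * u i), if_pos (mem_univ _)]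
    refine ⟨K * y j + (∑ i, eval y (pderiv i p) * u i) * u j + P * K * u j, ?_⟩
    rw [map_mul, map_mul, eval_X, eval_X, h1, h3]
    ring

open Classical in
/-- non-singular zeros modulo `p ^ e` -/
private noncomputable def nlG {s : ℕ} (p : ℕ) (F : Pol s) (e : ℕ) : Finset (Fin s → ℕ) :=
  (Fintype.piFinset fun _ : Fin s => range (p ^ e)).filter fun x : Fin s → ℕ =>
    ((p ^ e : ℕ) : ℤ) ∣ evN F x ∧ ∃ i, ¬ (p : ℤ) ∣ evN (pderiv i F) x

private theorem nlG_mem {s : ℕ} {p : ℕ} {F : Pol s} {e : ℕ} {x : Fin s → ℕ} :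
    x ∈ nlG p F e ↔ (∀ i, x i < p ^ e) ∧ ((p ^ e : ℕ) : ℤ) ∣ evN F x ∧
      ∃ i, ¬ (p : ℤ) ∣ evN (pderiv i F) x := by
  unfold nlG
  rw [mem_filter, Fintype.mem_piFinset]
  simp only [mem_range]

/-- a linear congruence -/
private theorem nlG_solve (p : ℕ) (hp : p.Prime) (c B : ℤ) (hc : ¬ (p : ℤ) ∣ c) :
    ∃ t : ℕ, t < p ∧ (p : ℤ) ∣ B + c * t := by
  have : Fact p.Prime := ⟨hp⟩
  have hc' : (c : ZMod p) ≠ 0 := by
    intro h
    exact hc ((ZMod.intCast_zmod_eq_zero_iff_dvd c p).1 h)
  refine ⟨(-(B : ZMod p) * (c : ZMod p)⁻¹).val, ZMod.val_lt _, ?_⟩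
  rw [← ZMod.intCast_zmod_eq_zero_iff_dvd]
  push_cast
  rw [ZMod.natCast_zmod_val]
  field_simp
  ring

private theorem nlG_step (s p e : ℕ) (hp : p.Prime) (he : 1 ≤ e) (F : Pol s) :
    p ^ (s - 1) * (nlG p F e).card ≤ (nlG p F (e + 1)).card := by
  classical
  have hpe : 0 < p ^ e := pow_pos hp.pos e
  -- the fibres of the reduction
  have hfib : ∀ y ∈ nlG p F e,
      p ^ (s - 1) ≤ ((nlG p F (e + 1)).filter fun x => (fun i => x i % p ^ e) = y).card := by
    intro y hy
    rw [nlG_mem] at hy
    obtain ⟨hy1, ⟨k, hk⟩, i0, hc0⟩ := hy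
    have hex : ∀ v : Fin s → ℕ, ∃ t : ℕ, t < p ∧
        (p : ℤ) ∣ (k + ∑ i, evN (pderiv i F) y * (v i : ℤ)) +
          evN (pderiv i0 F) y * t := fun v => nlG_solve p hp _ _ hc0
    choose w hw1 hw2 using hex
    set V : Finset (Fin s → ℕ) :=
      Fintype.piFinset fun i : Fin s => if i = i0 then {0} else range p with hV
    have hVcard : V.card = p ^ (s - 1) := by
      rw [hV, Fintype.card_piFinset]
      have h1 : ∀ i : Fin s, (if i = i0 then ({0} : Finset ℕ) else range p).card =
          if i = i0 then 1 else p := by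
        intro i
        split_ifs <;> simp
      rw [prod_congr rfl fun i _ => h1 i, ← mul_prod_erase _ _ (mem_univ i0), if_pos rfl, one_mul,
        prod_congr rfl (g := fun _ => p) (fun i hi => if_neg (ne_of_mem_erase hi)), prod_const,
        card_erase_of_mem (mem_univ i0), card_univ, Fintype.card_fin]
    have hVmem : ∀ v ∈ V, v i0 = 0 ∧ ∀ i, i ≠ i0 → v i < p := by
      intro v hv
      rw [hV, Fintype.mem_piFinset] at hv
      refine ⟨by simpa using hv i0, fun i hi => ?_⟩
      have := hv i
      rw [if_neg hi, mem_range] at this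
      exact this
    have hcast : ∀ v : Fin s → ℕ,
        (fun i => ((y i + p ^ e * (v i + if i = i0 then w v else 0) : ℕ) : ℤ)) =
        fun i => (y i : ℤ) + ((p ^ e : ℕ) : ℤ) * ((v i + if i = i0 then w v else 0 : ℕ) : ℤ) := by
      intro v
      funext i
      push_cast
      rfl
    rw [← hVcard]
    refine card_le_card_of_injOn
      (fun v i => y i + p ^ e * (v i + if i = i0 then w v else 0)) ?_ ?_
    · intro v hv
      obtain ⟨hv0, hv1⟩ := hVmem v hv
      have hu : ∀ i, (v i + if i = i0 then w v else 0) < p := by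
        intro i
        by_cases hi : i = i0
        · rw [if_pos hi, hi, hv0, zero_add]
          exact hw1 v
        · rw [if_neg hi, add_zero]
          exact hv1 i hi
      rw [mem_coe, mem_filter, nlG_mem]
      refine ⟨⟨fun i => ?_, ?_, i0, ?_⟩, ?_⟩
      · show y i + p ^ e * (v i + if i = i0 then w v else 0) < p ^ (e + 1)
        have h1 := hu i
        have h2 := hy1 i
        calc y i + p ^ e * (v i + if i = i0 then w v else 0)
            < p ^ e + p ^ e * (v i + if i = i0 then w v else 0) := by omega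
          _ = p ^ e * ((v i + if i = i0 then w v else 0) + 1) := by ring
          _ ≤ p ^ e * p := Nat.mul_le_mul_left _ h1
          _ = p ^ (e + 1) := (pow_succ p e).symm
      · obtain ⟨K, hK⟩ := expand F ((p ^ e : ℕ) : ℤ) (fun i => (y i : ℤ))
          (fun i => ((v i + if i = i0 then w v else 0 : ℕ) : ℤ))
        have h2 : ∑ i, evZ (pderiv i F) (fun i => (y i : ℤ)) *
            ((v i + if i = i0 then w v else 0 : ℕ) : ℤ) =
            ∑ i, evN (pderiv i F) y * (v i : ℤ) + evN (pderiv i0 F) y * w v := by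
          have h6 : evN (pderiv i0 F) y * (w v : ℤ) =
              ∑ i, if i = i0 then evN (pderiv i F) y * (w v : ℤ) else 0 := by
            rw [Finset.sum_ite_eq' univ i0
              (fun i => evN (pderiv i F) y * (w v : ℤ)), if_pos (mem_univ _)]
          rw [h6, ← sum_add_distrib]
          refine sum_congr rfl fun i _ => ?_
          by_cases hi : i = i0
          · simp only [hi, if_true]
            unfold evN
            push_cast
            ring
          · simp only [hi, if_false]
            unfold evN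
            push_cast
            ring
        show ((p ^ (e + 1) : ℕ) : ℤ) ∣
          evZ F (fun i => ((y i + p ^ e * (v i + if i = i0 then w v else 0) : ℕ) : ℤ))
        have hk' : evZ F (fun i => (y i : ℤ)) = ((p ^ e : ℕ) : ℤ) * k := hk
        rw [hcast v, hK, h2, hk']
        obtain ⟨r, hr⟩ := hw2 v
        have h3 : ((p ^ (e + 1) : ℕ) : ℤ) = ((p ^ e : ℕ) : ℤ) * p := by
          push_cast
          exact pow_succ _ _
        obtain ⟨q, hq⟩ : (p : ℤ) ∣ ((p ^ e : ℕ) : ℤ) := by
          exact_mod_cast dvd_pow_self p (by omega : e ≠ 0)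
        refine ⟨r + q * K, ?_⟩
        rw [h3]
        have h4 : ((p ^ e : ℕ) : ℤ) * k + ((p ^ e : ℕ) : ℤ) *
            (∑ i, evN (pderiv i F) y * (v i : ℤ) + evN (pderiv i0 F) y * w v) =
            ((p ^ e : ℕ) : ℤ) * (p * r) := by
          rw [← hr]
          ring
        rw [h4, sq]
        nth_rewrite 3 [hq]
        ring
      · show ¬ (p : ℤ) ∣ evZ (pderiv i0 F)
          (fun i => ((y i + p ^ e * (v i + if i = i0 then w v else 0) : ℕ) : ℤ))
        intro h
        apply hc0
        have h5 : evZ (pderiv i0 F)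
            (fun i => ((y i + p ^ e * (v i + if i = i0 then w v else 0) : ℕ) : ℤ)) ≡
            evZ (pderiv i0 F) (fun i => (y i : ℤ)) [ZMOD p] := by
          refine evZ_congr _ _ _ _ fun i => ?_
          have h6 : (p : ℤ) ∣ ((p ^ e : ℕ) : ℤ) := by
            exact_mod_cast dvd_pow_self p (by omega : e ≠ 0)
          have h7 : ((y i : ℕ) : ℤ) ≡
              ((y i + p ^ e * (v i + if i = i0 then w v else 0) : ℕ) : ℤ) [ZMOD p] := by
            rw [Int.modEq_iff_dvd]
            push_cast
            rw [add_sub_cancel_left]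
            push_cast at h6
            exact Dvd.dvd.mul_right h6 _
          exact h7.symm
        exact (Int.modEq_zero_iff_dvd).1 (h5.symm.trans (Int.modEq_zero_iff_dvd.2 h))
      · funext i
        show (y i + p ^ e * (v i + if i = i0 then w v else 0)) % p ^ e = y i
        rw [Nat.add_mul_mod_self_left, Nat.mod_eq_of_lt (hy1 i)]
    · intro v hv v' hv' h
      obtain ⟨hv0, -⟩ := hVmem v hv
      obtain ⟨hv0', -⟩ := hVmem v' hv'
      funext i
      by_cases hi : i = i0
      · rw [hi, hv0, hv0']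
      · have h1 := congrFun h i
        simp only [hi, if_false, add_zero] at h1
        exact Nat.eq_of_mul_eq_mul_left hpe (Nat.add_left_cancel h1)
  calc p ^ (s - 1) * (nlG p F e).card = ∑ y ∈ nlG p F e, p ^ (s - 1) := by
        rw [sum_const, smul_eq_mul, mul_comm]
    _ ≤ ∑ y ∈ nlG p F e,
        ((nlG p F (e + 1)).filter fun x => (fun i => x i % p ^ e) = y).card :=
        sum_le_sum hfib
    _ = ((nlG p F (e + 1)).filter fun x => (fun i => x i % p ^ e) ∈ nlG p F e).card :=
        sum_card_fiberwise_eq_card_filter _ _ _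
    _ ≤ (nlG p F (e + 1)).card := card_filter_le _ _

theorem nu_liftG (s p e : ℕ) (hs : 1 ≤ s) (hp : p.Prime) (he : 1 ≤ e) (F : Pol s) :
    (p : ℝ) ^ ((e - 1) * (s - 1)) * nsz p F ≤ nuF (p ^ e) F := by
  classical
  -- all lifts
  have hall : ∀ e, 1 ≤ e → p ^ ((e - 1) * (s - 1)) * (nlG p F 1).card ≤ (nlG p F e).card := by
    intro e he
    induction e, he using Nat.le_induction with
    | base => simp
    | succ e he ih =>
      have h1 := nlG_step s p e hp he F
      have h2 : (e + 1 - 1) * (s - 1) = (s - 1) + (e - 1) * (s - 1) := by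
        obtain ⟨f, rfl⟩ : ∃ f, e = f + 1 := ⟨e - 1, by omega⟩
        simp only [Nat.add_sub_cancel]
        ring
      rw [h2, pow_add, mul_assoc]
      exact (Nat.mul_le_mul_left _ ih).trans h1
  -- first level
  have h1 : nsz p F ≤ ((nlG p F 1).card : ℝ) := by
    unfold nsz
    rw [Nat.cast_le]
    refine card_le_card fun x hx => ?_
    rw [mem_filter, Fintype.mem_piFinset] at hx
    simp only [mem_range] at hx
    rw [nlG_mem]
    simp only [pow_one]
    exact hx
  -- the non-singular zeros are zeros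
  have h2 : ((nlG p F e).card : ℝ) ≤ nuF (p ^ e) F := by
    unfold nuF
    rw [Nat.cast_le]
    refine card_le_card fun x hx => ?_
    rw [nlG_mem] at hx
    rw [mem_filter, Fintype.mem_piFinset]
    simp only [mem_range]
    exact ⟨hx.1, hx.2.1⟩
  have h3 : (p : ℝ) ^ ((e - 1) * (s - 1)) * (nlG p F 1).card ≤ (nlG p F e).card := by
    exact_mod_cast hall e he
  calc (p : ℝ) ^ ((e - 1) * (s - 1)) * nsz p F
      ≤ (p : ℝ) ^ ((e - 1) * (s - 1)) * (nlG p F 1).card :=
        mul_le_mul_of_nonneg_left h1 (by positivity)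
    _ ≤ (nlG p F e).card := h3
    _ ≤ nuF (p ^ e) F := h2

end Pool.Agent.Lib.MP_e426f4_ag.DP
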