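import Pool.Agent.Lib.MP_e426f4_ag.DP.Basic

/-!
# SingG: the average number of points modulo `p` where all partial derivatives vanish

Exchange the sums: for `x ∈ range(p)^s` the condition on `a_i` is
`p ∣ ∂_i G(x) + d a_i x_i^(d-1)` (`evN_pderiv_fm`): at most one `a_i` modulo `p` if `x_i ≠ 0` (`p ∤ d`), at most `p` if
`x_i = 0`.  So the sum is at most `∑_x ∏_i c(x_i) = (p + (p - 1))^s ≤ 2^s p^s` with `c(0) = p`, `c(x) = 1` otherwise
(`Finset.prod_univ_sum`).
-/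

set_option autoImplicit false

namespace Pool.Agent.Lib.MP_e426f4_ag.DP

open Finset MvPolynomial
open Pool.Agent.Lib.MP_e426f4_ag.DG (box)

private theorem one_sol (d p : ℕ) (hp : p.Prime) (hpd : ¬ p ∣ d) (g : ℤ) (t : ℕ) (ht : t < p)
    (ht0 : t ≠ 0) :
    ((range p).filter fun a : ℕ => (p : ℤ) ∣ g + d * (a : ℤ) * (t : ℤ) ^ (d - 1)).card ≤ 1 := by
  rw [Finset.card_le_one]
  intro a ha b hb
  obtain ⟨ha1, ha2⟩ := mem_filter.1 ha
  obtain ⟨hb1, hb2⟩ := mem_filter.1 hb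
  rw [mem_range] at ha1 hb1
  have hpp : Prime (p : ℤ) := Nat.prime_iff_prime_int.1 hp
  have h1 : (p : ℤ) ∣ (d * (t : ℤ) ^ (d - 1)) * ((a : ℤ) - b) := by
    have h2 := dvd_sub ha2 hb2
    have e : g + d * (a : ℤ) * (t : ℤ) ^ (d - 1) - (g + d * (b : ℤ) * (t : ℤ) ^ (d - 1)) =
        (d * (t : ℤ) ^ (d - 1)) * ((a : ℤ) - b) := by ring
    rwa [e] at h2
  rcases hpp.dvd_or_dvd h1 with h3 | h3
  · rcases hpp.dvd_or_dvd h3 with h4 | h4
    · exact absurd (Int.natCast_dvd_natCast.1 h4) hpd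
    · have h5 := Int.natCast_dvd_natCast.1 (hpp.dvd_of_dvd_pow h4)
      exact absurd (Nat.le_of_dvd (Nat.pos_of_ne_zero ht0) h5) (not_le.2 ht)
  · have h4 : (a : ℤ) - b = 0 := by
      refine Int.eq_zero_of_abs_lt_dvd h3 ?_
      rw [abs_lt]
      omega
    omega

theorem sing_avg (d s p : ℕ) (hd : 1 ≤ d) (hp : p.Prime) (hpd : ¬ p ∣ d) (G : Pol s) :
    ∑ a ∈ Fintype.piFinset (fun _ : Fin s => range p), sgz p (fm d G fun i => (a i : ℤ)) ≤
      2 ^ s * (p : ℝ) ^ s := by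
  classical
  obtain ⟨c, hc⟩ : ∃ c : ℕ → ℕ, ∀ t, c t = if t = 0 then p else 1 := ⟨_, fun _ => rfl⟩
  obtain ⟨B, hB⟩ : ∃ B : Finset (Fin s → ℕ), B = Fintype.piFinset fun _ : Fin s => range p := ⟨_, rfl⟩
  obtain ⟨P, hP⟩ : ∃ P : (Fin s → ℕ) → (Fin s → ℕ) → Prop, ∀ a x, P a x ↔
      ∀ i, (p : ℤ) ∣ evN (pderiv i (fm d G fun i => (a i : ℤ))) x := ⟨_, fun _ _ => Iff.rfl⟩
  have h1 : ∑ a ∈ B, sgz p (fm d G fun i => (a i : ℤ)) =
      ((∑ a ∈ B, (B.filter fun x => P a x).card : ℕ) : ℝ) := by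
    rw [Nat.cast_sum]
    refine sum_congr rfl fun a _ => ?_
    unfold sgz
    rw [← hB]
    congr 2
    exact filter_congr fun x _ => (hP a x).symm
  have h2 : ∑ a ∈ B, (B.filter fun x => P a x).card = ∑ x ∈ B, (B.filter fun a => P a x).card := by
    simp only [card_filter]
    exact sum_comm
  have h3 : ∀ x ∈ B, (B.filter fun a => P a x).card ≤ ∏ i, c (x i) := by
    intro x hx
    rw [hB, Fintype.mem_piFinset] at hx
    have h4 : (B.filter fun a => P a x) = Fintype.piFinset fun i : Fin s =>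
        (range p).filter fun t : ℕ => (p : ℤ) ∣ evN (pderiv i G) x + d * (t : ℤ) * (x i : ℤ) ^ (d - 1) := by
      ext a
      rw [mem_filter, hB, Fintype.mem_piFinset, Fintype.mem_piFinset, hP]
      constructor
      · rintro ⟨h5, h6⟩ i
        rw [mem_filter]
        refine ⟨h5 i, ?_⟩
        have h7 := h6 i
        rw [evN_pderiv_fm] at h7
        exact h7
      · intro h5
        refine ⟨fun i => (mem_filter.1 (h5 i)).1, fun i => ?_⟩
        rw [evN_pderiv_fm]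
        exact (mem_filter.1 (h5 i)).2
    rw [h4, Fintype.card_piFinset]
    refine prod_le_prod' fun i _ => ?_
    rw [hc]
    split_ifs with h5
    · exact (card_filter_le _ _).trans (by rw [card_range])
    · exact one_sol d p hp hpd _ (x i) (mem_range.1 (hx i)) h5
  have h4 : ∑ x ∈ B, ∏ i, c (x i) = (∑ t ∈ range p, c t) ^ s := by
    rw [hB, ← prod_univ_sum (fun _ : Fin s => range p) (fun _ t => c t), prod_const, card_univ,
      Fintype.card_fin]
  have h5 : ∑ t ∈ range p, c t ≤ 2 * p := by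
    obtain ⟨q, hq⟩ : ∃ q, p = q + 1 := ⟨p - 1, by have := hp.pos; omega⟩
    have h6 : ∑ t ∈ range p, c t = ∑ t ∈ range q, c (t + 1) + c 0 := by
      rw [hq, sum_range_succ']
    have h7 : ∑ t ∈ range q, c (t + 1) = q := by
      rw [sum_congr rfl (g := fun _ => 1) fun t _ => by rw [hc, if_neg (Nat.succ_ne_zero t)]]
      simp
    rw [h6, h7, hc, if_pos rfl]
    omega
  rw [← hB, h1, h2]
  have h6 : ∑ x ∈ B, (B.filter fun a => P a x).card ≤ (2 * p) ^ s :=
    (sum_le_sum h3).trans (h4.le.trans (Nat.pow_le_pow_left h5 s))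
  have h7 : ((∑ x ∈ B, (B.filter fun a => P a x).card : ℕ) : ℝ) ≤ ((2 * p) ^ s : ℕ) := by
    exact_mod_cast h6
  refine h7.trans (le_of_eq ?_)
  push_cast
  ring

end Pool.Agent.Lib.MP_e426f4_ag.DP
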