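import Pool.Agent.Lib.MP_e426f4_ag.DP.NuVarG
import Pool.Agent.Lib.MP_e426f4_ag.DP.NuLiftG
import Pool.Agent.Lib.MP_e426f4_ag.DP.SingG
import Pool.Agent.Lib.MP_e426f4_ag.DG.BoxRes

/-!
# NuLargeG: large primes, in a residue class modulo `q0` (adapt `DH/NuLarge.lean`)

Bad classes modulo `p`: those `r` with `sgz p (fm d G r) ≥ p^(s-3)` (at most `2^s p^s / p^(s-3) = 2^s p^3`, `sing_avg`) or
`(nuF p (fm d G r) - p^(s-1))² ≥ p^(2(s-3))` (at most `d^s p^6`, `nu_varG`).  For the others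
`nsz ≥ nuF - sgz > p^(s-1) - 2 p^(s-3)`, and `nu_liftG`.  The classes modulo `p q0` which are `≡ r0` modulo `q0`
and bad modulo `p` are as many as the bad classes modulo `p` (chinese remainder theorem; only `≤` is needed: the
reduction modulo `p` is injective on them); `box_residue` with the modulus `p q0 ≤ H`.  `C = (2^s + d^s) 4^s`.
-/

set_option autoImplicit false

namespace Pool.Agent.Lib.MP_e426f4_ag.DP

open Finset MvPolynomial
open Pool.Agent.Lib.MP_e426f4_ag.DG (box)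

private lemma nlg_sgz_congr {s : ℕ} (d p : ℕ) (G : Pol s) (a b : Fin s → ℤ)
    (h : ∀ i, a i ≡ b i [ZMOD p]) : sgz p (fm d G a) = sgz p (fm d G b) := by
  unfold sgz
  congr 2
  refine Finset.filter_congr fun x _ => ?_
  refine forall_congr' fun j => ?_
  have h1 : evN (pderiv j (fm d G a)) x ≡ evN (pderiv j (fm d G b)) x [ZMOD p] :=
    evZ_pderiv_fm_congr d G a b (fun i => (x i : ℤ)) p j h
  rw [← Int.modEq_zero_iff_dvd, ← Int.modEq_zero_iff_dvd]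
  exact ⟨fun h2 => h1.symm.trans h2, fun h2 => h1.trans h2⟩

private lemma nlg_split {s : ℕ} (p : ℕ) (F : Pol s) : nuF p F ≤ nsz p F + sgz p F := by
  classical
  unfold nuF nsz sgz
  have h1 : ((Fintype.piFinset fun _ : Fin s => range p).filter fun x : Fin s → ℕ =>
      (p : ℤ) ∣ evN F x) ⊆
      ((Fintype.piFinset fun _ : Fin s => range p).filter fun x : Fin s → ℕ =>
        (p : ℤ) ∣ evN F x ∧ ∃ i, ¬ (p : ℤ) ∣ evN (pderiv i F) x) ∪
      ((Fintype.piFinset fun _ : Fin s => range p).filter fun x : Fin s → ℕ =>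
        ∀ i, (p : ℤ) ∣ evN (pderiv i F) x) := by
    intro x hx
    rw [Finset.mem_filter] at hx
    rw [Finset.mem_union, Finset.mem_filter, Finset.mem_filter]
    by_cases h : ∀ i, (p : ℤ) ∣ evN (pderiv i F) x
    · exact Or.inr ⟨hx.1, h⟩
    · exact Or.inl ⟨hx.1, hx.2, not_forall.1 h⟩
  have h2 := (Finset.card_le_card h1).trans (Finset.card_union_le _ _)
  exact_mod_cast h2

/-- the bad classes modulo `p` -/
private lemma nlg_classes (d s p : ℕ) (hd : 4 ≤ d) (hs : 8 ≤ s) (hp : p.Prime) (hpd : ¬ p ∣ d)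
    (G : Pol s) (Bp : Finset (Fin s → ℕ))
    (hB : ∀ r ∈ Bp, r ∈ Fintype.piFinset (fun _ : Fin s => range p) ∧
      ((p : ℝ) ^ (s - 3) ≤ sgz p (fm d G fun i => (r i : ℤ)) ∨
      (p : ℝ) ^ (2 * (s - 3)) ≤ (nuF p (fm d G fun i => (r i : ℤ)) - (p : ℝ) ^ (s - 1)) ^ 2)) :
    (Bp.card : ℝ) ≤ ((2 : ℝ) ^ s + (d : ℝ) ^ s) * (p : ℝ) ^ 6 := by
  classical
  have hp0 : (0 : ℝ) < p := by exact_mod_cast hp.pos
  have hp1 : (1 : ℝ) ≤ p := by exact_mod_cast hp.one_le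
  set B1 := ((Fintype.piFinset (fun _ : Fin s => range p)).filter fun r : Fin s → ℕ =>
      (p : ℝ) ^ (s - 3) ≤ sgz p (fm d G fun i => (r i : ℤ))) with hB1
  set B2 := ((Fintype.piFinset (fun _ : Fin s => range p)).filter fun r : Fin s → ℕ =>
      (p : ℝ) ^ (2 * (s - 3)) ≤
        (nuF p (fm d G fun i => (r i : ℤ)) - (p : ℝ) ^ (s - 1)) ^ 2) with hB2
  have h1 : Bp ⊆ B1 ∪ B2 := by
    intro r hr
    obtain ⟨h2, h3⟩ := hB r hr
    rw [Finset.mem_union, hB1, hB2, Finset.mem_filter, Finset.mem_filter]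
    rcases h3 with h | h
    · exact Or.inl ⟨h2, h⟩
    · exact Or.inr ⟨h2, h⟩
  have e1 : (B1.card : ℝ) * (p : ℝ) ^ (s - 3) ≤ (2 : ℝ) ^ s * (p : ℝ) ^ s := by
    calc (B1.card : ℝ) * (p : ℝ) ^ (s - 3)
        = ∑ _r ∈ B1, (p : ℝ) ^ (s - 3) := by rw [Finset.sum_const, nsmul_eq_mul]
      _ ≤ ∑ r ∈ B1, sgz p (fm d G fun i => (r i : ℤ)) :=
          Finset.sum_le_sum fun r hr => (Finset.mem_filter.1 hr).2
      _ ≤ ∑ r ∈ Fintype.piFinset (fun _ : Fin s => range p),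
            sgz p (fm d G fun i => (r i : ℤ)) :=
          Finset.sum_le_sum_of_subset_of_nonneg (Finset.filter_subset _ _)
            fun r _ _ => by unfold sgz; positivity
      _ ≤ _ := sing_avg d s p (by omega) hp hpd G
  have e2 : (B1.card : ℝ) ≤ (2 : ℝ) ^ s * (p : ℝ) ^ 6 := by
    have h5 : (p : ℝ) ^ s = (p : ℝ) ^ 3 * (p : ℝ) ^ (s - 3) := by
      rw [← pow_add]
      congr 1
      omega
    rw [h5, ← mul_assoc] at e1
    have h6 : (B1.card : ℝ) ≤ (2 : ℝ) ^ s * (p : ℝ) ^ 3 :=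
      le_of_mul_le_mul_right e1 (by positivity)
    refine h6.trans (mul_le_mul_of_nonneg_left ?_ (by positivity))
    exact pow_le_pow_right₀ hp1 (by norm_num)
  have e3 : (B2.card : ℝ) * (p : ℝ) ^ (2 * (s - 3)) ≤ (d : ℝ) ^ s * (p : ℝ) ^ (2 * s) := by
    calc (B2.card : ℝ) * (p : ℝ) ^ (2 * (s - 3))
        = ∑ _r ∈ B2, (p : ℝ) ^ (2 * (s - 3)) := by rw [Finset.sum_const, nsmul_eq_mul]
      _ ≤ ∑ r ∈ B2, (nuF p (fm d G fun i => (r i : ℤ)) - (p : ℝ) ^ (s - 1)) ^ 2 :=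
          Finset.sum_le_sum fun r hr => (Finset.mem_filter.1 hr).2
      _ ≤ ∑ r ∈ Fintype.piFinset (fun _ : Fin s => range p),
            (nuF p (fm d G fun i => (r i : ℤ)) - (p : ℝ) ^ (s - 1)) ^ 2 :=
          Finset.sum_le_sum_of_subset_of_nonneg (Finset.filter_subset _ _)
            fun r _ _ => sq_nonneg _
      _ ≤ _ := nu_varG d s p (by omega) (by omega) hp G
  have e4 : (B2.card : ℝ) ≤ (d : ℝ) ^ s * (p : ℝ) ^ 6 := by
    have h5 : (p : ℝ) ^ (2 * s) = (p : ℝ) ^ 6 * (p : ℝ) ^ (2 * (s - 3)) := by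
      rw [← pow_add]
      congr 1
      omega
    rw [h5, ← mul_assoc] at e3
    exact le_of_mul_le_mul_right e3 (by positivity)
  have h6 : Bp.card ≤ B1.card + B2.card :=
    (Finset.card_le_card h1).trans (Finset.card_union_le _ _)
  have h7 : (Bp.card : ℝ) ≤ B1.card + B2.card := by exact_mod_cast h6
  linarith

/-- the local density at a good class -/
private lemma nlg_good (d s p e : ℕ) (hs : 8 ≤ s) (hp : p.Prime) (he : 1 ≤ e) (G : Pol s)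
    (a : Fin s → ℤ)
    (hlt : nuF (p ^ e) (fm d G a) < (1 - 2 / (p : ℝ) ^ 2) * (p : ℝ) ^ (e * (s - 1))) :
    (p : ℝ) ^ (s - 3) ≤ sgz p (fm d G a) ∨
      (p : ℝ) ^ (2 * (s - 3)) ≤ (nuF p (fm d G a) - (p : ℝ) ^ (s - 1)) ^ 2 := by
  have hp0 : (0 : ℝ) < p := by exact_mod_cast hp.pos
  by_contra hcon
  rw [not_or, not_le, not_le] at hcon
  obtain ⟨h1, h2⟩ := hcon
  have h10 : (p : ℝ) ^ (2 * (s - 3)) = ((p : ℝ) ^ (s - 3)) ^ 2 := by
    rw [← pow_mul, mul_comm]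
  rw [h10] at h2
  have h11 : (0 : ℝ) ≤ (p : ℝ) ^ (s - 3) := by positivity
  have h3 := (abs_lt_of_sq_lt_sq h2 h11)
  rw [abs_lt] at h3
  have h4 := nlg_split p (fm d G a)
  have h5 : (p : ℝ) ^ (s - 1) - 2 * (p : ℝ) ^ (s - 3) < nsz p (fm d G a) := by linarith [h3.1]
  have h6 := nu_liftG s p e (by omega) hp he (fm d G a)
  have h7 : (p : ℝ) ^ (s - 1) = (p : ℝ) ^ (s - 3) * (p : ℝ) ^ 2 := by
    rw [← pow_add]
    congr 1
    omega
  have h8 : (1 - 2 / (p : ℝ) ^ 2) * (p : ℝ) ^ (s - 1)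
      = (p : ℝ) ^ (s - 1) - 2 * (p : ℝ) ^ (s - 3) := by
    rw [h7]
    field_simp
  have h9 : (1 - 2 / (p : ℝ) ^ 2) * (p : ℝ) ^ (e * (s - 1)) =
      (p : ℝ) ^ ((e - 1) * (s - 1)) * ((p : ℝ) ^ (s - 1) - 2 * (p : ℝ) ^ (s - 3)) := by
    rw [← h8]
    obtain ⟨f, rfl⟩ : ∃ f, e = f + 1 := ⟨e - 1, by omega⟩
    rw [Nat.add_sub_cancel, add_mul, one_mul, pow_add]
    ring
  have h12 : (p : ℝ) ^ ((e - 1) * (s - 1)) * ((p : ℝ) ^ (s - 1) - 2 * (p : ℝ) ^ (s - 3)) <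
      (p : ℝ) ^ ((e - 1) * (s - 1)) * nsz p (fm d G a) :=
    mul_lt_mul_of_pos_left h5 (by positivity)
  rw [h9] at hlt
  linarith

open Classical in
theorem nu_largeG (d s : ℕ) (hd : 4 ≤ d) (hs : 8 ≤ s) : ∃ C : ℝ, 0 < C ∧
    ∀ (p H q0 : ℕ) (r0 : Fin s → ℤ), p.Prime → d < p → 1 ≤ q0 → Nat.Coprime p q0 → p * q0 ≤ H →
    ∀ G : Pol s,
    (((box s H).filter fun a : Fin s → ℤ => (∀ i, a i ≡ r0 i [ZMOD q0]) ∧ ∃ e : ℕ, 1 ≤ e ∧
      nuF (p ^ e) (fm d G a) < (1 - 2 / (p : ℝ) ^ 2) * (p : ℝ) ^ (e * (s - 1))).card : ℝ) ≤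
      C / (p : ℝ) ^ 2 * ((H : ℝ) / q0) ^ s := by
  refine ⟨((2 : ℝ) ^ s + (d : ℝ) ^ s) * 4 ^ s, by positivity, ?_⟩
  intro p H q0 r0 hp hdp hq0 hcop hpH G
  have hp0 : (0 : ℝ) < p := by exact_mod_cast hp.pos
  have hp1 : (1 : ℝ) ≤ p := by exact_mod_cast hp.one_le
  have hq0' : (0 : ℝ) < q0 := by exact_mod_cast hq0
  have hpq : 1 ≤ p * q0 := Nat.mul_pos hp.pos hq0
  have hpd : ¬ p ∣ d := fun h => by
    have := Nat.le_of_dvd (by omega) h
    omega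
  set Bp : Finset (Fin s → ℕ) := (Fintype.piFinset (fun _ : Fin s => range p)).filter fun r =>
    (p : ℝ) ^ (s - 3) ≤ sgz p (fm d G fun i => (r i : ℤ)) ∨
      (p : ℝ) ^ (2 * (s - 3)) ≤
        (nuF p (fm d G fun i => (r i : ℤ)) - (p : ℝ) ^ (s - 1)) ^ 2 with hBp
  set Bd : Finset (Fin s → ℕ) := (Fintype.piFinset (fun _ : Fin s => range (p * q0))).filter
    fun r => (fun i => r i % p) ∈ Bp ∧ ∀ i, (r i : ℤ) ≡ r0 i [ZMOD q0] with hBd
  -- the residue classes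
  have hsub : ((box s H).filter fun a : Fin s → ℤ => (∀ i, a i ≡ r0 i [ZMOD q0]) ∧
      ∃ e : ℕ, 1 ≤ e ∧
      nuF (p ^ e) (fm d G a) < (1 - 2 / (p : ℝ) ^ 2) * (p : ℝ) ^ (e * (s - 1))) ⊆
      ((box s H).filter fun a : Fin s → ℤ =>
        ∃ r ∈ Bd, ∀ i, a i ≡ r i [ZMOD ((p * q0 : ℕ) : ℤ)]) := by
    intro a ha
    rw [Finset.mem_filter] at ha ⊢
    obtain ⟨ha1, hr0, e, he, hlt⟩ := ha
    have hpqz : (0 : ℤ) < ((p * q0 : ℕ) : ℤ) := by exact_mod_cast hpq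
    have hr : ∀ i, ((a i % ((p * q0 : ℕ) : ℤ)).toNat : ℤ) = a i % ((p * q0 : ℕ) : ℤ) := fun i =>
      Int.toNat_of_nonneg (Int.emod_nonneg _ hpqz.ne')
    have hcong : ∀ i, a i ≡ (((a i % ((p * q0 : ℕ) : ℤ)).toNat : ℕ) : ℤ)
        [ZMOD ((p * q0 : ℕ) : ℤ)] := fun i => by
      rw [hr i]
      exact (Int.mod_modEq _ _).symm
    have hdp' : (p : ℤ) ∣ ((p * q0 : ℕ) : ℤ) := by
      push_cast
      exact Dvd.intro _ rfl
    have hdq : (q0 : ℤ) ∣ ((p * q0 : ℕ) : ℤ) := by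
      push_cast
      exact Dvd.intro_left _ rfl
    have hcp : ∀ i, a i ≡ (((a i % ((p * q0 : ℕ) : ℤ)).toNat % p : ℕ) : ℤ) [ZMOD p] := fun i => by
      refine ((hcong i).of_dvd hdp').trans ?_
      rw [Int.natCast_mod]
      exact (Int.mod_modEq _ _).symm
    refine ⟨ha1, fun i => (a i % ((p * q0 : ℕ) : ℤ)).toNat, ?_, hcong⟩
    rw [hBd, Finset.mem_filter, Fintype.mem_piFinset]
    refine ⟨?_, ?_, ?_⟩
    · intro i
      rw [Finset.mem_range]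
      have h1 := Int.emod_lt_of_pos (a i) hpqz
      have h2 := hr i
      omega
    · rw [hBp, Finset.mem_filter, Fintype.mem_piFinset]
      refine ⟨fun i => Finset.mem_range.2 (Nat.mod_lt _ hp.pos), ?_⟩
      have h1 : nuF p (fm d G fun i => (((a i % ((p * q0 : ℕ) : ℤ)).toNat % p : ℕ) : ℤ)) =
          nuF p (fm d G a) := (nuF_congr d p G _ _ hcp).symm
      have h2 : sgz p (fm d G fun i => (((a i % ((p * q0 : ℕ) : ℤ)).toNat % p : ℕ) : ℤ)) =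
          sgz p (fm d G a) := (nlg_sgz_congr d p G _ _ hcp).symm
      show (p : ℝ) ^ (s - 3) ≤
          sgz p (fm d G fun i => (((a i % ((p * q0 : ℕ) : ℤ)).toNat % p : ℕ) : ℤ)) ∨
        (p : ℝ) ^ (2 * (s - 3)) ≤
          (nuF p (fm d G fun i => (((a i % ((p * q0 : ℕ) : ℤ)).toNat % p : ℕ) : ℤ)) -
            (p : ℝ) ^ (s - 1)) ^ 2
      rw [h1, h2]
      exact nlg_good d s p e hs hp he G a hlt
    · intro i
      exact ((hcong i).of_dvd hdq).symm.trans (hr0 i)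
  -- the number of classes
  have hcard : (Bd.card : ℝ) ≤ ((2 : ℝ) ^ s + (d : ℝ) ^ s) * (p : ℝ) ^ 6 := by
    have h1 : Bd.card ≤ Bp.card := by
      refine Finset.card_le_card_of_injOn (fun r => fun i => r i % p) ?_ ?_
      · intro r hr
        rw [Finset.mem_coe, hBd, Finset.mem_filter] at hr
        exact Finset.mem_coe.2 hr.2.1
      · intro r hr r' hr' hrr
        rw [Finset.mem_coe, hBd, Finset.mem_filter, Fintype.mem_piFinset] at hr hr'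
        funext i
        have h2 : r i % p = r' i % p := congrFun hrr i
        have h3 : (r i : ℤ) ≡ r' i [ZMOD q0] := (hr.2.2 i).trans (hr'.2.2 i).symm
        have h4 : r i ≡ r' i [MOD q0] := Int.natCast_modEq_iff.1 h3
        have h5 : r i ≡ r' i [MOD p * q0] :=
          (Nat.modEq_and_modEq_iff_modEq_mul hcop).1 ⟨h2, h4⟩
        exact h5.eq_of_lt_of_lt (Finset.mem_range.1 (hr.1 i)) (Finset.mem_range.1 (hr'.1 i))
    have h2 := nlg_classes d s p hd hs hp hpd G Bp fun r hr => by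
      rw [hBp, Finset.mem_filter] at hr
      exact hr
    have h3 : (Bd.card : ℝ) ≤ Bp.card := by exact_mod_cast h1
    exact h3.trans h2
  have hbox := DG.box_residue s H (p * q0) hpq hpH Bd
  calc _ ≤ ((((box s H).filter fun a : Fin s → ℤ =>
        ∃ r ∈ Bd, ∀ i, a i ≡ r i [ZMOD ((p * q0 : ℕ) : ℤ)]).card : ℕ) : ℝ) := by
        exact_mod_cast Finset.card_le_card hsub
    _ ≤ Bd.card * (4 * (H : ℝ) / ((p * q0 : ℕ) : ℝ)) ^ s := hbox
    _ ≤ (((2 : ℝ) ^ s + (d : ℝ) ^ s) * (p : ℝ) ^ 6) * (4 * (H : ℝ) / ((p * q0 : ℕ) : ℝ)) ^ s :=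
        mul_le_mul_of_nonneg_right hcard (by positivity)
    _ = (((2 : ℝ) ^ s + (d : ℝ) ^ s) * 4 ^ s) * ((p : ℝ) ^ 6 / (p : ℝ) ^ s) *
          ((H : ℝ) / q0) ^ s := by
        push_cast
        rw [div_pow, mul_pow, mul_pow, div_pow]
        field_simp
    _ ≤ (((2 : ℝ) ^ s + (d : ℝ) ^ s) * 4 ^ s) * (1 / (p : ℝ) ^ 2) * ((H : ℝ) / q0) ^ s := by
        refine mul_le_mul_of_nonneg_right (mul_le_mul_of_nonneg_left ?_ (by positivity))
          (by positivity)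
        rw [div_le_div_iff₀ (by positivity) (by positivity), one_mul, ← pow_add]
        exact pow_le_pow_right₀ hp1 (by omega)
    _ = _ := by ring

end Pool.Agent.Lib.MP_e426f4_ag.DP
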