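import Pool.Agent.Lib.MP_e426f4_ag.DP.Basic
import Pool.Agent.Lib.MP_e426f4_ag.DG.Ker1

/-!
# NuVarG: variance of the number of zeros modulo `p` (adapt `DG/NuVar.lean`)

`nu - p^(s-1) = p⁻¹ ∑_{b ≠ 0} ∑_x ee(b (∑ a_i x_i^d + G(x)))`.  Square and sum over `a ∈ (ZMod p)^s`:
`p⁻² ∑_{b,b' ≠ 0} ∑_{x,y} ee(b G(x) - b' G(y)) ∏_i ∑_{a_i} ee(a_i (b x_i^d - b' y_i^d))`; the inner sums over `a_i` are
`≥ 0`, so with `|ee| = 1` the total is at most `p⁻² ∑_{b,b' ≠ 0} (p #{(x,y) : b x^d = b' y^d})^s ≤ d^s p^(2s)`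
as in `DG/NuVar.lean`.
-/

set_option autoImplicit false

namespace Pool.Agent.Lib.MP_e426f4_ag.DP

open Finset MvPolynomial
open Pool.Agent.Lib.MP_e426f4_ag.DG (box ee sum_ee)

private lemma nuv_bij {s p : ℕ} [NeZero p] {M : Type*} [AddCommMonoid M]
    (f : (Fin s → ZMod p) → M) :
    ∑ a ∈ Fintype.piFinset (fun _ : Fin s => range p), f (fun i => (a i : ZMod p))
      = ∑ a : Fin s → ZMod p, f a := by
  refine Finset.sum_bij' (fun a _ => fun i => (a i : ZMod p)) (fun a _ => fun i => (a i).val)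
    (fun a _ => Finset.mem_univ _) ?_ ?_ ?_ ?_
  · intro a _
    rw [Fintype.mem_piFinset]
    intro i
    rw [Finset.mem_range]
    exact ZMod.val_lt _
  · intro a ha
    rw [Fintype.mem_piFinset] at ha
    funext i
    exact ZMod.val_cast_of_lt (Finset.mem_range.1 (ha i))
  · intro a _
    funext i
    exact ZMod.natCast_zmod_val _
  · intro a _
    rfl

private noncomputable def nuvN {s p : ℕ} [NeZero p] (d : ℕ) (g : (Fin s → ZMod p) → ZMod p)
    (a : Fin s → ZMod p) : ℝ :=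
  ∑ x : Fin s → ZMod p, if ∑ i, a i * x i ^ d + g x = 0 then (1 : ℝ) else 0

private lemma evN_cast {s : ℕ} (p : ℕ) (G : Pol s) (x : Fin s → ℕ) :
    ((evN G x : ℤ) : ZMod p) = aeval (fun i => (x i : ZMod p)) G := by
  unfold evN evZ
  have h := MvPolynomial.eval₂_comp_left (Int.castRingHom (ZMod p)) (RingHom.id ℤ)
    (fun i => (x i : ℤ)) G
  rw [RingHom.comp_id] at h
  rw [aeval_def]
  have h2 : (algebraMap ℤ (ZMod p)) = Int.castRingHom (ZMod p) := rfl
  rw [h2]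
  have h3 : (fun i => (x i : ZMod p)) = (Int.castRingHom (ZMod p)) ∘ (fun i => (x i : ℤ)) := by
    funext i
    simp
  rw [h3, ← h]
  rfl

private lemma nuv_nu {s p : ℕ} [NeZero p] (d : ℕ) (G : Pol s) (a : Fin s → ℕ) :
    nuF p (fm d G fun i => (a i : ℤ)) =
      nuvN d (fun x => aeval x G) (fun i => (a i : ZMod p)) := by
  classical
  unfold nuF nuvN
  rw [← nuv_bij (fun x : Fin s → ZMod p =>
    if ∑ i, (a i : ZMod p) * x i ^ d + aeval x G = 0 then (1 : ℝ) else 0), Finset.card_filter]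
  push_cast
  refine Finset.sum_congr rfl fun x _ => ?_
  have h1 : ((p : ℤ) ∣ evN (fm d G fun i => (a i : ℤ)) x) ↔
      ∑ i, (a i : ZMod p) * (x i : ZMod p) ^ d + aeval (fun i => (x i : ZMod p)) G = 0 := by
    rw [evN_fm, ← ZMod.intCast_zmod_eq_zero_iff_dvd]
    push_cast
    rw [evN_cast, add_comm]
  simp only [h1]

private noncomputable def nuvS {s p : ℕ} [NeZero p] (d : ℕ) (g : (Fin s → ZMod p) → ZMod p)
    (b : ZMod p) (a : Fin s → ZMod p) : ℂ :=
  ∑ x : Fin s → ZMod p, ee p (b * (∑ i, a i * x i ^ d + g x))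

private lemma nuv_ee_add {p : ℕ} [NeZero p] (a b : ZMod p) : ee p (a + b) = ee p a * ee p b := by
  unfold ee
  exact AddChar.map_add_eq_mul _ _ _

private lemma nuv_ee_zero {p : ℕ} [NeZero p] : ee p (0 : ZMod p) = 1 := by
  unfold ee
  exact AddChar.map_zero_eq_one _

private lemma nuv_ee_norm {p : ℕ} [NeZero p] (a : ZMod p) : ‖ee p a‖ = 1 := by
  unfold ee
  exact AddChar.norm_apply _ _

private lemma nuv_ee_sum {p : ℕ} [NeZero p] {ι : Type*} (t : Finset ι) (f : ι → ZMod p) :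
    ee p (∑ i ∈ t, f i) = ∏ i ∈ t, ee p (f i) := by
  classical
  induction t using Finset.induction_on with
  | empty => rw [Finset.sum_empty, Finset.prod_empty, nuv_ee_zero]
  | insert i t hi ih => rw [Finset.sum_insert hi, Finset.prod_insert hi, nuv_ee_add, ih]

private lemma nuv_conj {p : ℕ} [NeZero p] (c : ZMod p) :
    (starRingEnd ℂ) (ee p c) = ee p (-c) := by
  unfold ee
  exact (AddChar.map_neg_eq_conj _ _).symm

/-- the deviation as an exponential sum -/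
private lemma nuv_dev {s p : ℕ} [NeZero p] (hs : 1 ≤ s) (d : ℕ) (g : (Fin s → ZMod p) → ZMod p)
    (a : Fin s → ZMod p) :
    (p : ℂ) * ((nuvN d g a - (p : ℝ) ^ (s - 1) : ℝ) : ℂ)
      = ∑ b ∈ (univ : Finset (ZMod p)).erase 0, nuvS d g b a := by
  classical
  have h1 : (p : ℂ) * ((nuvN d g a : ℝ) : ℂ) = ∑ b : ZMod p, nuvS d g b a := by
    unfold nuvN nuvS
    rw [Finset.sum_comm]
    push_cast
    rw [Finset.mul_sum]
    refine Finset.sum_congr rfl fun x _ => ?_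
    rw [sum_ee]
    split_ifs
    · rw [Complex.ofReal_one, mul_one]
    · rw [Complex.ofReal_zero, mul_zero]
  have h2 : nuvS d g (0 : ZMod p) a = (p : ℂ) ^ s := by
    unfold nuvS
    simp only [zero_mul, nuv_ee_zero]
    rw [Finset.sum_const, Finset.card_univ, Fintype.card_fun, ZMod.card, Fintype.card_fin,
      nsmul_eq_mul, mul_one]
    push_cast
    rfl
  rw [← Finset.add_sum_erase _ _ (Finset.mem_univ (0 : ZMod p)), h2] at h1
  have h3 : (p : ℂ) * (p : ℂ) ^ (s - 1) = (p : ℂ) ^ s := by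
    rw [← pow_succ', Nat.sub_add_cancel hs]
  push_cast
  rw [mul_sub, h1, h3]
  ring

private noncomputable def nuvH {p : ℕ} [NeZero p] (d : ℕ) (b b' : ZMod p) : ℝ :=
  ∑ u : ZMod p, ∑ t : ZMod p, if b * u ^ d - b' * t ^ d = 0 then (p : ℝ) else 0

private lemma nuv_corr {s p : ℕ} [NeZero p] (d : ℕ) (g : (Fin s → ZMod p) → ZMod p)
    (b b' : ZMod p) :
    ‖∑ a : Fin s → ZMod p, nuvS d g b a * (starRingEnd ℂ) (nuvS d g b' a)‖
      ≤ nuvH d b b' ^ s := by
  classical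
  have h1 : ∀ a : Fin s → ZMod p, nuvS d g b a * (starRingEnd ℂ) (nuvS d g b' a)
      = ∑ x : Fin s → ZMod p, ∑ y : Fin s → ZMod p,
        ee p (b * g x - b' * g y) * ∏ i, ee p (a i * (b * x i ^ d - b' * y i ^ d)) := by
    intro a
    unfold nuvS
    rw [map_sum, Finset.sum_mul_sum]
    refine Finset.sum_congr rfl fun x _ => Finset.sum_congr rfl fun y _ => ?_
    rw [nuv_conj, ← nuv_ee_add, ← nuv_ee_sum, ← nuv_ee_add]
    congr 1
    have h2 : ∑ i, a i * (b * x i ^ d - b' * y i ^ d) =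
        b * ∑ i, a i * x i ^ d - b' * ∑ i, a i * y i ^ d := by
      rw [Finset.mul_sum, Finset.mul_sum, ← Finset.sum_sub_distrib]
      refine Finset.sum_congr rfl fun i _ => ?_
      ring
    rw [h2]
    ring
  simp_rw [h1]
  rw [Finset.sum_comm]
  have h3 : ∀ x y : Fin s → ZMod p, ∑ a : Fin s → ZMod p,
      ∏ i, ee p (a i * (b * x i ^ d - b' * y i ^ d))
      = ∏ i, (if b * x i ^ d - b' * y i ^ d = 0 then (p : ℂ) else 0) := by
    intro x y
    have h4 := Finset.prod_univ_sum (fun _ : Fin s => (univ : Finset (ZMod p)))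
      (fun i c => ee p (c * (b * x i ^ d - b' * y i ^ d)))
    rw [Fintype.piFinset_univ] at h4
    rw [← h4]
    exact Finset.prod_congr rfl fun i _ => sum_ee _
  have h2 : ∀ x : Fin s → ZMod p, ‖∑ a : Fin s → ZMod p, ∑ y : Fin s → ZMod p,
      ee p (b * g x - b' * g y) * ∏ i, ee p (a i * (b * x i ^ d - b' * y i ^ d))‖
      ≤ ∏ i, ∑ t : ZMod p, (if b * x i ^ d - b' * t ^ d = 0 then (p : ℝ) else 0) := by
    intro x
    rw [Finset.sum_comm]
    have h5 := Finset.prod_univ_sum (fun _ : Fin s => (univ : Finset (ZMod p)))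
      (fun i t => (if b * x i ^ d - b' * t ^ d = 0 then (p : ℝ) else 0))
    rw [Fintype.piFinset_univ] at h5
    rw [h5]
    refine (norm_sum_le _ _).trans (Finset.sum_le_sum fun y _ => ?_)
    rw [← Finset.mul_sum, h3, norm_mul, nuv_ee_norm, one_mul, norm_prod]
    refine le_of_eq (Finset.prod_congr rfl fun i _ => ?_)
    split_ifs
    · rw [Complex.norm_natCast]
    · rw [norm_zero]
  refine (norm_sum_le _ _).trans ((Finset.sum_le_sum fun x _ => h2 x).trans (le_of_eq ?_))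
  have h6 := Finset.prod_univ_sum (fun _ : Fin s => (univ : Finset (ZMod p)))
    (fun _ u => ∑ t : ZMod p, (if b * u ^ d - b' * t ^ d = 0 then (p : ℝ) else 0))
  rw [Fintype.piFinset_univ] at h6
  rw [← h6, Finset.prod_const, Finset.card_univ, Fintype.card_fin]
  rfl

private lemma nuv_H_le {p : ℕ} [NeZero p] (hp : p.Prime) (d : ℕ) (hd : 1 ≤ d) (b b' : ZMod p)
    (hb : b ≠ 0) : nuvH d b b' ≤ (d : ℝ) * (p : ℝ) ^ 2 := by
  classical
  have := Fact.mk hp
  unfold nuvH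
  rw [Finset.sum_comm]
  have h1 : ∀ t : ZMod p, ∑ u : ZMod p, (if b * u ^ d - b' * t ^ d = 0 then (p : ℝ) else 0)
      ≤ (d : ℝ) * p := by
    intro t
    rw [← Finset.sum_filter, Finset.sum_const, nsmul_eq_mul]
    refine mul_le_mul_of_nonneg_right ?_ (Nat.cast_nonneg _)
    have h2 : (univ : Finset (ZMod p)).filter (fun u => b * u ^ d - b' * t ^ d = 0)
        ⊆ (Polynomial.nthRoots d (b⁻¹ * (b' * t ^ d))).toFinset := by
      intro u hu
      have hu2 := (Finset.mem_filter.1 hu).2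
      rw [Multiset.mem_toFinset, Polynomial.mem_nthRoots hd]
      rw [← sub_eq_zero.1 hu2, ← mul_assoc, inv_mul_cancel₀ hb, one_mul]
    have h3 := (Finset.card_le_card h2).trans ((Multiset.toFinset_card_le _).trans
      (Polynomial.card_nthRoots d _))
    exact_mod_cast h3
  calc ∑ t : ZMod p, ∑ u : ZMod p, (if b * u ^ d - b' * t ^ d = 0 then (p : ℝ) else 0)
      ≤ ∑ _t : ZMod p, (d : ℝ) * p := Finset.sum_le_sum fun t _ => h1 t
    _ = (d : ℝ) * (p : ℝ) ^ 2 := by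
        rw [Finset.sum_const, Finset.card_univ, ZMod.card, nsmul_eq_mul]
        ring

private lemma nuv_H_nonneg {p : ℕ} [NeZero p] (d : ℕ) (b b' : ZMod p) : 0 ≤ nuvH d b b' := by
  unfold nuvH
  refine Finset.sum_nonneg fun u _ => Finset.sum_nonneg fun t _ => ?_
  split_ifs
  · exact Nat.cast_nonneg _
  · exact le_rfl

theorem nu_varG (d s p : ℕ) (hd : 1 ≤ d) (hs : 1 ≤ s) (hp : p.Prime) (G : Pol s) :
    ∑ a ∈ Fintype.piFinset (fun _ : Fin s => range p),
      (nuF p (fm d G fun i => (a i : ℤ)) - (p : ℝ) ^ (s - 1)) ^ 2 ≤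
      (d : ℝ) ^ s * (p : ℝ) ^ (2 * s) := by
  classical
  have hne : NeZero p := ⟨hp.ne_zero⟩
  have hp0 : (0 : ℝ) < p := by exact_mod_cast hp.pos
  set g : (Fin s → ZMod p) → ZMod p := fun x => aeval x G with hg
  have h1 : ∑ a ∈ Fintype.piFinset (fun _ : Fin s => range p),
      (nuF p (fm d G fun i => (a i : ℤ)) - (p : ℝ) ^ (s - 1)) ^ 2
      = ∑ a : Fin s → ZMod p, (nuvN d g a - (p : ℝ) ^ (s - 1)) ^ 2 := by
    rw [← nuv_bij (fun a : Fin s → ZMod p => (nuvN d g a - (p : ℝ) ^ (s - 1)) ^ 2)]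
    exact Finset.sum_congr rfl fun a _ => by rw [nuv_nu]
  rw [h1]
  set Z : Finset (ZMod p) := (univ : Finset (ZMod p)).erase 0 with hZ
  have h2 : (p : ℝ) ^ 2 * ∑ a : Fin s → ZMod p, (nuvN d g a - (p : ℝ) ^ (s - 1)) ^ 2
      ≤ ∑ b ∈ Z, ∑ b' ∈ Z, nuvH d b b' ^ s := by
    have h3 : (((p : ℝ) ^ 2 * ∑ a : Fin s → ZMod p, (nuvN d g a - (p : ℝ) ^ (s - 1)) ^ 2 : ℝ) : ℂ)
        = ∑ b ∈ Z, ∑ b' ∈ Z, ∑ a : Fin s → ZMod p,
          nuvS d g b a * (starRingEnd ℂ) (nuvS d g b' a) := by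
      have h4 : ∀ a : Fin s → ZMod p,
          (p : ℂ) ^ 2 * (((nuvN d g a - (p : ℝ) ^ (s - 1) : ℝ) : ℂ)) ^ 2
          = ∑ b ∈ Z, ∑ b' ∈ Z, nuvS d g b a * (starRingEnd ℂ) (nuvS d g b' a) := by
        intro a
        have h5 := nuv_dev hs d g a
        have h6 : (starRingEnd ℂ) ((p : ℂ) * ((nuvN d g a - (p : ℝ) ^ (s - 1) : ℝ) : ℂ))
            = (p : ℂ) * ((nuvN d g a - (p : ℝ) ^ (s - 1) : ℝ) : ℂ) := by
          rw [map_mul, Complex.conj_natCast, Complex.conj_ofReal]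
        calc (p : ℂ) ^ 2 * (((nuvN d g a - (p : ℝ) ^ (s - 1) : ℝ) : ℂ)) ^ 2
            = ((p : ℂ) * ((nuvN d g a - (p : ℝ) ^ (s - 1) : ℝ) : ℂ)) *
              (starRingEnd ℂ) ((p : ℂ) * ((nuvN d g a - (p : ℝ) ^ (s - 1) : ℝ) : ℂ)) := by
              rw [h6]
              ring
          _ = _ := by
              rw [h5, map_sum, Finset.sum_mul_sum]
      push_cast
      push_cast at h4
      rw [Finset.mul_sum]
      simp_rw [h4]
      rw [Finset.sum_comm]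
      refine Finset.sum_congr rfl fun b _ => ?_
      rw [Finset.sum_comm]
    have h5 : (p : ℝ) ^ 2 * ∑ a : Fin s → ZMod p, (nuvN d g a - (p : ℝ) ^ (s - 1)) ^ 2 =
        ‖∑ b ∈ Z, ∑ b' ∈ Z, ∑ a : Fin s → ZMod p,
          nuvS d g b a * (starRingEnd ℂ) (nuvS d g b' a)‖ := by
      rw [← h3, Complex.norm_real, Real.norm_of_nonneg]
      positivity
    rw [h5]
    refine (norm_sum_le _ _).trans (Finset.sum_le_sum fun b _ => ?_)
    refine (norm_sum_le _ _).trans (Finset.sum_le_sum fun b' _ => ?_)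
    exact nuv_corr d g b b'
  have h7 : ∑ b ∈ Z, ∑ b' ∈ Z, nuvH d b b' ^ s ≤ (p : ℝ) ^ 2 * ((d : ℝ) * (p : ℝ) ^ 2) ^ s := by
    have hZc : (Z.card : ℝ) ≤ p := by
      have h8 : Z.card ≤ p := by
        refine (Finset.card_le_univ _).trans ?_
        rw [ZMod.card]
      exact_mod_cast h8
    have hnn : 0 ≤ ((d : ℝ) * (p : ℝ) ^ 2) ^ s := by positivity
    calc ∑ b ∈ Z, ∑ b' ∈ Z, nuvH d b b' ^ s
        ≤ ∑ _b ∈ Z, ∑ _b' ∈ Z, ((d : ℝ) * (p : ℝ) ^ 2) ^ s := by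
          refine Finset.sum_le_sum fun b hb => Finset.sum_le_sum fun b' _ => ?_
          exact pow_le_pow_left₀ (nuv_H_nonneg d b b')
            (nuv_H_le hp d hd b b' (Finset.ne_of_mem_erase hb)) s
      _ = (Z.card : ℝ) * ((Z.card : ℝ) * ((d : ℝ) * (p : ℝ) ^ 2) ^ s) := by
          rw [Finset.sum_const, Finset.sum_const, nsmul_eq_mul, nsmul_eq_mul]
      _ ≤ (p : ℝ) * ((p : ℝ) * ((d : ℝ) * (p : ℝ) ^ 2) ^ s) := by
          gcongr
      _ = _ := by ring
  have h8 : (p : ℝ) ^ 2 * ∑ a : Fin s → ZMod p, (nuvN d g a - (p : ℝ) ^ (s - 1)) ^ 2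
      ≤ (p : ℝ) ^ 2 * ((d : ℝ) ^ s * (p : ℝ) ^ (2 * s)) := by
    refine h2.trans (h7.trans (le_of_eq ?_))
    rw [mul_pow, ← pow_mul]
  exact le_of_mul_le_mul_left h8 (by positivity)

end Pool.Agent.Lib.MP_e426f4_ag.DP
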