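import Pool.Agent.Lib.MP_e426f4_ag.DP.Basic

/-!
# PSing: few classes modulo `p^k` have a point which is singular modulo `p^k`

Let `v = v_p(d)` and choose `L` with `s · s · 2^s / p^L ≤ eps`, thresholds `t_0 = 1`,
`t_{r+1} = s (v + (d - 1) t_r) + L`, `k1 = t_{s+1}`.  Let `k ≥ k1` and `x` primitive with
`p^k ∣ ∂_i F(x)` for all `i`.  Multiply `x` by the inverse modulo `p^k` of a unit coordinate `x_j`
(homogeneity of the partial derivatives): we may assume `x_j ≡ 1 mod p^k`.  The `s` intervals of valuations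
`[t_r, t_{r+1})`, `r = 0, ..., s - 1`, and the `s - 1` other coordinates: one interval contains no valuation `v_p(x_i)`.
Let `S = {i | v_p(x_i) < t_r} ∋ j`; for `i ∉ S` `p^(t_{r+1}) ∣ x_i`.  Put `δ = t_{r+1} ≤ k`, `y_i = x_i mod p^δ`
for `i ∈ S` (`y_j = 1`), `y_i = 0` for `i ∉ S`.  Then for `i ∈ S`
`0 ≡ ∂_i G(y) + d a_i y_i^(d-1) mod p^δ` and `v_p(d y_i^(d-1)) ≤ v + (d-1) t_r =: e0 < δ`, so `a_i` is determined modulo
`p^(δ - e0)` by `y`.  The number of `a ∈ range(p^k)^s` for a given `y` is at most `p^(ks) p^(-(δ - e0) |S|)`, the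
number of `y` at most `p^(δ (|S| - 1))`; together `p^(ks) p^(-δ + e0 |S|) ≤ p^(ks) p^(-L)`.  Sum over `r`, `S`, `j`.
-/

set_option autoImplicit false

namespace Pool.Agent.Lib.MP_e426f4_ag.DP

open Finset MvPolynomial
open Pool.Agent.Lib.MP_e426f4_ag.DG (box)

/-! ## divisibility -/

private theorem ps_not_dvd {p : ℕ} (hp : p.Prime) {d : ℕ} (hd : 1 ≤ d) (t : ℕ) (y : ℤ)
    (hy : ¬ (p : ℤ) ^ t ∣ y) :
    ¬ (p : ℤ) ^ (padicValNat p d + (d - 1) * t + 1) ∣ (d : ℤ) * y ^ (d - 1) := by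
  have hpZ : Prime (p : ℤ) := Nat.prime_iff_prime_int.mp hp
  have hy0 : y ≠ 0 := by
    rintro rfl
    exact hy (dvd_zero _)
  have hfin : FiniteMultiplicity (p : ℤ) y :=
    Int.finiteMultiplicity_iff.mpr ⟨by simpa using hp.ne_one, hy0⟩
  obtain ⟨y', hy1, hy2⟩ := hfin.exists_eq_pow_mul_and_not_dvd
  set w := multiplicity (p : ℤ) y with hw
  have hd0 : (d : ℤ) ≠ 0 := by
    have : d ≠ 0 := by omega
    exact_mod_cast this
  obtain ⟨d', hd1, hd2⟩ : ∃ d' : ℤ, (d : ℤ) = (p : ℤ) ^ padicValNat p d * d' ∧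
      ¬ (p : ℤ) ∣ d' := by
    refine ⟨((d / p ^ padicValNat p d : ℕ) : ℤ), ?_, ?_⟩
    · have h1 : p ^ padicValNat p d * (d / p ^ padicValNat p d) = d :=
        Nat.mul_div_cancel' pow_padicValNat_dvd
      exact_mod_cast h1.symm
    · intro h1
      have h2 : p ∣ d / p ^ padicValNat p d := by exact_mod_cast h1
      have h3 : p ^ (padicValNat p d + 1) ∣ d := by
        rw [pow_succ]
        have h4 : p ^ padicValNat p d * (d / p ^ padicValNat p d) = d :=
          Nat.mul_div_cancel' pow_padicValNat_dvd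
        calc p ^ padicValNat p d * p ∣ p ^ padicValNat p d * (d / p ^ padicValNat p d) :=
              mul_dvd_mul_left _ h2
          _ = d := h4
      have : Fact p.Prime := ⟨hp⟩
      exact pow_succ_padicValNat_not_dvd (by omega) h3
  have hwt : w < t := by
    by_contra hcon
    apply hy
    rw [hy1]
    exact Dvd.dvd.mul_right (pow_dvd_pow _ (by omega)) _
  have h5 : (d : ℤ) * y ^ (d - 1) =
      (p : ℤ) ^ (padicValNat p d + (d - 1) * w) * (d' * y' ^ (d - 1)) := by
    rw [hy1, mul_pow, ← pow_mul]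
    conv_lhs => rw [hd1]
    rw [pow_add, mul_comm (d - 1) w]
    ring
  intro h6
  have h7 : (p : ℤ) ^ (padicValNat p d + (d - 1) * w + 1) ∣ (d : ℤ) * y ^ (d - 1) := by
    refine (pow_dvd_pow _ ?_).trans h6
    have := Nat.mul_le_mul_left (d - 1) hwt.le
    omega
  rw [h5, pow_succ] at h7
  have h8 := (mul_dvd_mul_iff_left (pow_ne_zero _ hpZ.ne_zero)).mp h7
  rcases hpZ.dvd_or_dvd h8 with h9 | h9
  · exact hd2 h9
  · exact hy2 (hpZ.dvd_of_dvd_pow h9)

private theorem ps_cancel {p : ℕ} (hp : p.Prime) (e0 δ : ℕ) (m b : ℤ)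
    (hm : ¬ (p : ℤ) ^ (e0 + 1) ∣ m) (h : (p : ℤ) ^ δ ∣ m * b) : (p : ℤ) ^ (δ - e0) ∣ b := by
  have hpZ : Prime (p : ℤ) := Nat.prime_iff_prime_int.mp hp
  have hm0 : m ≠ 0 := by
    rintro rfl
    exact hm (dvd_zero _)
  have hfin : FiniteMultiplicity (p : ℤ) m :=
    Int.finiteMultiplicity_iff.mpr ⟨by simpa using hp.ne_one, hm0⟩
  obtain ⟨m', hm1, hm2⟩ := hfin.exists_eq_pow_mul_and_not_dvd
  set w := multiplicity (p : ℤ) m with hw
  have hwe : w ≤ e0 := by
    by_contra hcon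
    apply hm
    rw [hm1]
    exact Dvd.dvd.mul_right (pow_dvd_pow _ (by omega)) _
  rcases le_total δ w with h1 | h1
  · rw [Nat.sub_eq_zero_of_le (h1.trans hwe), pow_zero]
    exact one_dvd _
  · have h2 : (p : ℤ) ^ δ = (p : ℤ) ^ w * (p : ℤ) ^ (δ - w) := by
      rw [← pow_add]
      congr 1
      omega
    rw [hm1, h2, mul_assoc] at h
    have h3 := (mul_dvd_mul_iff_left (pow_ne_zero _ hpZ.ne_zero)).mp h
    have h4 := hpZ.pow_dvd_of_dvd_mul_left _ hm2 h3
    exact (pow_dvd_pow _ (by omega)).trans h4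

/-! ## counting in one variable -/

private theorem ps_card_one {p : ℕ} (hp : p.Prime) (e0 g k' : ℕ) (c m : ℤ)
    (hm : ¬ (p : ℤ) ^ (e0 + 1) ∣ m) :
    ((range (p ^ (g + k'))).filter fun a : ℕ => (p : ℤ) ^ (e0 + g) ∣ c + m * (a : ℤ)).card ≤
      p ^ k' := by
  classical
  set A := (range (p ^ (g + k'))).filter fun a : ℕ => (p : ℤ) ^ (e0 + g) ∣ c + m * (a : ℤ) with hA
  have hq : 0 < p ^ g := pow_pos hp.pos _
  have hmod : ∀ a ∈ A, ∀ b ∈ A, a % p ^ g = b % p ^ g := by
    intro a ha b hb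
    rw [hA, Finset.mem_filter] at ha hb
    have h1 : (p : ℤ) ^ (e0 + g) ∣ m * ((a : ℤ) - b) := by
      have := dvd_sub ha.2 hb.2
      have h2 : c + m * (a : ℤ) - (c + m * (b : ℤ)) = m * ((a : ℤ) - b) := by ring
      rwa [h2] at this
    have h3 := ps_cancel hp e0 (e0 + g) m _ hm h1
    rw [Nat.add_sub_cancel_left] at h3
    have h4 : (a : ℤ) ≡ b [ZMOD ((p ^ g : ℕ) : ℤ)] := by
      apply Int.ModEq.symm
      rw [Int.modEq_iff_dvd]
      push_cast
      exact h3
    exact (Int.natCast_modEq_iff.mp h4)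
  rw [← Finset.card_range (p ^ k')]
  apply Finset.card_le_card_of_injOn (fun a => a / p ^ g)
  · intro a ha
    have ha' := Finset.mem_coe.mp ha
    rw [hA, Finset.mem_filter, Finset.mem_range] at ha'
    rw [Finset.mem_coe, Finset.mem_range]
    apply Nat.div_lt_of_lt_mul
    rw [← pow_add]
    exact ha'.1
  · intro a ha b hb hab
    have h1 := hmod a (Finset.mem_coe.mp ha) b (Finset.mem_coe.mp hb)
    have h2 : a / p ^ g = b / p ^ g := hab
    calc a = p ^ g * (a / p ^ g) + a % p ^ g := (Nat.div_add_mod _ _).symm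
      _ = p ^ g * (b / p ^ g) + b % p ^ g := by rw [h1, h2]
      _ = b := Nat.div_add_mod _ _

/-! ## counting for one point modulo `p ^ δ` -/

open Classical in
private theorem ps_card_y {p : ℕ} (hp : p.Prime) {s : ℕ} (e0 g k' : ℕ) (S : Finset (Fin s))
    (c m : Fin s → ℤ) (hm : ∀ i ∈ S, ¬ (p : ℤ) ^ (e0 + 1) ∣ m i) :
    ((Fintype.piFinset fun _ : Fin s => range (p ^ (g + k'))).filter fun a : Fin s → ℕ =>
      ∀ i ∈ S, (p : ℤ) ^ (e0 + g) ∣ c i + m i * (a i : ℤ)).card ≤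
      (p ^ k') ^ S.card * (p ^ (g + k')) ^ (s - S.card) := by
  have h1 : ((Fintype.piFinset fun _ : Fin s => range (p ^ (g + k'))).filter fun a : Fin s → ℕ =>
      ∀ i ∈ S, (p : ℤ) ^ (e0 + g) ∣ c i + m i * (a i : ℤ)) ⊆
      Fintype.piFinset fun i : Fin s => if i ∈ S then
        (range (p ^ (g + k'))).filter fun a : ℕ => (p : ℤ) ^ (e0 + g) ∣ c i + m i * (a : ℤ)
        else range (p ^ (g + k')) := by
    intro a ha
    rw [Finset.mem_filter, Fintype.mem_piFinset] at ha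
    rw [Fintype.mem_piFinset]
    intro i
    by_cases hi : i ∈ S
    · rw [if_pos hi, Finset.mem_filter]
      exact ⟨ha.1 i, ha.2 i hi⟩
    · rw [if_neg hi]
      exact ha.1 i
  refine (Finset.card_le_card h1).trans ?_
  rw [Fintype.card_piFinset]
  have h2 : ∏ i : Fin s, (if i ∈ S then
        (range (p ^ (g + k'))).filter fun a : ℕ => (p : ℤ) ^ (e0 + g) ∣ c i + m i * (a : ℤ)
        else range (p ^ (g + k'))).card ≤
      ∏ i : Fin s, (if i ∈ S then p ^ k' else p ^ (g + k')) := by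
    apply Finset.prod_le_prod'
    intro i _
    by_cases hi : i ∈ S
    · rw [if_pos hi, if_pos hi]
      exact ps_card_one hp e0 g k' (c i) (m i) (hm i hi)
    · rw [if_neg hi, if_neg hi, Finset.card_range]
  refine h2.trans (le_of_eq ?_)
  rw [Finset.prod_ite, Finset.prod_const, Finset.prod_const]
  congr 2
  · congr 1
    ext i
    simp
  · have h3 : (univ.filter fun i : Fin s => ¬ i ∈ S) = Sᶜ := by
      ext i
      simp
    rw [h3, Finset.card_compl, Fintype.card_fin]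

/-! ## the points modulo `p ^ δ` -/

private theorem ps_card_Y {s : ℕ} (q : ℕ) (S : Finset (Fin s)) (j : Fin s) (hj : j ∈ S) :
    (Fintype.piFinset fun i : Fin s => if i = j then ({1} : Finset ℕ) else
      if i ∈ S then range q else {0}).card = q ^ (S.card - 1) := by
  classical
  rw [Fintype.card_piFinset]
  have h1 : ∀ i : Fin s, (if i = j then ({1} : Finset ℕ) else
      if i ∈ S then range q else {0}).card = if i ∈ S.erase j then q else 1 := by
    intro i
    by_cases hi : i = j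
    · simp [hi]
    · by_cases hS : i ∈ S
      · simp [hi, hS]
      · simp [hi, hS]
  rw [Finset.prod_congr rfl fun i _ => h1 i]
  rw [Finset.prod_ite_mem, Finset.univ_inter, Finset.prod_const, Finset.card_erase_of_mem hj]

/-! ## the thresholds -/

private def psT (s v d L : ℕ) : ℕ → ℕ
  | 0 => 1
  | r + 1 => s * (v + (d - 1) * psT s v d L r) + L

private theorem psT_mono (s v d L : ℕ) (hs : 1 ≤ s) (hd : 2 ≤ d) :
    Monotone (psT s v d L) := by
  apply monotone_nat_of_le_succ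
  intro r
  change psT s v d L r ≤ s * (v + (d - 1) * psT s v d L r) + L
  have h1 : psT s v d L r ≤ (d - 1) * psT s v d L r := Nat.le_mul_of_pos_left _ (by omega)
  have h2 : v + (d - 1) * psT s v d L r ≤ s * (v + (d - 1) * psT s v d L r) :=
    Nat.le_mul_of_pos_left _ (by omega)
  omega

private theorem ps_gap {s p : ℕ} (T : ℕ → ℕ) (hT : Monotone T) (hT0 : T 0 = 1)
    (x : Fin s → ℤ) (j : Fin s) (hj : ¬ (p : ℤ) ∣ x j) :
    ∃ r < s, ∀ i, (p : ℤ) ^ T r ∣ x i → (p : ℤ) ^ T (r + 1) ∣ x i := by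
  by_contra hcon
  push Not at hcon
  have h1 : ∀ r : Fin s, ∃ i, (p : ℤ) ^ T r ∣ x i ∧ ¬ (p : ℤ) ^ T ((r : ℕ) + 1) ∣ x i :=
    fun r => hcon r r.2
  choose f hf1 hf2 using h1
  have hlt : ∀ r r' : Fin s, r < r' → f r ≠ f r' := by
    intro r r' hrr h
    apply hf2 r
    rw [h]
    exact (pow_dvd_pow _ (hT (by exact_mod_cast hrr : (r : ℕ) + 1 ≤ r'))).trans (hf1 r')
  have hinj : Function.Injective f := by
    intro r r' h
    rcases lt_trichotomy r r' with h2 | h2 | h2
    · exact absurd h (hlt r r' h2)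
    · exact h2
    · exact absurd h.symm (hlt r' r h2)
  obtain ⟨r, hr⟩ := (Finite.injective_iff_surjective.mp hinj) j
  apply hj
  have h3 := hf1 r
  rw [hr] at h3
  have h4 : 1 ≤ T r := by
    rw [← hT0]
    exact hT (Nat.zero_le _)
  exact (dvd_pow_self _ (by omega)).trans h3

/-! ## homogeneity -/

private theorem ps_hom {s n : ℕ} {F : Pol s} (hF : F.IsHomogeneous n) (u : ℤ) (x : Fin s → ℤ) :
    evZ F (fun i => u * x i) = u ^ n * evZ F x := by
  unfold evZ
  rw [eval_eq, eval_eq, Finset.mul_sum]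
  apply Finset.sum_congr rfl
  intro m hm
  have h1 : ∏ i ∈ m.support, (u * x i) ^ m i = u ^ n * ∏ i ∈ m.support, x i ^ m i := by
    rw [Finset.prod_congr rfl fun i _ => mul_pow u (x i) (m i), Finset.prod_mul_distrib,
      Finset.prod_pow_eq_pow_sum]
    congr 2
    have := hF (mem_support_iff.mp hm)
    rw [← this, Finsupp.weight_apply]
    simp [Finsupp.sum]
  rw [h1]
  ring

/-- the classes with a point of type `(r, S, j)` -/
private noncomputable def psE (p k δ t : ℕ) {s : ℕ} (F : (Fin s → ℤ) → Pol s) (S : Finset (Fin s))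
    (j : Fin s) : Finset (Fin s → ℕ) := by
  classical
  exact (Fintype.piFinset fun _ : Fin s => range (p ^ k)).filter fun a : Fin s → ℕ =>
    ∃ y ∈ (Fintype.piFinset fun i : Fin s => if i = j then ({1} : Finset ℕ) else
      if i ∈ S then range (p ^ δ) else {0}), (∀ i ∈ S, ¬ (p : ℤ) ^ t ∣ (y i : ℤ)) ∧
      ∀ i ∈ S, (p : ℤ) ^ δ ∣ evZ (pderiv i (F fun i => (a i : ℤ))) fun i => (y i : ℤ)

private theorem ps_card_E (d s p : ℕ) (hd : 2 ≤ d) (hp : p.Prime) (L t δ k : ℕ)
    (hδ : δ = s * (padicValNat p d + (d - 1) * t) + L) (hL : 1 ≤ L) (hk : δ ≤ k)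
    (G : Pol s) (S : Finset (Fin s)) (j : Fin s) (hj : j ∈ S) :
    (psE p k δ t (fm d G) S j).card * p ^ L ≤ p ^ (k * s) := by
  classical
  set e0 := padicValNat p d + (d - 1) * t with he0
  have hs : 1 ≤ s := by
    have := j.2
    omega
  have he0δ : e0 ≤ δ := by
    rw [hδ]
    have : e0 ≤ s * e0 := Nat.le_mul_of_pos_left _ (by omega)
    omega
  obtain ⟨g, hg⟩ := Nat.exists_eq_add_of_le he0δ
  obtain ⟨k', hk'⟩ : ∃ k', k = g + k' := ⟨k - g, by omega⟩
  set Y := (Fintype.piFinset fun i : Fin s => if i = j then ({1} : Finset ℕ) else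
      if i ∈ S then range (p ^ δ) else {0}) with hY
  have h1 : psE p k δ t (fm d G) S j ⊆ (Y.filter fun y => ∀ i ∈ S, ¬ (p : ℤ) ^ t ∣ (y i : ℤ)).biUnion
      fun y => (Fintype.piFinset fun _ : Fin s => range (p ^ k)).filter fun a : Fin s → ℕ =>
        ∀ i ∈ S, (p : ℤ) ^ δ ∣ evZ (pderiv i G) (fun i => (y i : ℤ)) +
          ((d : ℤ) * (y i : ℤ) ^ (d - 1)) * (a i : ℤ) := by
    intro a ha
    unfold psE at ha
    rw [Finset.mem_filter] at ha
    obtain ⟨ha1, y, hy1, hy2, hy3⟩ := ha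
    rw [Finset.mem_biUnion]
    refine ⟨y, ?_, ?_⟩
    · rw [Finset.mem_filter]
      exact ⟨hy1, hy2⟩
    · rw [Finset.mem_filter]
      refine ⟨ha1, fun i hi => ?_⟩
      have h2 := hy3 i hi
      rw [evZ_pderiv_fm] at h2
      have h3 : evZ (pderiv i G) (fun i => (y i : ℤ)) +
          ((d : ℤ) * (y i : ℤ) ^ (d - 1)) * (a i : ℤ) =
          evZ (pderiv i G) (fun i => (y i : ℤ)) + (d : ℤ) * (a i : ℤ) * (y i : ℤ) ^ (d - 1) := by
        ring
      rw [h3]
      exact h2
  have h2 : (psE p k δ t (fm d G) S j).card ≤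
      (p ^ δ) ^ (S.card - 1) * ((p ^ k') ^ S.card * (p ^ (g + k')) ^ (s - S.card)) := by
    refine (Finset.card_le_card h1).trans ?_
    refine Finset.card_biUnion_le.trans ?_
    refine (Finset.sum_le_card_nsmul _ _ ((p ^ k') ^ S.card * (p ^ (g + k')) ^ (s - S.card))
      fun y hy => ?_).trans ?_
    · rw [Finset.mem_filter] at hy
      rw [hk', hg]
      exact ps_card_y hp e0 g k' S (fun i => evZ (pderiv i G) fun i => (y i : ℤ))
        (fun i => (d : ℤ) * (y i : ℤ) ^ (d - 1)) fun i hi =>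
          ps_not_dvd hp (by omega) t _ (hy.2 i hi)
    · rw [smul_eq_mul]
      apply Nat.mul_le_mul_right
      refine (Finset.card_filter_le _ _).trans ?_
      rw [hY, ps_card_Y (p ^ δ) S j hj]
  refine (Nat.mul_le_mul_right _ h2).trans ?_
  rw [← pow_mul, ← pow_mul, ← pow_mul, ← pow_add, ← pow_add, ← pow_add]
  apply Nat.pow_le_pow_right hp.pos
  have hn1 : 1 ≤ S.card := Finset.card_pos.mpr ⟨j, hj⟩
  have hns : S.card ≤ s := by
    have := Finset.card_le_univ S
    rwa [Fintype.card_fin] at this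
  obtain ⟨n', hn'⟩ : ∃ n', S.card = n' + 1 := ⟨S.card - 1, by omega⟩
  obtain ⟨s', hs'⟩ : ∃ s', s = S.card + s' := ⟨s - S.card, by omega⟩
  have e1 : S.card - 1 = n' := by omega
  have e2 : s - S.card = s' := by omega
  rw [e1, e2, hk', hn']
  have e3 : s = n' + 1 + s' := by omega
  have e4 : e0 + g = (n' + 1 + s') * e0 + L := by
    rw [← hg, hδ, e3]
  have e5 : δ = (n' + 1 + s') * e0 + L := by
    rw [hδ, e3]
  rw [e3]
  have e6 : g = (n' + s') * e0 + L := by
    have : (n' + 1 + s') * e0 = (n' + s') * e0 + e0 := by ring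
    omega
  rw [e5, e6]
  nlinarith [Nat.zero_le (s' * e0), Nat.zero_le (n' * e0)]

open Classical in
theorem psing (d s p : ℕ) (hd : 2 ≤ d) (hs : 1 ≤ s) (hp : p.Prime) (eps : ℝ) (heps : 0 < eps) :
    ∃ k1 : ℕ, ∀ k : ℕ, k1 ≤ k → ∀ G : Pol s, G.IsHomogeneous d →
    (((Fintype.piFinset fun _ : Fin s => range (p ^ k)).filter fun a : Fin s → ℕ =>
      ∃ x : Fin s → ℤ, (∃ i, ¬ (p : ℤ) ∣ x i) ∧
        ∀ i, (p : ℤ) ^ k ∣ evZ (pderiv i (fm d G fun i => (a i : ℤ))) x).card : ℝ) ≤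
      eps * (p : ℝ) ^ (k * s) := by
  have hpR : (1 : ℝ) < p := by exact_mod_cast hp.one_lt
  obtain ⟨L0, hL0⟩ := pow_unbounded_of_one_lt (((s * (2 ^ s * s) : ℕ) : ℝ) / eps) hpR
  set L := L0 + 1 with hLdef
  have hL : (((s * (2 ^ s * s) : ℕ) : ℝ) / eps) < (p : ℝ) ^ L :=
    hL0.trans_le (pow_le_pow_right₀ hpR.le (by omega))
  set v := padicValNat p d with hv
  set T := psT s v d L with hT
  have hTm : Monotone T := psT_mono s v d L hs hd
  refine ⟨T s + 1, fun k hk G hG => ?_⟩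
  -- the covering
  have hcov : ((Fintype.piFinset fun _ : Fin s => range (p ^ k)).filter fun a : Fin s → ℕ =>
      ∃ x : Fin s → ℤ, (∃ i, ¬ (p : ℤ) ∣ x i) ∧
        ∀ i, (p : ℤ) ^ k ∣ evZ (pderiv i (fm d G fun i => (a i : ℤ))) x) ⊆
      (range s).biUnion fun r => (univ : Finset (Finset (Fin s))).biUnion fun S =>
        S.biUnion fun j => psE p k (T (r + 1)) (T r) (fm d G) S j := by
    intro a ha
    rw [Finset.mem_filter] at ha
    obtain ⟨ha1, x, ⟨j, hj⟩, hx⟩ := ha
    have hpZ : Prime (p : ℤ) := Nat.prime_iff_prime_int.mp hp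
    -- normalisation
    obtain ⟨u, hu⟩ : ∃ u : ℤ, u * x j ≡ 1 [ZMOD ((p : ℤ) ^ k)] := by
      have h1 : IsCoprime (x j) ((p : ℤ) ^ k) :=
        IsCoprime.pow_right ((Prime.coprime_iff_not_dvd hpZ).mpr hj).symm
      obtain ⟨u, w, huw⟩ := h1
      refine ⟨u, ?_⟩
      rw [← huw]
      apply Int.ModEq.symm
      rw [Int.modEq_iff_dvd]
      exact ⟨-w, by ring⟩
    set x' : Fin s → ℤ := fun i => u * x i with hx'
    have hx'd : ∀ i, (p : ℤ) ^ k ∣ evZ (pderiv i (fm d G fun i => (a i : ℤ))) x' := by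
      intro i
      rw [hx', ps_hom ((hom_fm d G hG _).pderiv)]
      exact Dvd.dvd.mul_left (hx i) _
    have hk1 : k ≠ 0 := by omega
    have hx'j : ¬ (p : ℤ) ∣ x' j := by
      intro h1
      have h2 : x' j ≡ 1 [ZMOD (p : ℤ)] := hu.of_dvd (dvd_pow_self _ hk1)
      have h3 : (p : ℤ) ∣ 1 := by
        have h4 := (Int.modEq_iff_dvd.mp h2)
        have h5 := dvd_add h4 h1
        rwa [sub_add_cancel] at h5
      exact hpZ.not_dvd_one h3
    obtain ⟨r, hr, hgap⟩ := ps_gap (p := p) T hTm rfl x' j hx'j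
    set δ := T (r + 1) with hδ
    have hT1 : 1 ≤ T r := by
      have : T 0 ≤ T r := hTm (Nat.zero_le _)
      exact this
    have hTr : T r ≤ δ := hTm (Nat.le_succ _)
    have hδk : δ ≤ k := by
      have : δ ≤ T s := hTm (by omega)
      omega
    have hpδ : (0 : ℤ) < (p : ℤ) ^ δ := by
      have := hp.pos
      positivity
    set S : Finset (Fin s) := univ.filter fun i => ¬ (p : ℤ) ^ T r ∣ x' i with hS
    have hjS : j ∈ S := by
      rw [hS, Finset.mem_filter]
      refine ⟨Finset.mem_univ _, fun h1 => hx'j ?_⟩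
      exact (dvd_pow_self _ (by omega)).trans h1
    set y : Fin s → ℕ := fun i => (x' i % (p : ℤ) ^ δ).toNat with hy
    have hyZ : ∀ i, (y i : ℤ) = x' i % (p : ℤ) ^ δ := fun i =>
      Int.toNat_of_nonneg (Int.emod_nonneg _ hpδ.ne')
    have hyx : ∀ i, x' i ≡ y i [ZMOD (p : ℤ) ^ δ] := by
      intro i
      rw [hyZ]
      exact (Int.mod_modEq _ _).symm
    rw [Finset.mem_biUnion]
    refine ⟨r, Finset.mem_range.mpr hr, ?_⟩
    rw [Finset.mem_biUnion]
    refine ⟨S, Finset.mem_univ _, ?_⟩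
    rw [Finset.mem_biUnion]
    refine ⟨j, hjS, ?_⟩
    unfold psE
    rw [Finset.mem_filter]
    refine ⟨ha1, y, ?_, ?_, ?_⟩
    · rw [Fintype.mem_piFinset]
      intro i
      by_cases hij : i = j
      · rw [if_pos hij, Finset.mem_singleton]
        have h1 : x' i ≡ 1 [ZMOD (p : ℤ) ^ δ] := by
          rw [hij]
          exact hu.of_dvd (pow_dvd_pow _ hδk)
        have h2 : x' i % (p : ℤ) ^ δ = 1 % (p : ℤ) ^ δ := h1
        have h3 : (1 : ℤ) % (p : ℤ) ^ δ = 1 := by
          apply Int.emod_eq_of_lt (by norm_num)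
          have h4 : (p : ℤ) ∣ (p : ℤ) ^ δ := dvd_pow_self _ (by omega)
          have h5 := Int.le_of_dvd hpδ h4
          have h6 : (1 : ℤ) < p := by exact_mod_cast hp.one_lt
          linarith
        have h4 : (y i : ℤ) = 1 := by rw [hyZ, h2, h3]
        exact_mod_cast h4
      · rw [if_neg hij]
        by_cases hiS : i ∈ S
        · rw [if_pos hiS, Finset.mem_range]
          have h1 : (y i : ℤ) < (p : ℤ) ^ δ := by
            rw [hyZ]
            exact Int.emod_lt_of_pos _ hpδ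
          exact_mod_cast h1
        · rw [if_neg hiS, Finset.mem_singleton]
          have h1 : (p : ℤ) ^ T r ∣ x' i := by
            by_contra h2
            exact hiS (by rw [hS, Finset.mem_filter]; exact ⟨Finset.mem_univ _, h2⟩)
          have h2 := hgap i h1
          have h3 : (y i : ℤ) = 0 := by
            rw [hyZ]
            exact Int.emod_eq_zero_of_dvd h2
          exact_mod_cast h3
    · intro i hi h1
      rw [hS, Finset.mem_filter] at hi
      apply hi.2
      have h2 := ((hyx i).of_dvd (pow_dvd_pow _ hTr))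
      have h3 := Int.modEq_iff_dvd.mp h2
      have h4 := dvd_sub h1 h3
      rwa [sub_sub_cancel] at h4
    · intro i _
      have h1 := hx'd i
      have h2 := evZ_congr (pderiv i (fm d G fun i => (a i : ℤ))) x' (fun i => (y i : ℤ))
        ((p : ℤ) ^ δ) hyx
      have h3 := (pow_dvd_pow (p : ℤ) hδk).trans h1
      exact (Int.ModEq.dvd_iff h2).mp h3
  have hpL : 0 < p ^ L := pow_pos hp.pos _
  have hbd : ((Fintype.piFinset fun _ : Fin s => range (p ^ k)).filter fun a : Fin s → ℕ =>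
      ∃ x : Fin s → ℤ, (∃ i, ¬ (p : ℤ) ∣ x i) ∧
        ∀ i, (p : ℤ) ^ k ∣ evZ (pderiv i (fm d G fun i => (a i : ℤ))) x).card * p ^ L ≤
      (s * (2 ^ s * s)) * p ^ (k * s) := by
    have hE : ∀ r ∈ range s, ∀ S : Finset (Fin s), ∀ j ∈ S,
        (psE p k (T (r + 1)) (T r) (fm d G) S j).card ≤ p ^ (k * s) / p ^ L := by
      intro r hr S j hj
      rw [Nat.le_div_iff_mul_le hpL]
      refine ps_card_E d s p hd hp L (T r) (T (r + 1)) k rfl (by omega) ?_ G S j hj
      have h1 : T (r + 1) ≤ T s := hTm (Nat.succ_le_of_lt (Finset.mem_range.mp hr))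
      omega
    have h1 : ((range s).biUnion fun r => (univ : Finset (Finset (Fin s))).biUnion fun S =>
        S.biUnion fun j => psE p k (T (r + 1)) (T r) (fm d G) S j).card ≤
        s * (2 ^ s * (s * (p ^ (k * s) / p ^ L))) := by
      refine Finset.card_biUnion_le.trans ?_
      refine (Finset.sum_le_card_nsmul _ _ (2 ^ s * (s * (p ^ (k * s) / p ^ L)))
        fun r hr => ?_).trans (by rw [Finset.card_range, smul_eq_mul])
      refine Finset.card_biUnion_le.trans ?_
      refine (Finset.sum_le_card_nsmul _ _ (s * (p ^ (k * s) / p ^ L))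
        fun S _ => ?_).trans (by
          rw [Finset.card_univ, Fintype.card_finset, Fintype.card_fin, smul_eq_mul])
      refine Finset.card_biUnion_le.trans ?_
      refine (Finset.sum_le_card_nsmul _ _ (p ^ (k * s) / p ^ L)
        fun j hj => hE r hr S j hj).trans ?_
      rw [smul_eq_mul]
      apply Nat.mul_le_mul_right
      have := Finset.card_le_univ S
      rwa [Fintype.card_fin] at this
    calc _ ≤ (s * (2 ^ s * (s * (p ^ (k * s) / p ^ L)))) * p ^ L :=
          Nat.mul_le_mul_right _ ((Finset.card_le_card hcov).trans h1)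
      _ = (s * (2 ^ s * s)) * (p ^ (k * s) / p ^ L * p ^ L) := by ring
      _ ≤ (s * (2 ^ s * s)) * p ^ (k * s) := Nat.mul_le_mul_left _ (Nat.div_mul_le_self _ _)
  have hbR : ((((Fintype.piFinset fun _ : Fin s => range (p ^ k)).filter fun a : Fin s → ℕ =>
      ∃ x : Fin s → ℤ, (∃ i, ¬ (p : ℤ) ∣ x i) ∧
        ∀ i, (p : ℤ) ^ k ∣ evZ (pderiv i (fm d G fun i => (a i : ℤ))) x).card : ℕ) : ℝ) *
        (p : ℝ) ^ L ≤ ((s * (2 ^ s * s) : ℕ) : ℝ) * (p : ℝ) ^ (k * s) := by
    exact_mod_cast hbd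
  have hpLR : (0 : ℝ) < (p : ℝ) ^ L := by positivity
  have h3 : ((s * (2 ^ s * s) : ℕ) : ℝ) ≤ eps * (p : ℝ) ^ L := by
    rw [div_lt_iff₀ heps] at hL
    linarith
  have h4 : (0 : ℝ) ≤ (p : ℝ) ^ (k * s) := by positivity
  have h5 := hbR.trans (mul_le_mul_of_nonneg_right h3 h4)
  have h6 : eps * (p : ℝ) ^ L * (p : ℝ) ^ (k * s) = (eps * (p : ℝ) ^ (k * s)) * (p : ℝ) ^ L := by
    ring
  rw [h6] at h5
  exact le_of_mul_le_mul_right h5 hpLR

end Pool.Agent.Lib.MP_e426f4_ag.DP
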