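import Pool.Agent.Lib.MP_e426f4_ag.DP.Defs

/-!
# RealChg: a non-singular real zero gives a sign change along a coordinate inside an orthant

`f` a real form of degree `d` whose pure coefficients `f(e_i)` are all `≠ 0`; `x ≠ 0` a zero with
`∂_j f(x) ≠ 0`.  On the line `x + t e_j` the function changes sign strictly at `t = 0`: there are
arbitrarily small `t > 0` with `f(x + t e_j) f(x - t e_j) < 0`.  Fix such a `t`, if `x_j ≠ 0` with `t < |x_j|`.
By continuity the strict signs persist for `y` near `x` (`y_i` near `x_i` for `i ≠ j`, the `j`-th coordinate being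
`x_j ± t`): choose all `y_i ≠ 0`, `i ≠ j`.  If `x_j ≠ 0` the two points have all coordinates non-zero with the same signs: done.
If `x_j = 0`: the polynomial `f(y, 0)` in the variables `y_i`, `i ≠ j`, is not zero (`s ≥ 2` and a pure coefficient
is `≠ 0`), so by `MvPolynomial.funext_set` (infinite sets: small intervals around the `x_i` without
`0`) we can choose `y` with moreover `f(y, 0) ≠ 0`.  Then for small `τ > 0` the value `f(y, ± τ)` has the sign of
`f(y, 0)`, and one of the pairs `(y, -t), (y, -τ)` or `(y, τ), (y, t)` has opposite signs: done.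
Finally scale the two points (homogeneity) so that all coordinates have absolute value `≤ 1`, and take
`eta` small.
-/

set_option autoImplicit false

namespace Pool.Agent.Lib.MP_e426f4_ag.DP

open Finset MvPolynomial

private lemma hom_eval {s d : ℕ} {f : MvPolynomial (Fin s) ℝ} (hf : f.IsHomogeneous d) (c : ℝ)
    (x : Fin s → ℝ) : eval (fun i => c * x i) f = c ^ d * eval x f := by
  rw [eval_eq', eval_eq', Finset.mul_sum]
  refine Finset.sum_congr rfl fun m hm => ?_
  have hdeg : ∑ i, m i = d := by
    have h := hf (mem_support_iff.1 hm)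
    rw [← h, Finsupp.weight_apply, Finsupp.sum_fintype _ _ (by simp)]
    simp
  simp only [mul_pow, Finset.prod_mul_distrib]
  rw [Finset.prod_pow_eq_pow_sum, hdeg]
  ring

private lemma hasDeriv_line {s : ℕ} (f : MvPolynomial (Fin s) ℝ) (j : Fin s) (x : Fin s → ℝ) :
    HasDerivAt (fun u : ℝ => eval (Function.update x j u) f) (eval x (pderiv j f)) (x j) := by
  induction f using MvPolynomial.induction_on with
  | C a => simpa using hasDerivAt_const (x j) a
  | add p q hp hq =>
    have e1 : (fun u : ℝ => eval (Function.update x j u) (p + q))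
        = (fun u : ℝ => eval (Function.update x j u) p)
          + fun u : ℝ => eval (Function.update x j u) q := by
      funext u
      simp
    rw [e1, map_add, map_add]
    exact hp.add hq
  | mul_X p i hp =>
    have h1 : HasDerivAt (fun u : ℝ => Function.update x j u i) (if i = j then 1 else 0) (x j) := by
      by_cases hij : i = j
      · subst hij
        have e : (fun u : ℝ => Function.update x i u i) = fun u : ℝ => u := by
          funext u
          simp
        rw [e, if_pos rfl]
        exact hasDerivAt_id' (x i)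
      · simpa [hij, Function.update_of_ne hij] using hasDerivAt_const (x j) (x i)
    have h2 := hp.mul h1
    have e1 : (fun u : ℝ => eval (Function.update x j u) (p * X i))
        = (fun u : ℝ => eval (Function.update x j u) p) * fun u : ℝ => Function.update x j u i := by
      funext u
      simp
    rw [e1]
    refine h2.congr_deriv ?_
    rw [Derivation.leibniz, pderiv_X]
    by_cases hij : i = j
    · subst hij
      simp
      ring
    · simp [hij]
      ring

/-- both signs are taken on the line -/
private lemma both_signs {s : ℕ} (f : MvPolynomial (Fin s) ℝ) (j : Fin s) (x : Fin s → ℝ)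
    (hx : eval x f = 0) (hj : eval x (pderiv j f) ≠ 0) :
    (∃ a : ℝ, eval (Function.update x j a) f < 0) ∧
      ∃ b : ℝ, 0 < eval (Function.update x j b) f := by
  have hd := hasDeriv_line f j x
  have h0 : eval (Function.update x j (x j)) f = 0 := by
    rw [Function.update_eq_self]; exact hx
  constructor
  · by_contra hcon
    push Not at hcon
    apply hj
    have hmin : IsLocalMin (fun u : ℝ => eval (Function.update x j u) f) (x j) :=
      Filter.Eventually.of_forall fun u => by
        show eval (Function.update x j (x j)) f ≤ eval (Function.update x j u) f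
        rw [h0]; exact hcon u
    have := hmin.hasDerivAt_eq_zero hd
    exact this
  · by_contra hcon
    push Not at hcon
    apply hj
    have hmax : IsLocalMax (fun u : ℝ => eval (Function.update x j u) f) (x j) :=
      Filter.Eventually.of_forall fun u => by
        show eval (Function.update x j u) f ≤ eval (Function.update x j (x j)) f
        rw [h0]; exact hcon u
    have := hmax.hasDerivAt_eq_zero hd
    exact this

private lemma cont_upd {s : ℕ} (f : MvPolynomial (Fin s) ℝ) (j : Fin s) (a : ℝ) :
    Continuous fun y : Fin s → ℝ => eval (Function.update y j a) f :=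
  (MvPolynomial.continuous_eval f).comp (continuous_id.update j continuous_const)

private lemma cont_upd' {s : ℕ} (f : MvPolynomial (Fin s) ℝ) (j : Fin s) (y : Fin s → ℝ) :
    Continuous fun u : ℝ => eval (Function.update y j u) f :=
  (MvPolynomial.continuous_eval f).comp (continuous_const.update j continuous_id)

/-- a nearby point outside of the bad hypersurfaces -/
private lemma near_pt {s : ℕ} (f : MvPolynomial (Fin s) ℝ) (j i0 : Fin s) (hi0 : i0 ≠ j)
    (h0 : eval (Pi.single i0 1) f ≠ 0) (x : Fin s → ℝ) (a b : ℝ)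
    (ha : eval (Function.update x j a) f < 0) (hb : 0 < eval (Function.update x j b) f) :
    ∃ y : Fin s → ℝ, eval (Function.update y j a) f < 0 ∧ 0 < eval (Function.update y j b) f ∧
      eval (Function.update y j 0) f ≠ 0 ∧ ∀ i, i ≠ j → y i ≠ 0 := by
  have e1 : ∀ᶠ y in nhds x, eval (Function.update y j a) f < 0 :=
    (cont_upd f j a).continuousAt.eventually_lt continuousAt_const ha
  have e2 : ∀ᶠ y in nhds x, 0 < eval (Function.update y j b) f :=
    continuousAt_const.eventually_lt (cont_upd f j b).continuousAt hb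
  obtain ⟨ε, hε, hball⟩ := Metric.eventually_nhds_iff.1 (e1.and e2)
  set g : MvPolynomial (Fin s) ℝ := aeval (fun i => if i = j then 0 else X i) f with hg
  have hgev : ∀ y : Fin s → ℝ, eval y g = eval (Function.update y j 0) f := by
    intro y
    rw [hg]
    have : (eval y) ((aeval fun i => if i = j then 0 else X i) f : MvPolynomial (Fin s) ℝ)
        = ((aeval y : MvPolynomial (Fin s) ℝ →ₐ[ℝ] ℝ).comp
          (aeval fun i => if i = j then (0 : MvPolynomial (Fin s) ℝ) else X i)) f := by
      rw [AlgHom.comp_apply, MvPolynomial.aeval_eq_eval]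
    rw [this, MvPolynomial.comp_aeval, MvPolynomial.aeval_eq_eval]
    show (eval fun i => _) f = _
    congr 2
    funext i
    by_cases hij : i = j
    · subst hij; simp
    · simp [hij]
  set G : MvPolynomial (Fin s) ℝ := g * ∏ i ∈ univ.erase j, X i with hG
  have hg0 : g ≠ 0 := by
    intro h
    apply h0
    have h2 := hgev (Pi.single i0 1)
    rw [h, map_zero] at h2
    have h3 : Function.update (Pi.single i0 (1 : ℝ)) j 0 = (Pi.single i0 1 : Fin s → ℝ) := by
      funext i
      by_cases hij : i = j
      · subst hij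
        rw [Function.update_self, Pi.single_eq_of_ne (Ne.symm hi0)]
      · rw [Function.update_of_ne hij]
    rw [h3] at h2
    exact h2.symm
  have hG0 : G ≠ 0 := by
    rw [hG]
    exact mul_ne_zero hg0 (Finset.prod_ne_zero_iff.2 fun i _ => X_ne_zero i)
  by_contra hcon
  apply hG0
  refine MvPolynomial.funext_set (fun i => Set.Ioo (x i - ε) (x i + ε))
    (fun i => Set.Ioo_infinite (by linarith)) fun y hy => ?_
  rw [map_zero]
  by_contra hne
  apply hcon
  have hdist : dist y x < ε := by
    rw [dist_pi_lt_iff hε]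
    intro i
    have := hy i (Set.mem_univ i)
    rw [Real.dist_eq, abs_lt]
    constructor <;> [have := this.1; have := this.2] <;> linarith
  obtain ⟨h1, h2⟩ := hball hdist
  rw [hG, map_mul, map_prod] at hne
  refine ⟨y, h1, h2, ?_, ?_⟩
  · rw [← hgev]
    exact left_ne_zero_of_mul hne
  · intro i hij
    have h3 := right_ne_zero_of_mul hne
    have h4 := Finset.prod_ne_zero_iff.1 h3 i (Finset.mem_erase.2 ⟨hij, Finset.mem_univ i⟩)
    rwa [eval_X] at h4

/-- the sign change on one side of `0` -/
private lemma one_side (h : ℝ → ℝ) (hc : Continuous h) (a b : ℝ) (ha : h a < 0) (hb : 0 < h b)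
    (h0 : h 0 ≠ 0) : ∃ c1 c2 : ℝ, 0 < c1 * c2 ∧ h c1 < 0 ∧ 0 < h c2 := by
  rcases lt_or_gt_of_ne h0 with h0 | h0
  · -- `h 0 < 0`
    have hb0 : b ≠ 0 := by rintro rfl; linarith
    have e1 : ∀ᶠ t in nhdsWithin (0 : ℝ) (Set.Ioi 0), h (b * t) < 0 := by
      apply Filter.Eventually.filter_mono nhdsWithin_le_nhds
      have : ContinuousAt (fun t : ℝ => h (b * t)) 0 :=
        (hc.comp (continuous_const.mul continuous_id)).continuousAt
      exact this.eventually_lt continuousAt_const (by simpa using h0)
    obtain ⟨t, ht, ht0⟩ := (e1.and self_mem_nhdsWithin).exists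
    refine ⟨b * t, b, ?_, ht, hb⟩
    have : 0 < b * b := mul_self_pos.2 hb0
    have h2 : (0 : ℝ) < t := ht0
    nlinarith [mul_pos this h2]
  · have ha0 : a ≠ 0 := by rintro rfl; linarith
    have e1 : ∀ᶠ t in nhdsWithin (0 : ℝ) (Set.Ioi 0), 0 < h (a * t) := by
      apply Filter.Eventually.filter_mono nhdsWithin_le_nhds
      have : ContinuousAt (fun t : ℝ => h (a * t)) 0 :=
        (hc.comp (continuous_const.mul continuous_id)).continuousAt
      exact continuousAt_const.eventually_lt this (by simpa using h0)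
    obtain ⟨t, ht, ht0⟩ := (e1.and self_mem_nhdsWithin).exists
    refine ⟨a, a * t, ?_, ha, ht⟩
    have : 0 < a * a := mul_self_pos.2 ha0
    have h2 : (0 : ℝ) < t := ht0
    nlinarith [mul_pos this h2]

/-- the last step: scaling -/
private lemma scale_up (d s : ℕ) (f : MvPolynomial (Fin s) ℝ) (hf : f.IsHomogeneous d) (j : Fin s)
    (y y' : Fin s → ℝ) (hyy : ∀ i, 0 < y i * y' i) (hne : ∀ i, i ≠ j → y i = y' i)
    (h1 : eval y f < 0) (h2 : 0 < eval y' f) :
    ∃ (σ : Fin s → ℤ) (eta : ℝ) (z z' : Fin s → ℝ), Sgn σ ∧ 0 < eta ∧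
      (∀ i, eta ≤ z i ∧ z i ≤ 1) ∧ (∀ i, eta ≤ z' i ∧ z' i ≤ 1) ∧ (∀ i, i ≠ j → z i = z' i) ∧
      eval (fun i => (σ i : ℝ) * z i) f ≤ -eta ∧ eta ≤ eval (fun i => (σ i : ℝ) * z' i) f := by
  have hS : 0 < 1 + ∑ i, |y i| + ∑ i, |y' i| := by
    have := Finset.sum_nonneg fun i (_ : i ∈ (univ : Finset (Fin s))) => abs_nonneg (y i)
    have := Finset.sum_nonneg fun i (_ : i ∈ (univ : Finset (Fin s))) => abs_nonneg (y' i)
    linarith
  set S : ℝ := 1 + ∑ i, |y i| + ∑ i, |y' i| with hSdef
  have hy0 : ∀ i, y i ≠ 0 := fun i => left_ne_zero_of_mul (hyy i).ne'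
  have hy0' : ∀ i, y' i ≠ 0 := fun i => right_ne_zero_of_mul (hyy i).ne'
  have hle : ∀ i, |y i| ≤ S := by
    intro i
    have h3 := Finset.single_le_sum (f := fun i => |y i|) (fun i _ => abs_nonneg (y i))
      (Finset.mem_univ i)
    have := Finset.sum_nonneg fun i (_ : i ∈ (univ : Finset (Fin s))) => abs_nonneg (y' i)
    linarith
  have hle' : ∀ i, |y' i| ≤ S := by
    intro i
    have h3 := Finset.single_le_sum (f := fun i => |y' i|) (fun i _ => abs_nonneg (y' i))
      (Finset.mem_univ i)
    have := Finset.sum_nonneg fun i (_ : i ∈ (univ : Finset (Fin s))) => abs_nonneg (y i)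
    linarith
  have : Nonempty (Fin s) := ⟨j⟩
  obtain ⟨i1, hi1⟩ := Finite.exists_min fun i => |y i| / S
  obtain ⟨i2, hi2⟩ := Finite.exists_min fun i => |y' i| / S
  have hz1 : 0 < |y i1| / S := div_pos (abs_pos.2 (hy0 i1)) hS
  have hz2 : 0 < |y' i2| / S := div_pos (abs_pos.2 (hy0' i2)) hS
  have hσ : ∀ i, (((if 0 < y i then 1 else -1 : ℤ) : ℤ) : ℝ) * (|y i| / S) = (1 / S) * y i := by
    intro i
    by_cases h : 0 < y i
    · rw [if_pos h, abs_of_pos h]
      push_cast
      ring
    · have h' : y i < 0 := lt_of_le_of_ne (not_lt.1 h) (hy0 i)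
      rw [if_neg h, abs_of_neg h']
      push_cast
      ring
  have hσ' : ∀ i, (((if 0 < y i then 1 else -1 : ℤ) : ℤ) : ℝ) * (|y' i| / S) = (1 / S) * y' i := by
    intro i
    by_cases h : 0 < y i
    · have h' : 0 < y' i := by
        by_contra hcon
        have := mul_nonpos_of_nonneg_of_nonpos h.le (not_lt.1 hcon)
        linarith [hyy i]
      rw [if_pos h, abs_of_pos h']
      push_cast
      ring
    · have h' : y' i < 0 := by
        by_contra hcon
        have := mul_nonpos_of_nonpos_of_nonneg (not_lt.1 h) (not_lt.1 hcon)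
        linarith [hyy i]
      rw [if_neg h, abs_of_neg h']
      push_cast
      ring
  have hκ : 0 < (1 / S) ^ d := pow_pos (one_div_pos.2 hS) d
  have hv1 : (1 / S) ^ d * eval y f < 0 := mul_neg_of_pos_of_neg hκ h1
  have hv2 : 0 < (1 / S) ^ d * eval y' f := mul_pos hκ h2
  refine ⟨fun i => if 0 < y i then 1 else -1,
    min (min (|y i1| / S) (|y' i2| / S)) (min (-((1 / S) ^ d * eval y f)) ((1 / S) ^ d * eval y' f)),
    fun i => |y i| / S, fun i => |y' i| / S, ?_, ?_, ?_, ?_, ?_, ?_, ?_⟩
  · intro i
    by_cases h : 0 < y i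
    · left; simp [h]
    · right; simp [h]
  · exact lt_min (lt_min hz1 hz2) (lt_min (by linarith) hv2)
  · intro i
    exact ⟨((min_le_left _ _).trans (min_le_left _ _)).trans (hi1 i), (div_le_one hS).2 (hle i)⟩
  · intro i
    exact ⟨((min_le_left _ _).trans (min_le_right _ _)).trans (hi2 i), (div_le_one hS).2 (hle' i)⟩
  · intro i hij
    show |y i| / S = |y' i| / S
    rw [hne i hij]
  · have e : (fun i => (((if 0 < y i then 1 else -1 : ℤ) : ℤ) : ℝ) * (|y i| / S))
        = fun i => (1 / S) * y i := funext hσ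
    rw [e, hom_eval hf]
    have := (min_le_right (min (|y i1| / S) (|y' i2| / S))
      (min (-((1 / S) ^ d * eval y f)) ((1 / S) ^ d * eval y' f))).trans (min_le_left _ _)
    linarith
  · have e : (fun i => (((if 0 < y i then 1 else -1 : ℤ) : ℤ) : ℝ) * (|y' i| / S))
        = fun i => (1 / S) * y' i := funext hσ'
    rw [e, hom_eval hf]
    exact (min_le_right _ _).trans (min_le_right _ _)

theorem sign_change (d s : ℕ) (hs : 2 ≤ s) (f : MvPolynomial (Fin s) ℝ) (hf : f.IsHomogeneous d)
    (hpure : ∀ i : Fin s, eval (Pi.single i 1) f ≠ 0) (x : Fin s → ℝ) (hx : eval x f = 0)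
    (j : Fin s) (hj : eval x (pderiv j f) ≠ 0) :
    ∃ (σ : Fin s → ℤ) (eta : ℝ) (j : Fin s) (z z' : Fin s → ℝ), Sgn σ ∧ 0 < eta ∧
      (∀ i, eta ≤ z i ∧ z i ≤ 1) ∧ (∀ i, eta ≤ z' i ∧ z' i ≤ 1) ∧ (∀ i, i ≠ j → z i = z' i) ∧
      eval (fun i => (σ i : ℝ) * z i) f ≤ -eta ∧ eta ≤ eval (fun i => (σ i : ℝ) * z' i) f := by
  obtain ⟨⟨a, ha⟩, b, hb⟩ := both_signs f j x hx hj
  have : Nontrivial (Fin s) := Fin.nontrivial_iff_two_le.2 hs
  obtain ⟨i0, hi0⟩ := exists_ne j
  obtain ⟨y, h1, h2, h3, h4⟩ := near_pt f j i0 hi0 (hpure i0) x a b ha hb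
  obtain ⟨c1, c2, hc, hc1, hc2⟩ := one_side (fun u => eval (Function.update y j u) f)
    (cont_upd' f j y) a b h1 h2 h3
  obtain ⟨σ, eta, z, z', hall⟩ := scale_up d s f hf j (Function.update y j c1)
    (Function.update y j c2) (by
      intro i
      by_cases hij : i = j
      · subst hij
        simpa using hc
      · rw [Function.update_of_ne hij, Function.update_of_ne hij]
        exact mul_self_pos.2 (h4 i hij)) (by
      intro i hij
      rw [Function.update_of_ne hij, Function.update_of_ne hij]) hc1 hc2
  exact ⟨σ, eta, j, z, z', hall⟩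

end Pool.Agent.Lib.MP_e426f4_ag.DP
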