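import Pool.Agent.Lib.MP_e426f4_ag.DP.Defs

/-!
# RealNull: almost all members of the coset have no real singular point

Let `x ≠ 0` with `∂_i G(x) + d α_i x_i^(d-1) = 0` for all `i`, `S = {i | x_i ≠ 0}`, `j ∈ S`; by homogeneity (the
partial derivatives are homogeneous of degree `d - 1`, `IsHomogeneous.pderiv`) we may assume `x_j = 1`.  Then
`α = Φ(y)` where `y_i = x_i` for `i ∈ S`, `y_i = α_i` for `i ∉ S` and
`Φ(y)_i = -∂_i G(y_S, 0) / (d y_i^(d-1))` for `i ∈ S`, `Φ(y)_i = y_i` for `i ∉ S`.  `Φ = Φ_S` is differentiable on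
`D = {y | y_j = 1, y_i ≠ 0 for i ∈ S}`, and `D` has measure zero (hyperplane, e.g.
`MeasureTheory.Measure.addHaar_affineSubspace` or `volume_pi` of a hyperplane).  So its image has measure zero:
`MeasureTheory.addHaar_image_eq_zero_of_differentiableOn_of_addHaar_eq_zero`.  Finite union over `S` and `j`.
-/

set_option autoImplicit false

namespace Pool.Agent.Lib.MP_e426f4_ag.DP

open Finset MvPolynomial

private theorem realNull_hom {s e : ℕ} {P : MvPolynomial (Fin s) ℝ} (hP : P.IsHomogeneous e)
    (c : ℝ) (x : Fin s → ℝ) : eval (c • x) P = c ^ e * eval x P := by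
  rw [eval_eq', eval_eq', Finset.mul_sum]
  refine Finset.sum_congr rfl fun m hm => ?_
  have h1 : ∑ i, m i = e := by
    have h2 := hP (mem_support_iff.1 hm)
    rw [Finsupp.weight_apply, Finsupp.sum_fintype _ _ (fun i => by simp)] at h2
    simpa using h2
  have h3 : ∏ i, (c • x) i ^ m i = c ^ e * ∏ i, x i ^ m i := by
    rw [← h1, ← Finset.prod_pow_eq_pow_sum, ← Finset.prod_mul_distrib]
    refine Finset.prod_congr rfl fun i _ => ?_
    rw [Pi.smul_apply, smul_eq_mul, mul_pow]
  rw [h3]
  ring

private theorem realNull_diff {s : ℕ} (S : Finset (Fin s)) (P : MvPolynomial (Fin s) ℝ) :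
    Differentiable ℝ fun y : Fin s → ℝ => eval (fun k => if k ∈ S then y k else 0) P := by
  induction P using MvPolynomial.induction_on with
  | C a => simp only [eval_C]; exact differentiable_const _
  | add p q hp hq => simp only [map_add]; exact hp.add hq
  | mul_X p i hp =>
    simp only [map_mul, eval_X]
    refine hp.mul ?_
    by_cases h : i ∈ S
    · simp only [if_pos h]
      exact differentiable_apply i
    · simp only [if_neg h]
      exact differentiable_const _

private noncomputable def realNull_Phi {s : ℕ} (d : ℕ) (G : MvPolynomial (Fin s) ℝ)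
    (S : Finset (Fin s)) (y : Fin s → ℝ) : Fin s → ℝ := fun i =>
  if i ∈ S then -eval (fun k => if k ∈ S then y k else 0) (pderiv i G) / (d * y i ^ (d - 1)) else y i

private theorem realNull_image {s : ℕ} (d : ℕ) (hd : 2 ≤ d) (G : MvPolynomial (Fin s) ℝ)
    (S : Finset (Fin s)) (j : Fin s) :
    MeasureTheory.volume (realNull_Phi d G S '' {y | y j = 1 ∧ ∀ i ∈ S, y i ≠ 0}) = 0 := by
  refine MeasureTheory.addHaar_image_eq_zero_of_differentiableOn_of_addHaar_eq_zero _ ?_ ?_
  · rw [differentiableOn_pi]
    intro i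
    by_cases h : i ∈ S
    · have h1 : (fun y : Fin s → ℝ => realNull_Phi d G S y i) = fun y =>
          -eval (fun k => if k ∈ S then y k else 0) (pderiv i G) / (d * y i ^ (d - 1)) := by
        funext y
        unfold realNull_Phi
        rw [if_pos h]
      rw [h1]
      simp only [div_eq_mul_inv]
      refine DifferentiableOn.fun_mul ?_ (DifferentiableOn.fun_inv ?_ ?_)
      · exact (realNull_diff S (pderiv i G)).neg.differentiableOn
      · have h2 : Differentiable ℝ fun y : Fin s → ℝ => y i := differentiable_apply i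
        exact ((h2.pow (d - 1)).const_mul (d : ℝ)).differentiableOn
      · rintro y ⟨-, hy⟩
        have hd0 : (d : ℝ) ≠ 0 := by
          have : d ≠ 0 := by omega
          exact_mod_cast this
        exact mul_ne_zero hd0 (pow_ne_zero _ (hy i h))
    · have h1 : (fun y : Fin s → ℝ => realNull_Phi d G S y i) = fun y => y i := by
        funext y
        unfold realNull_Phi
        rw [if_neg h]
      rw [h1]
      exact (differentiable_apply i).differentiableOn
  · refine MeasureTheory.measure_mono_null (t := {y : Fin s → ℝ | y j = 1}) ?_ ?_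
    · rintro y ⟨h, -⟩
      exact h
    · rw [MeasureTheory.volume_pi]
      exact MeasureTheory.Measure.pi_hyperplane _ j 1

theorem sing_null (d s : ℕ) (hd : 2 ≤ d) (G : MvPolynomial (Fin s) ℝ) (hG : G.IsHomogeneous d) :
    MeasureTheory.volume {α : Fin s → ℝ | ∃ x : Fin s → ℝ, x ≠ 0 ∧
      ∀ i, eval x (pderiv i G) + d * α i * x i ^ (d - 1) = 0} = 0 := by
  classical
  refine MeasureTheory.measure_mono_null (t := ⋃ S : Finset (Fin s), ⋃ j : Fin s,
    realNull_Phi d G S '' {y | y j = 1 ∧ ∀ i ∈ S, y i ≠ 0}) ?_ ?_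
  · rintro α ⟨x, hx, hα⟩
    obtain ⟨j, hj⟩ := Function.ne_iff.1 hx
    have hj' : x j ≠ 0 := hj
    rw [Set.mem_iUnion]
    refine ⟨univ.filter fun i => x i ≠ 0, ?_⟩
    rw [Set.mem_iUnion]
    refine ⟨j, ?_⟩
    set S : Finset (Fin s) := univ.filter fun i => x i ≠ 0 with hS
    have hmem : ∀ i, i ∈ S ↔ x i ≠ 0 := fun i => by simp [hS]
    set c : ℝ := (x j)⁻¹ with hc
    have hc0 : c ≠ 0 := inv_ne_zero hj'
    refine ⟨fun i => if i ∈ S then c * x i else α i, ⟨?_, ?_⟩, ?_⟩
    · show (if j ∈ S then c * x j else α j) = 1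
      rw [if_pos ((hmem j).2 hj'), hc, inv_mul_cancel₀ hj']
    · intro i hi
      show (if i ∈ S then c * x i else α i) ≠ 0
      rw [if_pos hi]
      exact mul_ne_zero hc0 ((hmem i).1 hi)
    · funext i
      unfold realNull_Phi
      by_cases hi : i ∈ S
      · rw [if_pos hi]
        have h1 : (fun k => if k ∈ S then (if k ∈ S then c * x k else α k) else 0) = c • x := by
          funext k
          by_cases hk : k ∈ S
          · rw [if_pos hk, if_pos hk, Pi.smul_apply, smul_eq_mul]
          · have h2 : x k = 0 := by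
              by_contra h
              exact hk ((hmem k).2 h)
            rw [if_neg hk, Pi.smul_apply, h2, smul_zero]
        have h2 : eval (c • x) (pderiv i G) = c ^ (d - 1) * eval x (pderiv i G) :=
          realNull_hom (hG.pderiv (i := i)) c x
        beta_reduce
        rw [h1, h2, if_pos hi]
        have hd0 : (d : ℝ) ≠ 0 := by
          have : d ≠ 0 := by omega
          exact_mod_cast this
        have hxi : x i ≠ 0 := (hmem i).1 hi
        have h3 : eval x (pderiv i G) = -(d * α i * x i ^ (d - 1)) := by linarith [hα i]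
        rw [h3, mul_pow]
        have h4 : c ^ (d - 1) ≠ 0 := pow_ne_zero _ hc0
        have h5 : x i ^ (d - 1) ≠ 0 := pow_ne_zero _ hxi
        field_simp
      · beta_reduce
        rw [if_neg hi, if_neg hi]
  · rw [MeasureTheory.measure_iUnion_null_iff]
    intro S
    rw [MeasureTheory.measure_iUnion_null_iff]
    intro j
    exact realNull_image d hd G S j

end Pool.Agent.Lib.MP_e426f4_ag.DP
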