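import Pool.Agent.Lib.MP_e426f4_ag.DP.Defs

/-!
# SoftA: from measure zero to counting lattice points, uniformly in a compact parameter

Suppose not: then for every `k` (with `η = 1/(k+1)`, `H1 = k+1`) there are `H_k ≥ k + 1` and `g_k ∈ Kc` with more than
`eps H_k^s` bad `a`.  Pass to a subsequence with `g_k → g ∈ Kc` (`IsCompact.tendsto_subseq`).  Let `U_k` be the
union over the bad `a` of the disjoint half-open boxes `∏ [a_i/H_k, (a_i+1)/H_k)`: its volume is `≥ eps`, and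
it lies in `[-1, 2]^s`.  `V_m = ∪_{k ≥ m} U_k` is decreasing, so `∩ V_m` has volume `≥ eps`
(`MeasureTheory.tendsto_measure_iInter_atTop`), hence it contains a point `α` outside the null set of `g`.  But
`α ∈ U_k` for infinitely many `k`, and then `(g_k, a_k/H_k) ∈ B (1/(k+1)) ⊆ B η` for `k` large and
`(g_k, a_k/H_k) → (g, α)`, so `(g, α) ∈ closure (B η)` for all `η > 0`.
-/

set_option autoImplicit false

namespace Pool.Agent.Lib.MP_e426f4_ag.DP

open Finset MeasureTheory Filter Topology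
open Pool.Agent.Lib.MP_e426f4_ag.DG (box)

private def sfC {s : ℕ} (H : ℕ) (a : Fin s → ℤ) : Set (Fin s → ℝ) :=
  Set.pi Set.univ fun i => Set.Ico ((a i : ℝ) / H) (((a i : ℝ) + 1) / H)

private theorem sfC_meas {s : ℕ} (H : ℕ) (a : Fin s → ℤ) : MeasurableSet (sfC H a) :=
  MeasurableSet.univ_pi fun _ => measurableSet_Ico

private theorem sfC_vol {s : ℕ} (H : ℕ) (hH : 0 < H) (a : Fin s → ℤ) :
    volume (sfC H a) = ENNReal.ofReal ((1 / (H : ℝ)) ^ s) := by
  have hH' : (0 : ℝ) < H := by exact_mod_cast hH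
  unfold sfC
  rw [Real.volume_pi_Ico]
  have h1 : ∀ i : Fin s, ENNReal.ofReal (((a i : ℝ) + 1) / H - (a i : ℝ) / H) =
      ENNReal.ofReal (1 / (H : ℝ)) := by
    intro i
    congr 1
    rw [← sub_div]
    congr 1
    ring
  rw [Finset.prod_congr rfl fun i _ => h1 i, Finset.prod_const, Finset.card_univ, Fintype.card_fin,
    ← ENNReal.ofReal_pow (by positivity)]

private theorem sfC_disj {s : ℕ} (H : ℕ) (hH : 0 < H) (a b : Fin s → ℤ) (hab : a ≠ b) :
    Disjoint (sfC H a) (sfC H b) := by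
  have hH' : (0 : ℝ) < H := by exact_mod_cast hH
  rw [Set.disjoint_left]
  intro x hx hy
  apply hab
  funext i
  have h1 := hx i (Set.mem_univ i)
  have h2 := hy i (Set.mem_univ i)
  rw [Set.mem_Ico, div_le_iff₀ hH', lt_div_iff₀ hH'] at h1 h2
  have h3 : (a i : ℝ) < (b i : ℝ) + 1 := by linarith
  have h4 : (b i : ℝ) < (a i : ℝ) + 1 := by linarith
  have h5 : a i < b i + 1 := by exact_mod_cast h3
  have h6 : b i < a i + 1 := by exact_mod_cast h4
  omega

private theorem sfC_near {s : ℕ} (H : ℕ) (hH : 0 < H) (a : Fin s → ℤ) (x : Fin s → ℝ)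
    (hx : x ∈ sfC H a) : dist (fun i => (a i : ℝ) / H) x ≤ 1 / H := by
  have hH' : (0 : ℝ) < H := by exact_mod_cast hH
  rw [dist_pi_le_iff (by positivity)]
  intro i
  have h1 := hx i (Set.mem_univ i)
  rw [Set.mem_Ico, add_div] at h1
  rw [Real.dist_eq, abs_le]
  constructor <;> linarith [h1.1, h1.2]

private theorem sfC_sub {s : ℕ} (H : ℕ) (hH : 0 < H) (a : Fin s → ℤ) (ha : a ∈ box s H) :
    sfC H a ⊆ Set.pi Set.univ fun _ => Set.Icc (-1 : ℝ) 2 := by
  have hH' : (0 : ℝ) < H := by exact_mod_cast hH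
  have hH1 : (1 : ℝ) ≤ H := by exact_mod_cast hH
  intro x hx i hi
  have h1 := hx i hi
  rw [Set.mem_Ico, div_le_iff₀ hH', lt_div_iff₀ hH'] at h1
  unfold DG.box at ha
  rw [Fintype.mem_piFinset] at ha
  have h2 := ha i
  rw [Finset.mem_Icc] at h2
  have h3 : -(H : ℝ) ≤ a i := by exact_mod_cast h2.1
  have h4 : (a i : ℝ) ≤ H := by exact_mod_cast h2.2
  rw [Set.mem_Icc]
  constructor
  · by_contra hcon
    rw [not_le] at hcon
    nlinarith [h1.1]
  · by_contra hcon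
    rw [not_le] at hcon
    nlinarith [h1.2]

open Classical in
private theorem soft0 {ι : Type} [Fintype ι] (s : ℕ) (Kc : Set (ι → ℝ)) (hK : IsCompact Kc)
    (B : ℝ → Set ((ι → ℝ) × (Fin s → ℝ))) (hB : ∀ η η', 0 < η → η ≤ η' → B η ⊆ B η')
    (hN : ∀ g ∈ Kc, volume {α : Fin s → ℝ | ∀ η > 0, (g, α) ∈ closure (B η)} = 0)
    (eps : ℝ) (heps : 0 < eps) : ∃ η > 0, ∃ H1 : ℕ, ∀ H ≥ H1, ∀ g ∈ Kc,
      (((box s H).filter fun a : Fin s → ℤ => (g, fun i => (a i : ℝ) / H) ∈ B η).card : ℝ) ≤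
        eps * (H : ℝ) ^ s := by
  by_contra hcon
  push Not at hcon
  have h1 : ∀ k : ℕ, ∃ (H : ℕ) (g : ι → ℝ), k + 1 ≤ H ∧ g ∈ Kc ∧ eps * (H : ℝ) ^ s <
      (((box s H).filter fun a : Fin s → ℤ =>
        (g, fun i => (a i : ℝ) / H) ∈ B (1 / ((k : ℝ) + 1))).card : ℝ) := by
    intro k
    obtain ⟨H, hH, g, hg, h⟩ := hcon (1 / ((k : ℝ) + 1)) (by positivity) (k + 1)
    exact ⟨H, g, hH, hg, h⟩
  choose Hk gk hHk hgk hcard using h1
  obtain ⟨g, hg, φ, hφ, hlim⟩ := hK.tendsto_subseq hgk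
  -- the bad cells
  obtain ⟨bad, hbad⟩ : ∃ bad : ℕ → Finset (Fin s → ℤ), ∀ k, bad k = ((box s (Hk k)).filter
      fun a : Fin s → ℤ => (gk k, fun i => (a i : ℝ) / (Hk k)) ∈ B (1 / ((k : ℝ) + 1))) :=
    ⟨_, fun _ => rfl⟩
  obtain ⟨U, hU⟩ : ∃ U : ℕ → Set (Fin s → ℝ), ∀ k, U k = ⋃ a ∈ bad k, sfC (Hk k) a :=
    ⟨_, fun _ => rfl⟩
  have hHpos : ∀ k, 0 < Hk k := fun k => by have := hHk k; omega
  have hUmeas : ∀ k, MeasurableSet (U k) := by
    intro k
    rw [hU]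
    exact Finset.measurableSet_biUnion _ fun a _ => sfC_meas _ _
  have hUvol : ∀ k, ENNReal.ofReal eps ≤ volume (U k) := by
    intro k
    rw [hU, measure_biUnion_finset (fun a _ b _ hab => sfC_disj _ (hHpos k) a b hab)
      (fun a _ => sfC_meas _ _)]
    rw [Finset.sum_congr rfl fun a _ => sfC_vol (Hk k) (hHpos k) a, Finset.sum_const, nsmul_eq_mul]
    have hH' : (0 : ℝ) < Hk k := by exact_mod_cast hHpos k
    have h2 : ((bad k).card : ENNReal) = ENNReal.ofReal ((bad k).card : ℝ) := by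
      rw [ENNReal.ofReal_natCast]
    rw [h2, ← ENNReal.ofReal_mul (Nat.cast_nonneg _)]
    apply ENNReal.ofReal_le_ofReal
    have h3 := hcard k
    rw [← hbad k] at h3
    rw [one_div, inv_pow, ← div_eq_mul_inv, le_div_iff₀ (by positivity)]
    exact h3.le
  have hUsub : ∀ k, U k ⊆ Set.pi Set.univ fun _ => Set.Icc (-1 : ℝ) 2 := by
    intro k
    rw [hU]
    refine Set.iUnion₂_subset fun a ha => sfC_sub _ (hHpos k) a ?_
    rw [hbad] at ha
    exact (Finset.mem_filter.1 ha).1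
  -- the limsup
  obtain ⟨V, hV⟩ : ∃ V : ℕ → Set (Fin s → ℝ), ∀ m, V m = ⋃ k, U (φ (k + m)) := ⟨_, fun _ => rfl⟩
  have hVanti : Antitone V := by
    intro m m' hmm
    rw [hV, hV]
    refine Set.iUnion_subset fun k => ?_
    refine Set.subset_iUnion_of_subset (k + (m' - m)) ?_
    have : k + (m' - m) + m = k + m' := by omega
    rw [this]
  have hVmeas : ∀ m, NullMeasurableSet (V m) volume := by
    intro m
    rw [hV]
    exact (MeasurableSet.iUnion fun k => hUmeas _).nullMeasurableSet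
  have hVfin : volume (V 0) ≠ ⊤ := by
    have h4 : V 0 ⊆ Set.pi Set.univ fun _ : Fin s => Set.Icc (-1 : ℝ) 2 := by
      rw [hV]
      exact Set.iUnion_subset fun k => hUsub _
    have h5 := measure_mono (μ := volume) h4
    have h6 : volume (Set.pi Set.univ fun _ : Fin s => Set.Icc (-1 : ℝ) 2) < ⊤ := by
      have h7 : IsCompact (Set.pi Set.univ fun _ : Fin s => Set.Icc (-1 : ℝ) 2) :=
        isCompact_univ_pi fun _ => isCompact_Icc
      exact h7.measure_lt_top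
    exact (lt_of_le_of_lt h5 h6).ne
  have hVint := hVanti.measure_iInter hVmeas ⟨0, hVfin⟩
  have hge : ENNReal.ofReal eps ≤ volume (⋂ m, V m) := by
    rw [hVint]
    refine le_iInf fun m => (hUvol (φ (0 + m))).trans (measure_mono ?_)
    rw [hV]
    exact Set.subset_iUnion_of_subset 0 (le_refl _)
  have hnull : volume (⋂ m, V m) = 0 := by
    refine measure_mono_null ?_ (hN g hg)
    intro α hα η hη
    rw [Metric.mem_closure_iff]
    intro δ hδ
    -- large indices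
    have hφt : Tendsto φ atTop atTop := hφ.tendsto_atTop
    have hd1 : ∀ᶠ k in atTop, dist (gk (φ k)) g < δ := (Metric.tendsto_nhds.1 hlim) δ hδ
    obtain ⟨N1, hN1⟩ := eventually_atTop.1 hd1
    obtain ⟨N2, hN2⟩ := exists_nat_gt (1 / η)
    obtain ⟨N3, hN3⟩ := exists_nat_gt (1 / δ)
    obtain ⟨N4, hN4⟩ := eventually_atTop.1 (hφt.eventually (eventually_ge_atTop (N2 + N3)))
    have hα1 := Set.mem_iInter.1 hα (N1 + N4)
    rw [hV] at hα1
    obtain ⟨k, hk⟩ := Set.mem_iUnion.1 hα1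
    set K := k + (N1 + N4) with hKd
    have hK1 : dist (gk (φ K)) g < δ := hN1 K (by omega)
    have hK2 : N2 + N3 ≤ φ K := hN4 K (by omega)
    rw [hU] at hk
    obtain ⟨a, ha, hxa⟩ := Set.mem_iUnion₂.1 hk
    rw [hbad, Finset.mem_filter] at ha
    have hHK : φ K + 1 ≤ Hk (φ K) := hHk (φ K)
    have hHK' : ((φ K : ℝ) + 1) ≤ Hk (φ K) := by exact_mod_cast hHK
    have hK2' : (N2 : ℝ) + N3 ≤ φ K := by exact_mod_cast hK2
    refine ⟨(gk (φ K), fun i => (a i : ℝ) / (Hk (φ K))), ?_, ?_⟩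
    · refine hB (1 / ((φ K : ℝ) + 1)) η (by positivity) ?_ ha.2
      rw [div_le_iff₀ (by positivity)]
      rw [div_lt_iff₀ hη] at hN2
      have : (0 : ℝ) ≤ N3 := Nat.cast_nonneg _
      nlinarith
    · rw [dist_comm, Prod.dist_eq]
      refine max_lt hK1 ?_
      refine lt_of_le_of_lt (sfC_near _ (hHpos _) a α hxa) ?_
      rw [div_lt_iff₀ (by linarith [(Nat.cast_nonneg (φ K) : (0 : ℝ) ≤ φ K)])]
      rw [div_lt_iff₀ hδ] at hN3
      have : (0 : ℝ) ≤ N2 := Nat.cast_nonneg _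
      nlinarith
  rw [hnull] at hge
  have : 0 < ENNReal.ofReal eps := ENNReal.ofReal_pos.2 heps
  exact absurd hge (not_le.2 this)

open Classical in
theorem soft {ι : Type} [Fintype ι] (s : ℕ) (Kc : Set (ι → ℝ)) (hK : IsCompact Kc)
    (B : ℝ → Set ((ι → ℝ) × (Fin s → ℝ))) (hB : ∀ η η', 0 < η → η ≤ η' → B η ⊆ B η')
    (hN : ∀ g ∈ Kc, MeasureTheory.volume
      {α : Fin s → ℝ | ∀ η : ℝ, 0 < η → (g, α) ∈ closure (B η)} = 0)
    (eps : ℝ) (heps : 0 < eps) :
    ∃ η : ℝ, 0 < η ∧ η ≤ 1 ∧ ∃ H1 : ℕ, ∀ H : ℕ, H1 ≤ H → ∀ g ∈ Kc,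
      (((box s H).filter fun a : Fin s → ℤ => (g, fun i => (a i : ℝ) / H) ∈ B η).card : ℝ) ≤
        eps * (H : ℝ) ^ s := by
  obtain ⟨η, hη, H1, h⟩ := soft0 s Kc hK B hB hN eps heps
  refine ⟨min η 1, lt_min hη one_pos, min_le_right _ _, H1, fun H hH g hg => ?_⟩
  refine le_trans ?_ (h H hH g hg)
  rw [Nat.cast_le]
  refine Finset.card_le_card fun a ha => ?_
  rw [Finset.mem_filter] at ha ⊢
  exact ⟨ha.1, hB _ _ (lt_min hη one_pos) (min_le_left _ _) ha.2⟩

end Pool.Agent.Lib.MP_e426f4_ag.DP
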