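import Pool.Agent.Lib.MP_e426f4_ag.DP.Basic
import Pool.Agent.Lib.MP_e426f4_ag.DP.SoftA
import Pool.Agent.Lib.MP_e426f4_ag.DP.RealNull
import Pool.Agent.Lib.MP_e426f4_ag.DP.RealChg

/-!
# RealExcG: exceptional coefficients at the real place, uniformly in `G`

`soft` with `ι = Fin s → Fin (d + 1)` (exponent vectors), `Kc = {g | |g m| ≤ 2, g m = 0 unless ∑ m_i = d}`
(compact: closed and bounded in a finite dimensional space).  For `g`, `α` let
`f_{g,α}(x) = ∑_m g_m ∏ x_i^(m_i) + ∑ α_i x_i^d` (continuous in `(g, α, x)`), and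
`B η = {(g, α) | g ∈ Kc, f_{g,α} has a zero x ≠ 0, and there are no σ ∈ {±1}^s, j, z, z' ∈ [η,1]^s, z_i = z'_i for
i ≠ j, with f(σ z) ≤ -η, f(σ z') ≥ η}`.  Let `g ∈ Kc` and `α` with `(g, α) ∈ closure (B η)` for all `η > 0`.
(i) `f_{g,α}` has a zero `≠ 0`: zeros can be scaled to sup norm `1`; limit of zeros (compactness of the sphere).
(ii) there are no `σ, η > 0, j, z, z'` with `f(σ z) ≤ -η`, `f(σ z') ≥ η`: otherwise the same with `η/2` holds for
all `(g', α')` near `(g, α)`, contradiction to `(g, α) ∈ closure (B (η/2))`.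
So by `sign_change` either some pure coefficient `α_i + g_{d e_i}` is `0` (null set: hyperplane) or
all zeros are singular, and `sing_null` applies (`f = MvPolynomial` with the coefficients).
Application: `g m = coeff (mo m) G / H`, `evR (fm d G a) x = H f_{g, a/H}(x)` by `evR_fm`, `evR_coeff`.
-/

set_option autoImplicit false

namespace Pool.Agent.Lib.MP_e426f4_ag.DP

open Finset MvPolynomial
open Pool.Agent.Lib.MP_e426f4_ag.DG (box)

/-- the form with real coefficients -/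
private noncomputable def ff {d s : ℕ} (g : (Fin s → Fin (d + 1)) → ℝ) (α x : Fin s → ℝ) : ℝ :=
  ∑ m : Fin s → Fin (d + 1), g m * ∏ i, x i ^ (m i : ℕ) + ∑ i, α i * x i ^ d

/-- the compact set of the coefficients -/
private def Kc (d s : ℕ) : Set ((Fin s → Fin (d + 1)) → ℝ) :=
  {g | (∀ m, g m ∈ Set.Icc (-2 : ℝ) 2) ∧ ∀ m : Fin s → Fin (d + 1), ∑ i, (m i : ℕ) ≠ d → g m = 0}

private theorem Kc_compact (d s : ℕ) : IsCompact (Kc d s) := by
  have h1 : IsCompact (Set.pi Set.univ fun _ : Fin s → Fin (d + 1) => Set.Icc (-2 : ℝ) 2) :=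
    isCompact_univ_pi fun _ => isCompact_Icc
  refine h1.of_isClosed_subset ?_ fun g hg m _ => hg.1 m
  have h2 : Kc d s = (⋂ m : Fin s → Fin (d + 1), {g | g m ∈ Set.Icc (-2 : ℝ) 2}) ∩
      ⋂ m : Fin s → Fin (d + 1), {g | ∑ i, (m i : ℕ) ≠ d → g m = 0} := by
    ext g
    simp only [Kc, Set.mem_ofPred_eq, Set.mem_inter_iff, Set.mem_iInter]
  rw [h2]
  refine IsClosed.inter (isClosed_iInter fun m => ?_) (isClosed_iInter fun m => ?_)
  · exact isClosed_Icc.preimage (continuous_apply m)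
  · by_cases h : ∑ i, (m i : ℕ) = d
    · have : {g : (Fin s → Fin (d + 1)) → ℝ | ∑ i, (m i : ℕ) ≠ d → g m = 0} = Set.univ := by
        ext g
        simp [h]
      rw [this]
      exact isClosed_univ
    · have : {g : (Fin s → Fin (d + 1)) → ℝ | ∑ i, (m i : ℕ) ≠ d → g m = 0} =
          (fun g : (Fin s → Fin (d + 1)) → ℝ => g m) ⁻¹' {0} := by
        ext g
        simp [h]
      rw [this]
      exact isClosed_singleton.preimage (continuous_apply m)

private theorem ff_cont (d s : ℕ) : Continuous fun p : ((Fin s → Fin (d + 1)) → ℝ) ×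
    (Fin s → ℝ) × (Fin s → ℝ) => ff p.1 p.2.1 p.2.2 := by
  unfold ff
  fun_prop

private theorem ff_smul {d s : ℕ} {g : (Fin s → Fin (d + 1)) → ℝ} (hg : g ∈ Kc d s)
    (α x : Fin s → ℝ) (c : ℝ) : ff g α (fun i => c * x i) = c ^ d * ff g α x := by
  unfold ff
  rw [mul_add, mul_sum, mul_sum]
  congr 1
  · refine sum_congr rfl fun m _ => ?_
    by_cases h : ∑ i, (m i : ℕ) = d
    · have h1 : ∏ i, (c * x i) ^ (m i : ℕ) = c ^ d * ∏ i, x i ^ (m i : ℕ) := by
        simp only [mul_pow]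
        rw [prod_mul_distrib, prod_pow_eq_pow_sum, h]
      rw [h1]
      ring
    · rw [hg.2 m h]
      ring
  · refine sum_congr rfl fun i _ => ?_
    rw [mul_pow]
    ring

/-- the polynomial with the coefficients `g` -/
private noncomputable def Gp {d s : ℕ} (g : (Fin s → Fin (d + 1)) → ℝ) : MvPolynomial (Fin s) ℝ :=
  ∑ m : Fin s → Fin (d + 1), monomial (mo m) (g m)

private noncomputable def Pp {d s : ℕ} (g : (Fin s → Fin (d + 1)) → ℝ) (α : Fin s → ℝ) :
    MvPolynomial (Fin s) ℝ := Gp g + ∑ i, C (α i) * X i ^ d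

private theorem eval_Gp {d s : ℕ} (g : (Fin s → Fin (d + 1)) → ℝ) (x : Fin s → ℝ) :
    eval x (Gp g) = ∑ m : Fin s → Fin (d + 1), g m * ∏ i, x i ^ (m i : ℕ) := by
  unfold Gp
  rw [map_sum]
  refine sum_congr rfl fun m _ => ?_
  rw [eval_monomial, Finsupp.prod_fintype _ _ (by intro i; simp)]
  rfl

private theorem eval_Pp {d s : ℕ} (g : (Fin s → Fin (d + 1)) → ℝ) (α x : Fin s → ℝ) :
    eval x (Pp g α) = ff g α x := by
  unfold Pp ff
  rw [map_add, eval_Gp, map_sum]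
  congr 1
  refine sum_congr rfl fun i _ => ?_
  simp

private theorem hom_Gp {d s : ℕ} {g : (Fin s → Fin (d + 1)) → ℝ} (hg : g ∈ Kc d s) :
    (Gp g).IsHomogeneous d := by
  unfold Gp
  refine IsHomogeneous.sum _ _ _ fun m _ => ?_
  by_cases h : ∑ i, (m i : ℕ) = d
  · refine isHomogeneous_monomial _ ?_
    rw [Finsupp.degree_eq_sum]
    exact h
  · rw [hg.2 m h, monomial_zero]
    exact isHomogeneous_zero _ _ _

private theorem hom_Pp {d s : ℕ} {g : (Fin s → Fin (d + 1)) → ℝ} (hg : g ∈ Kc d s)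
    (α : Fin s → ℝ) : (Pp g α).IsHomogeneous d := by
  unfold Pp
  refine (hom_Gp hg).add (IsHomogeneous.sum _ _ _ fun i _ => ?_)
  exact isHomogeneous_C_mul_X_pow _ _ _

private theorem pderiv_Pp {d s : ℕ} (g : (Fin s → Fin (d + 1)) → ℝ) (α x : Fin s → ℝ)
    (j : Fin s) : eval x (pderiv j (Pp g α)) = eval x (pderiv j (Gp g)) +
      d * α j * x j ^ (d - 1) := by
  unfold Pp
  rw [map_add, map_add, map_sum, map_sum]
  congr 1
  rw [sum_eq_single j]
  · rw [pderiv_C_mul, pderiv_pow, pderiv_X_self]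
    simp
    ring
  · intro i _ hi
    rw [pderiv_C_mul, pderiv_pow, pderiv_X_of_ne hi]
    simp
  · intro h
    exact absurd (mem_univ j) h

/-- a strict sign change with constant `η` -/
private def Chg {d s : ℕ} (η : ℝ) (g : (Fin s → Fin (d + 1)) → ℝ) (α : Fin s → ℝ) : Prop :=
  ∃ (σ : Fin s → ℤ) (j : Fin s) (z z' : Fin s → ℝ), Sgn σ ∧
    (∀ i, η ≤ z i ∧ z i ≤ 1) ∧ (∀ i, η ≤ z' i ∧ z' i ≤ 1) ∧ (∀ i, i ≠ j → z i = z' i) ∧
    ff g α (fun i => (σ i : ℝ) * z i) ≤ -η ∧ η ≤ ff g α (fun i => (σ i : ℝ) * z' i)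

private theorem Chg.mono {d s : ℕ} {η η' : ℝ} (h : η ≤ η') {g : (Fin s → Fin (d + 1)) → ℝ}
    {α : Fin s → ℝ} (hc : Chg η' g α) : Chg η g α := by
  obtain ⟨σ, j, z, z', h1, h2, h3, h4, h5, h6⟩ := hc
  exact ⟨σ, j, z, z', h1, fun i => ⟨h.trans (h2 i).1, (h2 i).2⟩,
    fun i => ⟨h.trans (h3 i).1, (h3 i).2⟩, h4, by linarith, by linarith⟩

private def Bad (d s : ℕ) (η : ℝ) : Set (((Fin s → Fin (d + 1)) → ℝ) × (Fin s → ℝ)) :=
  {p | p.1 ∈ Kc d s ∧ (∃ x : Fin s → ℝ, x ≠ 0 ∧ ff p.1 p.2 x = 0) ∧ ¬ Chg η p.1 p.2}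

/-- limits of forms with zeros have zeros -/
private theorem zero_closed {d s : ℕ} (η : ℝ) {g : (Fin s → Fin (d + 1)) → ℝ} {α : Fin s → ℝ}
    (h : (g, α) ∈ closure (Bad d s η)) : ∃ x : Fin s → ℝ, x ≠ 0 ∧ ff g α x = 0 := by
  obtain ⟨p, hp, hlim⟩ := mem_closure_iff_seq_limit.1 h
  have h1 : ∀ n, ∃ x : Fin s → ℝ, x ∈ Metric.sphere (0 : Fin s → ℝ) 1 ∧
      ff (p n).1 (p n).2 x = 0 := by
    intro n
    obtain ⟨hK, ⟨x, hx, hx0⟩, -⟩ := hp n
    have hn : ‖x‖ ≠ 0 := norm_ne_zero_iff.2 hx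
    refine ⟨fun i => ‖x‖⁻¹ * x i, ?_, ?_⟩
    · rw [mem_sphere_zero_iff_norm]
      have : (fun i => ‖x‖⁻¹ * x i) = ‖x‖⁻¹ • x := by
        funext i
        rfl
      rw [this, norm_smul, norm_inv, norm_norm, inv_mul_cancel₀ hn]
    · rw [ff_smul hK, hx0, mul_zero]
  choose x hx hx0 using h1
  obtain ⟨y, hy, φ, hφ, hyl⟩ := (isCompact_sphere (0 : Fin s → ℝ) 1).tendsto_subseq hx
  refine ⟨y, ?_, ?_⟩
  · intro h0
    rw [h0, mem_sphere_zero_iff_norm, norm_zero] at hy
    exact zero_ne_one hy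
  · have h2 : Filter.Tendsto (fun n => ((p (φ n)).1, (p (φ n)).2, x (φ n))) Filter.atTop
        (nhds (g, α, y)) := by
      have h3 : Filter.Tendsto (fun n => p (φ n)) Filter.atTop (nhds (g, α)) :=
        hlim.comp hφ.tendsto_atTop
      exact (h3.fst_nhds).prodMk_nhds ((h3.snd_nhds).prodMk_nhds hyl)
    have h4 := ((ff_cont d s).tendsto (g, α, y)).comp h2
    have h5 : (fun n => ff (p (φ n)).1 (p (φ n)).2 (x (φ n))) = fun _ => (0 : ℝ) := by
      funext n
      exact hx0 (φ n)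
    have h6 : Filter.Tendsto (fun n => ff (p (φ n)).1 (p (φ n)).2 (x (φ n))) Filter.atTop
        (nhds (ff g α y)) := h4
    rw [h5] at h6
    exact (tendsto_nhds_unique h6 tendsto_const_nhds)

private theorem null_of (d s : ℕ) (hd : 2 ≤ d) (hs : 2 ≤ s) {g : (Fin s → Fin (d + 1)) → ℝ}
    (hg : g ∈ Kc d s) : MeasureTheory.volume {α : Fin s → ℝ | ∀ η > 0,
      (g, α) ∈ closure (Bad d s η)} = 0 := by
  have hsub : {α : Fin s → ℝ | ∀ η > 0, (g, α) ∈ closure (Bad d s η)} ⊆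
      (⋃ i : Fin s, {α : Fin s → ℝ | α i = - eval (Pi.single i 1) (Gp g)}) ∪
      {α : Fin s → ℝ | ∃ x : Fin s → ℝ, x ≠ 0 ∧
        ∀ i, eval x (pderiv i (Gp g)) + d * α i * x i ^ (d - 1) = 0} := by
    intro α hα
    by_contra hcon
    rw [Set.mem_union, not_or] at hcon
    obtain ⟨hc1, hc2⟩ := hcon
    have hpure : ∀ i : Fin s, eval (Pi.single i 1) (Pp g α) ≠ 0 := by
      intro i h0
      apply hc1
      rw [Set.mem_iUnion]
      refine ⟨i, ?_⟩
      have h1 : eval (Pi.single i 1) (Pp g α) = eval (Pi.single i 1) (Gp g) + α i := by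
        unfold Pp
        rw [map_add, map_sum]
        congr 1
        rw [sum_eq_single i]
        · simp
        · intro k _ hk
          have : (Pi.single i (1 : ℝ) : Fin s → ℝ) k = 0 := Pi.single_eq_of_ne hk 1
          rw [map_mul, map_pow, eval_C, eval_X, this, zero_pow (by omega), mul_zero]
        · intro h
          exact absurd (mem_univ i) h
      rw [h1] at h0
      show α i = _
      linarith
    obtain ⟨x, hx, hx0⟩ := zero_closed 1 (hα 1 one_pos)
    have h2 : ∃ j, eval x (pderiv j (Pp g α)) ≠ 0 := by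
      by_contra h3
      push Not at h3
      apply hc2
      refine ⟨x, hx, fun i => ?_⟩
      rw [← pderiv_Pp]
      exact h3 i
    obtain ⟨j, hj⟩ := h2
    obtain ⟨σ, eta, j', z, z', hσ, heta, hz, hz', hzz, hneg, hpos⟩ :=
      sign_change d s hs (Pp g α) (hom_Pp hg α) hpure x (by rw [eval_Pp]; exact hx0) j hj
    rw [eval_Pp] at hneg hpos
    have hcl := hα (eta / 2) (by positivity)
    have hopen : IsOpen {p : ((Fin s → Fin (d + 1)) → ℝ) × (Fin s → ℝ) |
        ff p.1 p.2 (fun i => (σ i : ℝ) * z i) < -(eta / 2) ∧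
        eta / 2 < ff p.1 p.2 (fun i => (σ i : ℝ) * z' i)} := by
      have c1 : ∀ y : Fin s → ℝ, Continuous fun p : ((Fin s → Fin (d + 1)) → ℝ) × (Fin s → ℝ) =>
          ff p.1 p.2 y := by
        intro y
        exact (ff_cont d s).comp (by fun_prop :
          Continuous fun p : ((Fin s → Fin (d + 1)) → ℝ) × (Fin s → ℝ) => (p.1, p.2, y))
      exact (isOpen_lt (c1 _) continuous_const).inter (isOpen_lt continuous_const (c1 _))
    obtain ⟨p, hpU, hpB⟩ := mem_closure_iff.1 hcl _ hopen ⟨by simp only; linarith,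
      by simp only; linarith⟩
    apply hpB.2.2
    exact ⟨σ, j', z, z', hσ, fun i => ⟨by linarith [(hz i).1], (hz i).2⟩,
      fun i => ⟨by linarith [(hz' i).1], (hz' i).2⟩, hzz, hpU.1.le, hpU.2.le⟩
  refine MeasureTheory.measure_mono_null hsub (MeasureTheory.measure_union_null ?_ ?_)
  · rw [MeasureTheory.measure_iUnion_null_iff]
    intro i
    rw [MeasureTheory.volume_pi]
    exact MeasureTheory.Measure.pi_hyperplane (fun _ => MeasureTheory.volume) i _
  · exact sing_null d s hd (Gp g) (hom_Gp hg)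

open Classical in
theorem real_excG (d s : ℕ) (hd : 2 ≤ d) (hs : 2 ≤ s) (eps : ℝ) (heps : 0 < eps) :
    ∃ eta : ℝ, 0 < eta ∧ eta ≤ 1 ∧ ∃ H1 : ℕ, ∀ H : ℕ, H1 ≤ H → ∀ G : Pol s, Cb d (2 * H) G →
    (((box s H).filter fun a : Fin s → ℤ => Zer ℝ (fm d G a) ∧
      ∀ σ : Fin s → ℤ, Sgn σ → ¬ PosR eta H (twist σ (fm d G a))).card : ℝ) ≤
      eps * (H : ℝ) ^ s := by
  obtain ⟨η, hη, -, H1, hH1⟩ := soft s (Kc d s) (Kc_compact d s) (Bad d s)
    (fun η η' _ h p hp => ⟨hp.1, hp.2.1, fun hc => hp.2.2 (hc.mono h)⟩)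
    (fun g hg => null_of d s hd hs hg) eps heps
  refine ⟨min η 1, lt_min hη one_pos, min_le_right _ _, max H1 1, fun H hH G hG => ?_⟩
  have hHpos : 0 < H := lt_of_lt_of_le one_pos ((le_max_right _ _).trans hH)
  have hH' : (0 : ℝ) < H := by exact_mod_cast hHpos
  set g : (Fin s → Fin (d + 1)) → ℝ := fun m => ((coeff (mo m) G : ℤ) : ℝ) / H with hgdef
  have hgK : g ∈ Kc d s := by
    refine ⟨fun m => ?_, fun m hm => ?_⟩
    · rw [Set.mem_Icc, ← abs_le]
      simp only [hgdef]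
      rw [abs_div, abs_of_pos hH', div_le_iff₀ hH']
      have h1 := hG.2 (mo m)
      have h2 : ((|coeff (mo m) G| : ℤ) : ℝ) ≤ ((2 * H : ℕ) : ℤ) := by exact_mod_cast h1
      push_cast at h2
      exact h2
    · simp only [hgdef]
      have h1 : coeff (mo m) G = 0 := by
        refine hG.1.coeff_eq_zero ?_
        rw [Finsupp.degree_eq_sum]
        exact hm
      rw [h1]
      simp
  have hev : ∀ (a : Fin s → ℤ) (x : Fin s → ℝ),
      evR (fm d G a) x = H * ff g (fun i => (a i : ℝ) / H) x := by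
    intro a x
    rw [evR_fm, evR_coeff hG.1]
    unfold ff
    rw [mul_add, mul_sum, mul_sum]
    congr 1
    · refine sum_congr rfl fun m _ => ?_
      simp only [hgdef]
      field_simp
    · refine sum_congr rfl fun i _ => ?_
      field_simp
  refine le_trans ?_ (hH1 H ((le_max_left _ _).trans hH) g hgK)
  refine Nat.cast_le.2 (card_le_card fun a ha => ?_)
  rw [mem_filter] at ha ⊢
  refine ⟨ha.1, hgK, ?_, ?_⟩
  · obtain ⟨x, hx, hx0⟩ := ha.2.1
    refine ⟨x, hx, ?_⟩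
    have h1 : evR (fm d G a) x = 0 := hx0
    rw [hev] at h1
    exact (mul_eq_zero.1 h1).resolve_left hH'.ne'
  · intro hc
    obtain ⟨σ, j, z, z', h1, h2, h3, h4, h5, h6⟩ := hc.mono (min_le_left η 1)
    refine ha.2.2 σ h1 ⟨j, z, z', h2, h3, h4, ?_, ?_⟩
    · rw [evR_twist, hev]
      have := mul_le_mul_of_nonneg_left h5 hH'.le
      simp only at this
      linarith
    · rw [evR_twist, hev]
      have := mul_le_mul_of_nonneg_left h6 hH'.le
      simp only at this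
      linarith

end Pool.Agent.Lib.MP_e426f4_ag.DP
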