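import Pool.Agent.Lib.MP_e426f4_ag.DP.Defs
import Pool.Agent.Lib.MP_e426f4_ag.DK.RhsSmall
import Pool.Agent.Lib.MP_e426f4_ag.DG.Psi

/-!
# RhsG: `DK.rhs_small` with non-negative weights
-/

set_option autoImplicit false

namespace Pool.Agent.Lib.MP_e426f4_ag.DP

open Finset
open Pool.Agent.Lib.MP_e426f4_ag.DG
open Pool.Agent.Lib.MP_e426f4_ag.DH (rhsG)
open Pool.Agent.Lib.MP_e426f4_ag.DK

open Classical in
theorem rhs_smallG (d s u l e E : ℕ) (hA : CA d s u l) (hB : CB d s u l e) (eta : ℝ)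
    (heta : 0 < eta) : ∃ (om : ℕ) (e0 : ℝ) (R0 : ℕ), 1 ≤ om ∧ 0 < e0 ∧ ∀ (J : ℕ)
      (S : Su d s u l e (4 * m4v d u) (wv d s u) E), R0 ≤ S.R →
    ((om.factorial : ℝ) * J ≤ e0 * S.H * (S.B : ℝ) ^ d) →
    ∃ φ1 φ2 φ3 : ZMod S.P → ℝ, (∀ b, psi S.P om.factorial J b = φ1 b + φ2 b + φ3 b) ∧
      (∀ b, 0 ≤ φ1 b) ∧ (∀ b, 0 ≤ φ2 b) ∧ (∀ b, 0 ≤ φ3 b) ∧
      rhsG S.P S.n d (fun _ : Fin s => S.X) φ1 + rhsG S.P S.n d (fun _ : Fin s => S.X) φ2 +
        rhsG S.P S.n d (fun _ : Fin s => S.X) φ3 ≤ eta * S.main := by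
  obtain ⟨C1, hC1, h1⟩ := comb_maj d s u l e (m4v d u) (wv d s u) E (by
    unfold m4v
    have h2 : (2 * u + 2) * d + 1 ≤ (d + 1) * (2 * u + 4) := by
      have : (d + 1) * (2 * u + 4) = (2 * u + 2) * d + 2 * d + (2 * u + 4) := by ring
      omega
    calc 4 * d * ((2 * u + 2) * d + 1) ≤ (64 * (d + 1)) * ((d + 1) * (2 * u + 4)) :=
          Nat.mul_le_mul (by omega) h2
      _ = 64 * (d + 1) * (d + 1) * (2 * u + 4) := by ring)
  obtain ⟨C0, h2⟩ := comb_min d s u l e E hA hB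
  obtain ⟨om, e0, hom, he0, h1⟩ := h1 (eta / 2) (by positivity)
  refine ⟨om, e0, max C0 (⌈(C1 + (16 * u + 4)) / (eta / 2)⌉₊ + 1), hom, he0, fun J S hR hJ => ?_⟩
  have hR0 : C0 ≤ S.R := (le_max_left _ _).trans hR
  have hR' : ⌈(C1 + (16 * u + 4)) / (eta / 2)⌉₊ + 1 ≤ S.R := (le_max_right _ _).trans hR
  obtain ⟨A⟩ := exists_arc S.P (4 * S.B ^ d) S.prime.pos
    (by have := Nat.one_le_pow d S.B S.B_pos; omega)
  have hRN : 1 ≤ S.R := S.R_pos
  have hRpos : (0 : ℝ) < S.R := by exact_mod_cast hRN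
  have hmn : 0 ≤ S.main := by
    unfold Su.main
    positivity
  have e1 := h1 J S A hJ
  have e2 := h2 (4 * m4v d u) (wv d s u) S hR0 A om.factorial J
  have e3 : rhsG S.P S.n d (fun _ : Fin s => S.X) (fun _ => (0 : ℝ)) = 0 := by
    unfold rhsG
    simp
  have k3 : (C1 + (16 * u + 4)) / S.R ≤ eta / 2 := by
    rw [div_le_iff₀ hRpos]
    have h4 : (C1 + (16 * u + 4)) / (eta / 2) ≤ S.R := by
      have h5 : (⌈(C1 + (16 * u + 4)) / (eta / 2)⌉₊ : ℝ) ≤ S.R := by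
        exact_mod_cast (by omega : ⌈(C1 + (16 * u + 4)) / (eta / 2)⌉₊ ≤ S.R)
      exact (Nat.le_ceil _).trans h5
    rw [div_le_iff₀ (by positivity)] at h4
    linarith
  have k4 := mul_le_mul_of_nonneg_right k3 hmn
  have k5 : (C1 + (16 * u + 4)) / S.R * S.main = C1 / S.R * S.main + (16 * u + 4) / S.R * S.main := by
    ring
  rw [k5] at k4
  have k6 : (eta / 2 + C1 / S.R) * S.main = eta / 2 * S.main + C1 / S.R * S.main := by ring
  rw [k6] at e1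
  have hpsi : ∀ b, 0 ≤ psi S.P om.factorial J b := fun b => psi_nonneg om.factorial J b
  refine ⟨_, _, fun _ => 0, fun b => ?_, fun b => ?_, fun b => ?_, fun _ => le_rfl,
    (add_le_add (add_le_add e1 e2) e3.le).trans (by linarith)⟩
  · by_cases hb : S.Maj A b
    · rw [if_pos hb, if_pos hb]
      ring
    · rw [if_neg hb, if_neg hb]
      ring
  · by_cases hb : S.Maj A b
    · rw [if_pos hb]
      exact hpsi b
    · rw [if_neg hb]
  · by_cases hb : S.Maj A b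
    · rw [if_pos hb]
    · rw [if_neg hb]
      exact hpsi b

end Pool.Agent.Lib.MP_e426f4_ag.DP
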