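import Pool.Agent.Lib.MP_e426f4_ag.DP.FinalW
import Pool.Agent.Lib.MP_e426f4_ag.DP.RealExcG
import Pool.Agent.Lib.MP_e426f4_ag.DP.LocExcG

/-!
# Uni: the main theorem for every coset, uniformly in `G`

`eta` from `real_excG` (`eps/3`), `c0` from `loc_excG` (`eps/3`), then `final_W` with `eps / (3 · 2^s)`.  For a bad `a` outside the two
exceptional sets there is `σ ∈ {±1}^s` with `PosR eta H (twist σ F)`; `twist_fm`, `nuF_twist`, `smallF_twist`, `Cb_twist`,
and `a ↦ (σ_i^d a_i)` is injective from the box to the box.  (The `σ` with `Sgn σ` form a finite set of cardinality `2^s`: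
`Fintype.piFinset fun _ => {1, -1}`.)
-/

set_option autoImplicit false

namespace Pool.Agent.Lib.MP_e426f4_ag.DP

open Finset MvPolynomial
open Pool.Agent.Lib.MP_e426f4_ag.DG (box)

/-- multiplication by signs is a map of the box to itself -/
private theorem uni_card (d s H : ℕ) {σ : Fin s → ℤ} (hσ : Sgn σ) (P Q : (Fin s → ℤ) → Prop)
    [DecidablePred P] [DecidablePred Q] (h : ∀ a, P a → Q fun i => σ i ^ d * a i) :
    ((box s H).filter P).card ≤ ((box s H).filter Q).card := by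
  refine Finset.card_le_card_of_injOn (fun a i => σ i ^ d * a i) ?_ ?_
  · intro a ha
    have ha' := Finset.mem_filter.1 (Finset.mem_coe.1 ha)
    refine Finset.mem_coe.2 (Finset.mem_filter.2 ⟨(mem_box s H _).2 fun i => ?_, h a ha'.2⟩)
    rw [abs_mul, abs_pow, sgn_abs hσ, one_pow, one_mul]
    exact (mem_box s H a).1 ha'.1 i
  · intro a _ b _ hab
    funext i
    have h1 : σ i ^ d * a i = σ i ^ d * b i := congrFun hab i
    have h2 : σ i ^ d ≠ 0 := by
      refine pow_ne_zero _ fun h0 => ?_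
      have h3 := sgn_sq hσ i
      rw [h0] at h3
      norm_num at h3
    exact mul_left_cancel₀ h2 h1

open Classical in
theorem uni (d s u l e e' : ℕ) (hP : Par d s u l e e') (eps : ℝ) (heps : 0 < eps) :
    ∃ H0 : ℕ, ∀ H : ℕ, H0 ≤ H → ∀ G : Pol s, Cb d (2 * H) G →
    (((box s H).filter fun a : Fin s → ℤ => Zer ℝ (fm d G a) ∧
      (∀ (p : ℕ) [Fact p.Prime], Zer ℚ_[p] (fm d G a)) ∧
      ¬ SmallF e' H (fm d G a)).card : ℝ) ≤ eps * (H : ℝ) ^ s := by
  have hd := hP.hd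
  have hs := hP.hs
  have heps3 : 0 < eps / 3 := by positivity
  obtain ⟨eta, heta, heta1, H1, h1⟩ := real_excG d s (by omega) (by omega) (eps / 3) heps3
  obtain ⟨c0, hc0, h2⟩ := loc_excG d s hd (by omega) (eps / 3) heps3
  obtain ⟨om, hom, H2, h3⟩ := final_W d s u l e e' hP eta c0 (eps / (3 * 2 ^ s)) heta heta1 hc0
    (by positivity)
  obtain ⟨H3, h4⟩ := h2 om hom
  refine ⟨max H1 (max H2 H3), fun H hH G hG => ?_⟩
  have hH1 : H1 ≤ H := (le_max_left _ _).trans hH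
  have hH2 : H2 ≤ H := (le_max_left _ _).trans ((le_max_right _ _).trans hH)
  have hH3 : H3 ≤ H := (le_max_right _ _).trans ((le_max_right _ _).trans hH)
  have k1 := h1 H hH1 G hG
  have k2 := h4 H hH3 G hG.1
  obtain ⟨Sg, hSg⟩ : ∃ Sg : Finset (Fin s → ℤ), Sg = Fintype.piFinset fun _ => {1, -1} := ⟨_, rfl⟩
  have hSg1 : ∀ σ, σ ∈ Sg ↔ Sgn σ := by
    intro σ
    rw [hSg, Fintype.mem_piFinset]
    unfold Sgn
    refine forall_congr' fun i => ?_
    simp
  have hSg2 : (Sg.card : ℝ) = 2 ^ s := by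
    rw [hSg, Fintype.card_piFinset]
    have h5 : ({1, -1} : Finset ℤ).card = 2 := by decide
    simp only [h5, Finset.prod_const, Finset.card_univ, Fintype.card_fin]
    push_cast
    rfl
  obtain ⟨E, hE⟩ : ∃ E : (Fin s → ℤ) → Finset (Fin s → ℤ), E = fun σ =>
      (box s H).filter fun a : Fin s → ℤ => PosR eta H (twist σ (fm d G a)) ∧
        c0 * ((om.factorial : ℕ) : ℝ) ^ (s - 1) ≤ nuF om.factorial (fm d G a) ∧
        ¬ SmallF e' H (fm d G a) := ⟨_, rfl⟩
  have k3 : ∀ σ ∈ Sg, ((E σ).card : ℝ) ≤ eps / (3 * 2 ^ s) * (H : ℝ) ^ s := by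
    intro σ hσ
    have hσ' := (hSg1 σ).1 hσ
    have k4 := h3 H hH2 (twist σ G) (Cb_twist hσ' hG)
    refine le_trans ?_ k4
    rw [Nat.cast_le, hE]
    refine uni_card d s H hσ' _ _ fun a ha => ?_
    rw [← twist_fm, nuF_twist _ hσ', smallF_twist _ _ hσ']
    exact ha
  obtain ⟨A, hA⟩ : ∃ A : Finset (Fin s → ℤ), A = (box s H).filter fun a : Fin s → ℤ =>
      Zer ℝ (fm d G a) ∧ ∀ σ : Fin s → ℤ, Sgn σ → ¬ PosR eta H (twist σ (fm d G a)) := ⟨_, rfl⟩
  obtain ⟨B, hB⟩ : ∃ B : Finset (Fin s → ℤ), B = (box s H).filter fun a : Fin s → ℤ =>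
      (∀ (p : ℕ) [Fact p.Prime], Zer ℚ_[p] (fm d G a)) ∧
      nuF om.factorial (fm d G a) < c0 * ((om.factorial : ℕ) : ℝ) ^ (s - 1) := ⟨_, rfl⟩
  rw [← hA] at k1
  rw [← hB] at k2
  have hsub : ((box s H).filter fun a : Fin s → ℤ => Zer ℝ (fm d G a) ∧
      (∀ (p : ℕ) [Fact p.Prime], Zer ℚ_[p] (fm d G a)) ∧ ¬ SmallF e' H (fm d G a)) ⊆
      A ∪ (B ∪ Sg.biUnion E) := by
    intro a ha
    rw [Finset.mem_filter] at ha
    obtain ⟨ha1, ha2, ha3, ha4⟩ := ha
    rw [Finset.mem_union, Finset.mem_union, Finset.mem_biUnion]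
    by_cases hσ : ∀ σ : Fin s → ℤ, Sgn σ → ¬ PosR eta H (twist σ (fm d G a))
    · left
      rw [hA, Finset.mem_filter]
      exact ⟨ha1, ha2, hσ⟩
    · right
      by_cases hc : nuF om.factorial (fm d G a) < c0 * ((om.factorial : ℕ) : ℝ) ^ (s - 1)
      · left
        rw [hB, Finset.mem_filter]
        exact ⟨ha1, ha3, hc⟩
      · right
        push Not at hσ hc
        obtain ⟨σ, hσ1, hσ2⟩ := hσ
        refine ⟨σ, (hSg1 σ).2 hσ1, ?_⟩
        rw [hE]
        exact Finset.mem_filter.2 ⟨ha1, hσ2, hc, ha4⟩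
  have k5 : ((Sg.biUnion E).card : ℝ) ≤ eps / 3 * (H : ℝ) ^ s := by
    have k6 : ((Sg.biUnion E).card : ℝ) ≤ ∑ σ ∈ Sg, ((E σ).card : ℝ) := by
      exact_mod_cast Finset.card_biUnion_le
    refine k6.trans ((Finset.sum_le_card_nsmul _ _ _ k3).trans (le_of_eq ?_))
    rw [nsmul_eq_mul, hSg2]
    field_simp
  have k7 : (((box s H).filter fun a : Fin s → ℤ => Zer ℝ (fm d G a) ∧
      (∀ (p : ℕ) [Fact p.Prime], Zer ℚ_[p] (fm d G a)) ∧ ¬ SmallF e' H (fm d G a)).card : ℝ) ≤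
      (A.card : ℝ) + ((B.card : ℝ) + ((Sg.biUnion E).card : ℝ)) := by
    have k8 := (Finset.card_le_card hsub).trans ((Finset.card_union_le _ _).trans
      (Nat.add_le_add_left (Finset.card_union_le _ _) _))
    exact_mod_cast k8
  linarith

end Pool.Agent.Lib.MP_e426f4_ag.DP
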